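import Pool.Agent.Lib_helper54.HamPath.Defs

/-!
# The algorithm: instances and the next step

An instance has vertices that are natural numbers less than `n`. The algorithm is a recursion;
`next` gives, from an instance and the answers of the instances called so far, the next
instance to be called, or the answer.
-/

namespace Pool.Agent.Lib54.HP

open Pool.Agent.Lib53.HamBase Finset

/-- An instance: set of vertices, possible first and last vertices, arcs. -/
@[ext] structure Ins where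
  S : ℕ → Prop
  X : ℕ → Prop
  Y : ℕ → Prop
  E : ℕ → ℕ → Prop

/-- The set of the numbers less than `n` with a property. -/
noncomputable def fs (n : ℕ) (P : ℕ → Prop) : Finset ℕ := by
  classical exact (range n).filter P

lemma mem_fs {n : ℕ} {P : ℕ → Prop} {i : ℕ} : i ∈ fs n P ↔ i < n ∧ P i := by
  classical
  simp [fs]

/-- The first number less than `n` with a property, or `n`. -/
noncomputable def fst (n : ℕ) (P : ℕ → Prop) : ℕ := (fs n fun i => ∀ j < n, j ≤ i → ¬ P j).card

lemma fst_spec (n : ℕ) (P : ℕ → Prop) :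
    (fst n P < n ∧ P (fst n P) ∧ ∀ j < fst n P, ¬ P j) ∨ (fst n P = n ∧ ∀ j < n, ¬ P j) := by
  classical
  by_cases h : ∃ j, j < n ∧ P j
  · have h1 := Nat.find_spec h
    have h2 : ∀ j < Nat.find h, ¬ P j := fun j hj hP =>
      Nat.find_min h hj ⟨hj.trans h1.1, hP⟩
    have h3 : fst n P = Nat.find h := by
      rw [fst]
      have : (fs n fun i => ∀ j < n, j ≤ i → ¬ P j) = range (Nat.find h) := by
        ext i
        rw [mem_fs, mem_range]
        constructor
        · rintro ⟨hi, h4⟩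
          by_contra hcon
          exact h4 _ h1.1 (by omega) h1.2
        · intro hi
          exact ⟨hi.trans h1.1, fun j _ hji => h2 j (by omega)⟩
      rw [this, card_range]
    left
    rw [h3]
    exact ⟨h1.1, h1.2, h2⟩
  · push Not at h
    right
    refine ⟨?_, h⟩
    rw [fst]
    have : (fs n fun i => ∀ j < n, j ≤ i → ¬ P j) = range n := by
      ext i
      rw [mem_fs, mem_range]
      exact ⟨fun h => h.1, fun hi => ⟨hi, fun j hj _ => h j hj⟩⟩
    rw [this, card_range]

lemma fst_lt {n : ℕ} {P : ℕ → Prop} (h : fst n P < n) : P (fst n P) := by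
  rcases fst_spec n P with h' | h'
  · exact h'.2.1
  · omega

lemma fst_ge {n : ℕ} {P : ℕ → Prop} (h : ¬ fst n P < n) : ∀ j < n, ¬ P j := by
  rcases fst_spec n P with h' | h'
  · exact absurd h'.1 h
  · exact h'.2

lemma fst_of {n : ℕ} {P : ℕ → Prop} {j : ℕ} (hj : j < n) (h : P j) : fst n P < n := by
  by_contra hcon
  exact fst_ge hcon j hj h

/-- The reversed instance. -/
def rev (I : Ins) : Ins := ⟨I.S, I.Y, I.X, fun a b => I.E b a⟩

/-- `v` is reached from `X` without `a` and `b`. -/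
def Rc (n : ℕ) (I : Ins) (a b v : ℕ) : Prop :=
  Rch I.E (fs n fun i => I.S i ∧ i ≠ a ∧ i ≠ b) I.X v

/-- No path without `a` and `b`. -/
def noPath (n : ℕ) (I : Ins) (a b : ℕ) : Prop := ∀ y < n, ¬ (Rc n I a b y ∧ I.Y y)

/-- `w` meets all paths. -/
def P1 (n : ℕ) (I : Ins) (w : ℕ) : Prop := I.S w ∧ noPath n I w n

/-- The pair `u, v` meets all paths, and both sides are not empty. -/
def NT (n : ℕ) (I : Ins) (u v : ℕ) : Prop :=
  I.S u ∧ I.S v ∧ u ≠ v ∧ noPath n I u v ∧ (∃ z < n, Rc n I u v z) ∧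
    ∃ z < n, I.S z ∧ z ≠ u ∧ z ≠ v ∧ ¬ Rc n I u v z

/-- `x` is a first vertex without which some vertex does not reach `Y`. -/
def NR (n : ℕ) (I : Ins) (x : ℕ) : Prop :=
  I.S x ∧ I.X x ∧ ∃ z < n, I.S z ∧ z ≠ x ∧ ¬ Rc n (rev I) x n z

/-- Every vertex is reached from `X` and reaches `Y`. -/
def covI (n : ℕ) (I : Ins) : Prop :=
  ∀ z < n, I.S z → Rc n I n n z ∧ Rc n (rev I) n n z

/-- The number of first vertices. -/
noncomputable def cX (n : ℕ) (I : Ins) : ℕ := (fs n fun i => I.S i ∧ I.X i).card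

/-- A called instance: the set `M`, last vertices before `q`; if `ff` then `p` dominates
everything and is not a last vertex. -/
def bas (n : ℕ) (J : Ins) (M : ℕ → Prop) (p q : ℕ) (ff : Prop) : Ins :=
  ⟨fun i => i < n ∧ M i, fun i => i < n ∧ J.X i,
    fun i => i < n ∧ ((M i ∧ J.E i q ∧ ¬ (ff ∧ i = p)) ∨ i = q),
    fun i j => i < n ∧ j < n ∧ (J.E i j ∨ (ff ∧ i = p))⟩

/-- The reduced instance of the two-vertex split. -/
def h1 (n : ℕ) (J : Ins) (A : ℕ → Prop) (u v : ℕ) (b : ℕ → Prop) : Ins :=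
  ⟨fun i => i < n ∧ (J.S i ∧ ¬ A i),
    fun i => i < n ∧ ((i = u ∧ (b 2 ∨ b 0)) ∨ (i = v ∧ (b 3 ∨ b 1))),
    fun i => i < n ∧ J.Y i,
    fun i j => i < n ∧ j < n ∧
      (((i = u ∧ j = v) ∧ (b 4 ∨ (b 0 ∧ b 1) ∨ ¬ (b 2 ∨ b 0))) ∨
      ((i = v ∧ j = u) ∧ (b 5 ∨ (b 0 ∧ b 1) ∨ ¬ (b 3 ∨ b 1))) ∨
      (¬ (i = u ∧ j = v) ∧ ¬ (i = v ∧ j = u) ∧ (J.E i j ∨ (j = v ∧ b 0) ∨ (j = u ∧ b 1))))⟩

/-- The first side of the split at `u, v`. -/
def sideA (n : ℕ) (I : Ins) (u v z : ℕ) : Prop := Rc n I u v z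

/-- The second side. -/
def sideB (n : ℕ) (I : Ins) (u v z : ℕ) : Prop := I.S z ∧ z ≠ u ∧ z ≠ v ∧ ¬ Rc n I u v z

section
open Classical

/-- The instances called at a two-vertex split. -/
noncomputable def ch2 (n : ℕ) (J : Ins) (A : ℕ → Prop) (u v c : ℕ) : Ins :=
  if c < 2 then
    bas n J (fun z => A z ∨ z = if c = 0 then u else v) (if c = 0 then u else v)
      (if c = 0 then v else u) True
  else if c < 4 then
    bas n J A (if c = 2 then u else v) (if c = 2 then u else v) False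
  else
    bas n J (fun z => A z ∨ z = if c = 4 then u else v) (if c = 4 then u else v)
      (if c = 4 then v else u) False

/-- The two-vertex split. -/
noncomputable def next2 (n : ℕ) (J : Ins) (A : ℕ → Prop) (u v c : ℕ) (b : ℕ → Prop) :
    Ins ⊕ Prop :=
  if c < 6 then .inl (ch2 n J A u v c)
  else if c = 6 then .inl (h1 n J A u v b)
  else .inr (b 6)

/-- Deletion of the first vertex `x`. -/
def del (n : ℕ) (J : Ins) (x : ℕ) : Ins :=
  bas n (rev J) (fun z => J.S z ∧ z ≠ x) x x False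

/-- The vertices `u` and `v` of the first split. -/
noncomputable def spU (n : ℕ) (I : Ins) : ℕ := fst n fun u => ∃ v < n, NT n I u v

noncomputable def spV (n : ℕ) (I : Ins) : ℕ := fst n fun v => NT n I (spU n I) v

/-- The first vertex of `X`. -/
noncomputable def fX (n : ℕ) (I : Ins) : ℕ := fst n fun i => I.S i ∧ I.X i

/-- The first vertex of `X` other than `x`. -/
noncomputable def oX (n : ℕ) (I : Ins) (x : ℕ) : ℕ := fst n fun i => (I.S i ∧ I.X i) ∧ i ≠ x

/-- The next call or the answer. -/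
noncomputable def next (n : ℕ) (I : Ins) (c : ℕ) (b : ℕ → Prop) : Ins ⊕ Prop :=
  if ∀ i < n, ¬ I.S i then .inr (∃ v < n, I.X v ∧ I.Y v)
  else if fst n (P1 n I) < n then
    if c = 0 then
      .inl (bas n I (sideA n I (fst n (P1 n I)) n) (fst n (P1 n I)) (fst n (P1 n I)) False)
    else if c = 1 then
      .inl (bas n (rev I) (sideB n I (fst n (P1 n I)) n) (fst n (P1 n I)) (fst n (P1 n I)) False)
    else .inr (b 0 ∧ b 1)
  else if spU n I < n then
    if (fs n (sideA n I (spU n I) (spV n I))).card ≤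
        (fs n (sideB n I (spU n I) (spV n I))).card then
      next2 n I (sideA n I (spU n I) (spV n I)) (spU n I) (spV n I) c b
    else next2 n (rev I) (sideB n I (spU n I) (spV n I)) (spU n I) (spV n I) c b
  else if cX n I = 2 ∧ (fs n I.S).card ≤ 6 then
    if c = 0 then .inl (del n I (fX n I))
    else if c = 1 then .inl (del n I (oX n I (fX n I)))
    else .inr (b 0 ∨ b 1)
  else if cX n I = 2 ∧ fst n (NR n I) < n then
    if c = 0 then .inl (del n I (oX n I (fst n (NR n I))))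
    else .inr (b 0)
  else if cX n (rev I) = 2 ∧ fst n (NR n (rev I)) < n then
    if c = 0 then .inl (del n (rev I) (oX n (rev I) (fst n (NR n (rev I)))))
    else .inr (b 0)
  else .inr (covI n I)

end

/-- The answer of an instance. -/
def HamI (n : ℕ) (I : Ins) : Prop :=
  if fs n I.S = ∅ then ∃ v < n, I.X v ∧ I.Y v else Ham I.E (fs n I.S) I.X I.Y

/-- Valid instances. -/
def Valid (n : ℕ) (I : Ins) : Prop := Semi I.E (fs n I.S)

/-- Bound for the number of steps. -/
def FF (m : ℕ) : ℕ := 4 * m ^ 4 + 1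

/-- The recursion works on the instance `I`. -/
def Protocol (n : ℕ) (I : Ins) : Prop :=
  ∃ (m : ℕ) (ch : ℕ → Ins), m ≤ 7 ∧
    (∀ t < m, ∀ b : ℕ → Prop, (∀ i < t, (b i ↔ HamI n (ch i))) → next n I t b = .inl (ch t)) ∧
    (∀ b : ℕ → Prop, (∀ i < m, (b i ↔ HamI n (ch i))) →
      ∃ r, next n I m b = .inr r ∧ (r ↔ HamI n I)) ∧
    (∀ t < m, Valid n (ch t) ∧ (fs n (ch t).S).card < (fs n I.S).card) ∧
    (∑ t ∈ range m, (FF (fs n (ch t).S).card + 1)) + 1 ≤ FF (fs n I.S).card

end Pool.Agent.Lib54.HP
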