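import Pool.Agent.Lib_helper53.HamBase.Three

/-!
# Hamiltonian paths with prescribed ends in semicomplete digraphs: the statements

All the statements are about a semicomplete digraph `E` on a finite set `S`, with a set `X` of
possible first vertices and a set `Y` of possible last vertices.
-/

namespace Pool.Agent.Lib54.HP

open List Pool.Agent.Lib53.HamBase

variable {V : Type*}

/-- `v` can be reached from `X` inside `S`. -/
inductive Rch (E : V → V → Prop) (S : Finset V) (X : V → Prop) : V → Prop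
  | base {v : V} : v ∈ S → X v → Rch E S X v
  | step {u v : V} : Rch E S X u → E u v → v ∈ S → Rch E S X v

/-- There is a path from `X` to `Y` inside `S`. -/
def Conn (E : V → V → Prop) (S : Finset V) (X Y : V → Prop) : Prop :=
  ∃ v, Rch E S X v ∧ Y v

/-- The reversed digraph. -/
def Rev (E : V → V → Prop) : V → V → Prop := fun u v => E v u

/-- Every vertex of `S` can be reached from `X` and reaches `Y`. -/
def Cov (E : V → V → Prop) (S : Finset V) (X Y : V → Prop) : Prop :=
  (∀ v ∈ S, Rch E S X v) ∧ ∀ v ∈ S, Rch (Rev E) S Y v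

/-- There is a path from `X` to `Y` avoiding any given vertex. -/
def M2 [DecidableEq V] (E : V → V → Prop) (S : Finset V) (X Y : V → Prop) : Prop :=
  ∀ w ∈ S, Conn E (S.erase w) X Y

/-- If the pair `u, v` meets every path from `X` to `Y`, then `X` is contained in the pair, or
every other vertex can be reached from `X` without the pair. -/
def NoSep2 [DecidableEq V] (E : V → V → Prop) (S : Finset V) (X Y : V → Prop) : Prop :=
  ∀ u ∈ S, ∀ v ∈ S, u ≠ v → ¬ Conn E ((S.erase u).erase v) X Y →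
    (∀ z ∈ (S.erase u).erase v, ¬ X z) ∨
    ∀ z ∈ (S.erase u).erase v, Rch E ((S.erase u).erase v) X z

/-- Whatever `x` in `X` is deleted, all the other vertices still reach `Y`. -/
def Red [DecidableEq V] (E : V → V → Prop) (S : Finset V) (X Y : V → Prop) : Prop :=
  ∀ x ∈ S, X x → ∀ z ∈ S.erase x, Rch (Rev E) (S.erase x) Y z

/-- **Base lemma** (module B). -/
def BaseLemma : Prop :=
  ∀ {V : Type} [DecidableEq V] (E : V → V → Prop) (S : Finset V) (X Y : Finset V),
    S.Nonempty → X ⊆ S → Y ⊆ S → Semi E S → Cov E S (· ∈ X) (· ∈ Y) →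
    M2 E S (· ∈ X) (· ∈ Y) →
    NoSep2 E S (· ∈ X) (· ∈ Y) →
    (X.card = 2 → Red E S (· ∈ X) (· ∈ Y)) →
    (Y.card = 2 → Red (Rev E) S (· ∈ Y) (· ∈ X)) →
    ¬ (X.card = 2 ∧ Y.card = 2 ∧ S.card ≤ 6) →
    Ham E S (· ∈ X) (· ∈ Y)

/-- **One vertex separates** (module D). -/
def Split1 : Prop :=
  ∀ {V : Type} [DecidableEq V] (E : V → V → Prop) (A B : Finset V) (w : V) (X Y : V → Prop),
    w ∉ A → w ∉ B → Disjoint A B → (∀ a ∈ A, ∀ b ∈ B, ¬ E a b) →
    (∀ b ∈ B, ¬ X b) → (∀ a ∈ A, ¬ Y a) →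
    (Ham E (insert w (A ∪ B)) X Y ↔
      (A = ∅ ∧ X w ∨ Ham E A X fun z => E z w) ∧
      (B = ∅ ∧ Y w ∨ Ham E B (fun z => E w z) Y))

section Split2

variable [DecidableEq V] (E : V → V → Prop) (A : Finset V) (X Y : V → Prop)

/-- `A` and `p, q` can be covered by a path from `X` to `p` and a path from `A` to `q`. -/
def Ff (p q : V) : Prop :=
  Ham (fun a b => E a b ∨ (a = p ∧ b ∈ A)) (insert p A) X fun z => z ∈ A ∧ E z q

/-- `A` and `p` can be covered by a path from `X` to `p`. -/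
def Rr (p : V) : Prop := Ham E A X fun z => E z p

/-- `A`, `p` and `q` can be covered by a path from `X` to `q`. -/
def Dd (p q : V) : Prop := Ham E (insert p A) X fun z => E z q

/-- The new set of first vertices. -/
def X1 (u v : V) : V → Prop := fun z =>
  (z = u ∧ (Rr E A X u ∨ Ff E A X u v)) ∨ (z = v ∧ (Rr E A X v ∨ Ff E A X v u))

/-- The new digraph on `B ∪ {u, v}`. -/
def E1 (u v : V) : V → V → Prop := fun a b =>
  if a = u ∧ b = v then
    Dd E A X u v ∨ (Ff E A X u v ∧ Ff E A X v u) ∨ ¬ (Rr E A X u ∨ Ff E A X u v)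
  else if a = v ∧ b = u then
    Dd E A X v u ∨ (Ff E A X u v ∧ Ff E A X v u) ∨ ¬ (Rr E A X v ∨ Ff E A X v u)
  else E a b ∨ (b = v ∧ Ff E A X u v) ∨ (b = u ∧ Ff E A X v u)

end Split2

/-- **Two vertices separate** (module D). -/
def Split2 : Prop :=
  ∀ {V : Type} [DecidableEq V] (E : V → V → Prop) (A B : Finset V) (u v : V) (X Y : V → Prop),
    u ≠ v → u ∉ A → u ∉ B → v ∉ A → v ∉ B → Disjoint A B → A.Nonempty → B.Nonempty →
    (∀ a ∈ A, ∀ b ∈ B, ¬ E a b) → (∀ b ∈ B, ¬ X b) → (∀ a ∈ A, ¬ Y a) →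
    Semi E (insert u (insert v (A ∪ B))) → M2 E (insert u (insert v (A ∪ B))) X Y →
    Semi (E1 E A X u v) (insert u (insert v B)) ∧
    (Ham E (insert u (insert v (A ∪ B))) X Y ↔
      Ham (E1 E A X u v) (insert u (insert v B)) (X1 E A X u v) Y)

end Pool.Agent.Lib54.HP
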