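import Pool.Agent.Lib_helper54.HamPath.Init
import Pool.Agent.Lib_helper54.LongPath.Final
import Pool.Agent.Lib_helper88.HamSplit.Base
import Pool.Agent.Lib_helper88.HamSplit.Split2

/-!
# Hamiltonian paths with prescribed ends in tournaments in polynomial time
-/

namespace Pool.Agent.Lib54.HP

open Finset Pool.Agent.Lib54.LP Pool.Agent.Lib53.HamBase

def preL : List Cmd := [.set 0 (.inp (.lit 0)), .set 1 (.add (.var 0) (.lit 1)),
  .set 2 (.lit 8), .set 3 (.add (.add (.var 0) (.var 0)) (.lit 2))]

def xI : Expr := .inp (.lit 1)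
def yI : Expr := .inp (.lit 2)

def i1E : Expr := andE (notE (eqE (.var 26) xI)) (notE (eqE (.var 26) yI))
def i2E : Expr := arcE xI (.var 26)
def i3E : Expr := orE (arcE (.var 26) yI) (eqE (.var 26) yI)
def i4E : Expr := arcE (.var 26) (.var 27)

def initL : List Cmd := [fill 26 0 1 i1E, fill 26 0 2 i2E, fill 26 0 3 i3E,
  fillP2 26 27 4 (.add (.sum 0 (.var 26)) (.var 27)) i4E]

def nestC : Cmd := .loop 32 3 (.loop 33 3 (.loop 34 3 (.loop 35 3 bodyC)))

def loopL : List Cmd := [nestC, .set 0 (boolE (.var 18))]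

/-- The program, as a list of top-level commands. -/
def theL : List Cmd := preL ++ (initL ++ loopL)

/-- The machine program. -/
def hamProg : Prog := compL theL 0

lemma okTop_theL : ∀ cmd ∈ theL, okTop cmd = true := by
  intro cmd h
  simp only [theL, preL, initL, loopL, List.mem_append, List.mem_cons, List.not_mem_nil,
    or_false] at h
  rcases h with (rfl | rfl | rfl | rfl) | (rfl | rfl | rfl | rfl) | rfl | rfl
  all_goals rfl

/-- The main loop. -/
lemma nest_VE (ι : ℕ → ℕ) {N : ℕ} {s : St} (h3 : s.v 3 = N) :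
    VE ((run ι bodyC)^[N * (N * (N * (N * 1)))] s) (run ι nestC s) := by
  have hf : ∀ s s', VE s s' → VE (run ι bodyC s) (run ι bodyC s') := fun s s' h =>
    run_VE ι bodyC h (by rfl)
  refine loop_VE ι (by omega) hf (fun s h3 => ?_) (by rfl) h3
  refine loop_VE ι (by omega) hf (fun s h3 => ?_) (by rfl) h3
  refine loop_VE ι (by omega) hf (fun s h3 => ?_) (by rfl) h3
  refine loop_VE ι (by omega) hf (fun s _ => ?_) (by rfl) h3
  exact VE.refl _

section
variable {n : ℕ} {T : Fin n → Fin n → Bool} {x y : Fin n}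

/-- The program computes the right answer. -/
theorem theL_spec (hT : IsTournament T) (hxy : x ≠ y) {W : ℕ} (hW : 2 * n + 10 ≤ W) :
    BddL (input T x y) W theL st0 ∧
    (HasHamPath T x y → (runL (input T x y) theL st0).v 0 = 1) ∧
    (¬ HasHamPath T x y → (runL (input T x y) theL st0).v 0 = 0) := by
  set ι := input T x y with hι
  have ι0 : ι 0 = n := rfl
  have ι1 : ι 1 = x := rfl
  have ι2 : ι 2 = y := rfl
  -- constants
  have b0 : ∀ x, x < R0 → st0.v x ≤ W := fun x _ => Nat.zero_le _
  have b1 := bdd_setV b0 0 (show n ≤ W by omega)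
  have b2 := bdd_setV b1 1 (show n + 1 ≤ W by omega)
  have b3 := bdd_setV b2 2 (show 8 ≤ W by omega)
  have b4 := bdd_setV b3 3 (show n + n + 2 ≤ W by omega)
  set s4 : St := (((st0.setV 0 n).setV 1 (n + 1)).setV 2 8).setV 3 (n + n + 2) with hs4
  have r1 : run ι (.set 0 (.inp (.lit 0))) st0 = st0.setV 0 n := rfl
  have r2 : run ι (.set 1 (.add (.var 0) (.lit 1))) (st0.setV 0 n) =
      (st0.setV 0 n).setV 1 (n + 1) := by
    simp only [run, eval_add, eval_var, eval_lit, St.setV_v, Function.update_self]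
  have r3 : run ι (.set 2 (.lit 8)) ((st0.setV 0 n).setV 1 (n + 1)) =
      ((st0.setV 0 n).setV 1 (n + 1)).setV 2 8 := rfl
  have r4 : run ι (.set 3 (.add (.add (.var 0) (.var 0)) (.lit 2)))
      (((st0.setV 0 n).setV 1 (n + 1)).setV 2 8) = s4 := by
    simp only [run, eval_add, eval_var, eval_lit, hs4]
    simp [Function.update_of_ne]
  have e1 : runL ι preL st0 = s4 := by
    simp only [runL, preL]
    rw [r1, r2, r3, r4]
  have B1 : BddL ι W preL st0 := by
    simp only [BddL, preL]
    rw [r1, r2, r3]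
    exact ⟨b0, b1, b2, b3, trivial⟩
  have v0 : s4.v 0 = n := by simp [hs4, Function.update_of_ne]
  have v1 : s4.v 1 = n + 1 := by simp [hs4, Function.update_of_ne]
  have v2 : s4.v 2 = 8 := by simp [hs4, Function.update_of_ne]
  have v3 : s4.v 3 = n + n + 2 := by simp [hs4]
  have vz : ∀ z, 4 ≤ z → s4.v z = 0 := by
    intro z hz
    simp only [hs4, St.setV_v]
    rw [Function.update_of_ne (by omega), Function.update_of_ne (by omega),
      Function.update_of_ne (by omega), Function.update_of_ne (by omega)]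
    rfl
  have az : ∀ b i, s4.a b i = 0 := fun b i => rfl
  -- the first instance
  obtain ⟨f1, f2, f3⟩ := run_fill ι (x := 26) (r := 0) (b := 1) (e := i1E) (by rfl) s4
  set s5 := run ι (fill 26 0 1 i1E) s4 with hs5
  obtain ⟨g1, g2, g3⟩ := run_fill ι (x := 26) (r := 0) (b := 2) (e := i2E) (by rfl) s5
  set s6 := run ι (fill 26 0 2 i2E) s5 with hs6
  obtain ⟨k1, k2, k3⟩ := run_fill ι (x := 26) (r := 0) (b := 3) (e := i3E) (by rfl) s6
  set s7 := run ι (fill 26 0 3 i3E) s6 with hs7
  have w5 : ∀ z, z ≠ 26 → s5.v z = s4.v z := f1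
  have w6 : ∀ z, z ≠ 26 → s6.v z = s4.v z := fun z hz => (g1 z hz).trans (w5 z hz)
  have w7 : ∀ z, z ≠ 26 → s7.v z = s4.v z := fun z hz => (k1 z hz).trans (w6 z hz)
  have n7 : s7.v 0 = n := by rw [w7 0 (by decide), v0]
  have hpos : ∀ i j, eval ι ((s7.setV 26 i).setV 27 j) (.add (.sum 0 (.var 26)) (.var 27)) [] =
      n * i + j := by
    intro i j
    rw [eval_add, (stab_var (l := 0) 26).eval_mul 0 ι _ [] (Nat.zero_le _)]
    simp only [eval_var, St.setV_v, Function.update_self,
      Function.update_of_ne (show (0 : ℕ) ≠ 26 by decide),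
      Function.update_of_ne (show (0 : ℕ) ≠ 27 by decide),
      Function.update_of_ne (show (26 : ℕ) ≠ 27 by decide), n7]
  obtain ⟨l1, l2, l3, -⟩ := run_fillP2 ι (x := 26) (y := 27) (b := 4) (n := n)
    (pe := .add (.sum 0 (.var 26)) (.var 27)) (e := i4E) (by decide) (by decide) (by decide)
    (by rfl) (by rfl) s7 n7 (by
      intro i hi j hj i' hi' j' hj' hij
      rw [hpos, hpos] at hij
      exact pair_inj hj hj' hij)
  set s8 := run ι (fillP2 26 27 4 (.add (.sum 0 (.var 26)) (.var 27)) i4E) s7 with hs8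
  have w8 : ∀ z, z ≠ 26 → z ≠ 27 → s8.v z = s4.v z := fun z h h' =>
    (l1 z h h').trans (w7 z h)
  have b5 := bdd_run (I := ι) b4 (c := fill 26 0 1 i1E) (by rfl)
  rw [← hs5] at b5
  have b6 := bdd_run (I := ι) b5 (c := fill 26 0 2 i2E) (by rfl)
  rw [← hs6] at b6
  have b7 := bdd_run (I := ι) b6 (c := fill 26 0 3 i3E) (by rfl)
  rw [← hs7] at b7
  have b8 := bdd_run (I := ι) b7
    (c := fillP2 26 27 4 (.add (.sum 0 (.var 26)) (.var 27)) i4E) (by rfl)
  rw [← hs8] at b8
  have e2 : runL ι initL s4 = s8 := rfl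
  have B2 : BddL ι W initL s4 := ⟨b4, b5, b6, b7, trivial⟩
  have m16 : s8.v 16 = 0 := by rw [w8 16 (by decide) (by decide), vz 16 (by omega)]
  have hins : insAt n s8 0 = ini T x y := by
    unfold insAt ini
    rw [Ins.mk.injEq]
    refine ⟨?_, ?_, ?_, ?_⟩
    · funext i
      refine propext (and_congr_right fun hi => ?_)
      rw [l2 1 (by decide), k2 1 (by decide), g2 1 (by decide), Nat.mul_zero, Nat.zero_add,
        f3 i, if_pos (by rw [v0]; exact hi), ← tr_def, i1E, tr_andE, tr_notE, tr_notE, tr_eqE,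
        tr_eqE, eval_var, St.setV_v, Function.update_self, xI, yI, eval_inp, eval_inp, eval_lit,
        eval_lit, ι1, ι2]
    · funext i
      refine propext (and_congr_right fun hi => ?_)
      have hn' : (s5.setV 26 i).v 0 = n := by
        rw [St.setV_v, Function.update_of_ne (show (0 : ℕ) ≠ 26 by decide), w5 0 (by decide), v0]
      have hst : Stab 0 xI := (stab_lit 1).inp
      have key := tr_arcE (I := ι) (s := s5.setV 26 i) (n := n) (l := 0) (env := [])
        (u := xI) (v := .var 26) hn' hst (Nat.zero_le _)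
      have ex : eval ι (s5.setV 26 i) xI [] = x := by rw [xI, eval_inp, eval_lit, ι1]
      have ei : eval ι (s5.setV 26 i) (.var 26) [] = i := by
        rw [eval_var, St.setV_v, Function.update_self]
      rw [ex, ei] at key
      rw [l2 2 (by decide), k2 2 (by decide), Nat.mul_zero, Nat.zero_add,
        g3 i, if_pos (by rw [w5 0 (by decide), v0]; exact hi), ← tr_def, i2E, key]
      exact arcI_iff x.2 hi
    · funext i
      refine propext (and_congr_right fun hi => ?_)
      have hn' : (s6.setV 26 i).v 0 = n := by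
        rw [St.setV_v, Function.update_of_ne (show (0 : ℕ) ≠ 26 by decide), w6 0 (by decide), v0]
      have key := tr_arcE (I := ι) (s := s6.setV 26 i) (n := n) (l := 0) (env := [])
        (u := .var 26) (v := yI) hn' (stab_var 26) (Nat.zero_le _)
      have ey : eval ι (s6.setV 26 i) yI [] = y := by rw [yI, eval_inp, eval_lit, ι2]
      have ei : eval ι (s6.setV 26 i) (.var 26) [] = i := by
        rw [eval_var, St.setV_v, Function.update_self]
      rw [ey, ei] at key
      rw [l2 3 (by decide), Nat.mul_zero, Nat.zero_add,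
        k3 i, if_pos (by rw [w6 0 (by decide), v0]; exact hi), ← tr_def, i3E, tr_orE, tr_eqE,
        key, ey, ei]
      exact or_congr (arcI_iff hi y.2) Iff.rfl
    · funext i j
      refine propext (and_congr_right fun hi => and_congr_right fun hj => ?_)
      have hn' : ((s7.setV 26 i).setV 27 j).v 0 = n := by
        rw [St.setV_v, Function.update_of_ne (show (0 : ℕ) ≠ 27 by decide), St.setV_v,
          Function.update_of_ne (show (0 : ℕ) ≠ 26 by decide), n7]
      have key := tr_arcE (I := ι) (s := (s7.setV 26 i).setV 27 j) (n := n) (l := 0) (env := [])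
        (u := .var 26) (v := .var 27) hn' (stab_var 26) (Nat.zero_le _)
      have ei : eval ι ((s7.setV 26 i).setV 27 j) (.var 26) [] = i := by
        rw [eval_var, St.setV_v, Function.update_of_ne (show (26 : ℕ) ≠ 27 by decide),
          St.setV_v, Function.update_self]
      have ej : eval ι ((s7.setV 26 i).setV 27 j) (.var 27) [] = j := by
        rw [eval_var, St.setV_v, Function.update_self]
      rw [ei, ej] at key
      have := l3 i hi j hj
      rw [hpos] at this
      rw [Nat.mul_zero, Nat.zero_add, this, ← tr_def, i4E, key]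
      exact arcI_iff hi hj
  -- the main loop
  set M := theMach ι n with hM
  have hcn : s8.a 6 0 = 0 := by
    rw [l2 6 (by decide), k2 6 (by decide), g2 6 (by decide), f2 6 (by decide)]
    rfl
  have hfin := M.final (fun I hI => protocol Pool.Agent.Lib88.HamSplit.baseLemma
    Pool.Agent.Lib88.HamSplit.split1 Pool.Agent.Lib88.HamSplit.split2 hI) s8
    (show s8.v 0 = n ∧ s8.v 1 = n + 1 ∧ s8.v 2 = 8 from
      ⟨by rw [w8 0 (by decide) (by decide), v0], by rw [w8 1 (by decide) (by decide), v1],
        by rw [w8 2 (by decide) (by decide), v2]⟩)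
    (show ¬ s8.v 17 ≠ 0 by
      rw [w8 17 (by decide) (by decide), vz 17 (by omega)]
      simp)
    m16 hcn (show Valid n (insAt n s8 0) by rw [hins]; exact valid_ini hT)
    (N := (n + n + 2) * ((n + n + 2) * ((n + n + 2) * ((n + n + 2) * 1)))) (by
      have hcard : (fs n (M.ins s8 0).S).card ≤ n := by
        calc _ ≤ (range n).card := card_le_card fun i hi => mem_range.2 (mem_fs.1 hi).1
          _ = n := card_range n
      refine (FF_mono hcard).trans ?_
      unfold FF
      ring_nf
      omega)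
  obtain ⟨-, -, hres⟩ := hfin
  have hVE := nest_VE ι (N := n + n + 2) (s := s8) (by
    rw [w8 3 (by decide) (by decide), v3])
  set s9 := run ι nestC s8 with hs9
  have h18 : s9.v 18 ≠ 0 ↔ HasHamPath T x y := by
    rw [hVE.hv 18 (by omega), ham_ini hT hxy, ← hins]
    exact hres
  have b9 := bdd_run (I := ι) b8 (c := nestC) (by rfl)
  rw [← hs9] at b9
  have e3 : runL ι loopL s8 = s9.setV 0 (eval ι s9 (boolE (.var 18)) []) := rfl
  have B3 : BddL ι W loopL s8 := ⟨b8, b9, trivial⟩
  have eAll : runL ι theL st0 = s9.setV 0 (eval ι s9 (boolE (.var 18)) []) := by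
    rw [theL, runL_append, runL_append, e1, e2, e3]
  refine ⟨?_, ?_, ?_⟩
  · apply BddL_append _ _ _ _ _ B1
    rw [e1]
    apply BddL_append _ _ _ _ _ B2
    rw [e2]
    exact B3
  · intro h
    rw [eAll, St.setV_v, Function.update_self, eval_boolE, eval_var, if_neg (h18.2 h)]
  · intro h
    have h0 : s9.v 18 = 0 := by
      by_contra hcon
      exact h (h18.1 hcon)
    rw [eAll, St.setV_v, Function.update_self, eval_boolE, eval_var, if_pos h0]

end

/-- **The hamiltonian `(x, y)`-path problem in tournaments is in P.** -/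
theorem ham_poly : ∃ (Q : Prog) (C c : ℕ), ∀ (n : ℕ) (T : Fin n → Fin n → Bool) (x y : Fin n),
    IsTournament T → x ≠ y → Decides Q (input T x y) (C * n ^ c) (HasHamPath T x y) := by
  obtain ⟨C1, D1, hC⟩ := timeL_poly theL
  set N := numP hamProg with hN
  set E := C1 * 13 ^ D1 with hE
  refine ⟨hamProg, E * (1 + 3 * (N + 2) + 2 * E), 2 * D1 + 1, fun n T x y hT hxy => ?_⟩
  have hn : 1 ≤ n := by have := x.2; omega
  set W := 2 * n + 10 with hW
  obtain ⟨hB, hres1, hres2⟩ := theL_spec (x := x) (y := y) hT hxy (le_refl W)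
  have hcode : CodeAt hamProg 0 (compL theL 0) := by
    intro i _
    rw [Nat.zero_add]
    rfl
  have hEnc : Enc st0 (fun _ => 0) := ⟨fun x _ => rfl, fun b _ i => rfl⟩
  obtain ⟨m', t, r, e1, l⟩ := list_spec hamProg (input T x y) W theL st0 0
    (fun _ => 0) okTop_theL hB hEnc hcode
  have hrun : runFor hamProg (input T x y) t = ⟨0 + (compL theL 0).length, m'⟩ := r
  have h0 : m' 0 = (runL (input T x y) theL st0).v 0 := by
    have := e1.1 0 (by decide)
    rwa [mul_zero] at this
  refine ⟨t, ?_, ?_, ?_, ?_⟩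
  · rw [hrun]
    simp [hamProg]
  · have hW1 : W + 1 ≤ 13 * n := by omega
    have ht : t ≤ E * n ^ D1 := by
      calc t ≤ timeL W theL := l
        _ ≤ C1 * (W + 1) ^ D1 := hC W
        _ ≤ C1 * (13 * n) ^ D1 := Nat.mul_le_mul_left _ (Nat.pow_le_pow_left hW1 D1)
        _ = E * n ^ D1 := by rw [mul_pow, hE]; ring
    have hcost := costFor_le (P := hamProg) (inp := input T x y) (M := N + n + 1)
      (by omega) (fun i => (input_le T x y i).trans (by omega)) t
    have hp1 : 1 ≤ n ^ D1 := Nat.one_le_pow _ _ hn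
    have hp2 : n ≤ n ^ (D1 + 1) := by
      calc n = n ^ 1 := (pow_one n).symm
        _ ≤ n ^ (D1 + 1) := Nat.pow_le_pow_right hn (by omega)
    have hp3 : n ^ D1 ≤ n ^ (D1 + 1) := Nat.pow_le_pow_right hn (by omega)
    calc costFor hamProg (input T x y) t ≤
        t * (1 + (N + n + 1) + 2 * (N + n + 1 + t)) := hcost
      _ ≤ (E * n ^ D1) * (1 + (N + n + 1) + 2 * (N + n + 1 + E * n ^ D1)) := by
          gcongr
      _ ≤ (E * n ^ D1) * ((1 + 3 * (N + 2) + 2 * E) * n ^ (D1 + 1)) := by
          gcongr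
          have : N ≤ N * n ^ (D1 + 1) := Nat.le_mul_of_pos_right _ (by omega)
          have : E * n ^ D1 ≤ E * n ^ (D1 + 1) := Nat.mul_le_mul_left _ hp3
          nlinarith
      _ = E * (1 + 3 * (N + 2) + 2 * E) * n ^ (2 * D1 + 1) := by ring
  · intro h
    rw [hrun]
    exact h0.trans (hres1 h)
  · intro h
    rw [hrun]
    exact h0.trans (hres2 h)

/-- **The longest `(x, y)`-path problem in tournaments is solvable in polynomial time.** -/
theorem longest_poly : ∃ (P : Prog) (C c : ℕ), ∀ (n : ℕ) (T : Fin n → Fin n → Bool)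
    (x y : Fin n), IsTournament T → FindsLongest T x y P (C * n ^ c) := by
  obtain ⟨Q, C, c, hQ⟩ := ham_poly
  exact main hQ

end Pool.Agent.Lib54.HP
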