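import Pool.Agent.Lib_helper54.HamPath.Mach5

/-!
# The first instance, and loops that do not use some variables
-/

namespace Pool.Agent.Lib54.HP

open Finset Pool.Agent.Lib54.LP Pool.Agent.Lib53.HamBase

/-! ### The loop counters of the main loop are not used in the body -/

/-- Equality except for the variables 32 to 35. -/
structure VE (s s' : St) : Prop where
  hv : ∀ y, y < 32 ∨ 36 ≤ y → s'.v y = s.v y
  ha : s'.a = s.a

lemma VE.refl (s : St) : VE s s := ⟨fun _ _ => rfl, rfl⟩

lemma VE.trans {s s' s'' : St} (h : VE s s') (h' : VE s' s'') : VE s s'' :=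
  ⟨fun y hy => (h'.hv y hy).trans (h.hv y hy), h'.ha.trans h.ha⟩

lemma VE.symm {s s' : St} (h : VE s s') : VE s' s := ⟨fun y hy => (h.hv y hy).symm, h.ha.symm⟩

def okN (x : ℕ) : Bool := decide (x < 32) || decide (36 ≤ x)

lemma okN_iff {x : ℕ} : okN x = true ↔ x < 32 ∨ 36 ≤ x := by simp [okN]

def noE : Expr → Bool
  | .lit _ => true
  | .var x => okN x
  | .bv _ => true
  | .arr _ e => noE e
  | .inp e => noE e
  | .add e f => noE e && noE f
  | .sub e f => noE e && noE f
  | .half e => noE e
  | .ite d e f => noE d && noE e && noE f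
  | .sum r e => okN r && noE e

def noC : Cmd → Bool
  | .skip => true
  | .set x e => okN x && noE e
  | .put _ i e => noE i && noE e
  | .seq c d => noC c && noC d
  | .ite e c d => noE e && noC c && noC d
  | .loop x r c => okN x && okN r && noC c

lemma eval_VE (ι : ℕ → ℕ) {s s' : St} (h : VE s s') (e : Expr) (he : noE e = true) :
    ∀ env, eval ι s' e env = eval ι s e env := by
  induction e with
  | lit c => intro env; rfl
  | var x => intro env; exact h.hv x (okN_iff.1 he)
  | bv j => intro env; rfl
  | arr b' e ih => intro env; rw [eval_arr, eval_arr, ih he, h.ha]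
  | inp e ih => intro env; rw [eval_inp, eval_inp, ih he]
  | add e f ih ih' =>
    intro env
    simp only [noE, Bool.and_eq_true] at he
    rw [eval_add, eval_add, ih he.1, ih' he.2]
  | sub e f ih ih' =>
    intro env
    simp only [noE, Bool.and_eq_true] at he
    rw [eval_sub, eval_sub, ih he.1, ih' he.2]
  | half e ih => intro env; rw [eval_half, eval_half, ih he]
  | ite c e f ihc ih ih' =>
    intro env
    simp only [noE, Bool.and_eq_true] at he
    rw [eval_ite, eval_ite, ihc he.1.1, ih he.1.2, ih' he.2]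
  | sum r e ih =>
    intro env
    simp only [noE, Bool.and_eq_true] at he
    rw [eval_sum, eval_sum, h.hv r (okN_iff.1 he.1)]
    exact Finset.sum_congr rfl fun i _ => ih he.2 _

lemma VE.setV {s s' : St} (h : VE s s') (x c : ℕ) : VE (s.setV x c) (s'.setV x c) := by
  refine ⟨fun y hy => ?_, h.ha⟩
  rw [St.setV_v, St.setV_v]
  by_cases hyx : y = x
  · subst hyx
    rw [Function.update_self, Function.update_self]
  · rw [Function.update_of_ne hyx, Function.update_of_ne hyx, h.hv y hy]

lemma run_VE (ι : ℕ → ℕ) (c : Cmd) : ∀ {s s' : St}, VE s s' → noC c = true →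
    VE (run ι c s) (run ι c s') := by
  induction c with
  | skip => intro s s' h _; exact h
  | set x e =>
    intro s s' h hc
    simp only [noC, Bool.and_eq_true] at hc
    simp only [run]
    rw [eval_VE ι h e hc.2]
    exact h.setV _ _
  | put b i e =>
    intro s s' h hc
    simp only [noC, Bool.and_eq_true] at hc
    simp only [run]
    rw [eval_VE ι h e hc.2, eval_VE ι h i hc.1]
    refine ⟨h.hv, ?_⟩
    rw [St.setA_a, St.setA_a, h.ha]
  | seq c d ih ih' =>
    intro s s' h hc
    simp only [noC, Bool.and_eq_true] at hc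
    exact ih' (ih h hc.1) hc.2
  | ite e c d ih ih' =>
    intro s s' h hc
    simp only [noC, Bool.and_eq_true] at hc
    simp only [run]
    rw [eval_VE ι h e hc.1.1]
    split_ifs
    · exact ih' h hc.2
    · exact ih h hc.1.2
  | loop x r c ih =>
    intro s s' h hc
    simp only [noC, Bool.and_eq_true] at hc
    simp only [run]
    rw [h.hv r (okN_iff.1 hc.1.2)]
    generalize s.v r = m
    induction m with
    | zero => exact h
    | succ m ihm =>
      simp only [iter]
      exact ih (ihm.setV _ _) hc.2

/-- A loop with a counter that is not used iterates the body. -/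
lemma loop_VE (ι : ℕ → ℕ) {n m x : ℕ} {f : St → St} {c : Cmd} (hx : 32 ≤ x ∧ x < 36)
    (hf : ∀ s s', VE s s' → VE (f s) (f s'))
    (hc : ∀ s, s.v 3 = n → VE (f^[m] s) (run ι c s)) (hc3 : okV 3 c = true)
    {s : St} (h3 : s.v 3 = n) : VE (f^[n * m] s) (run ι (.loop x 3 c) s) := by
  have hfm : ∀ k s s', VE s s' → VE (f^[k] s) (f^[k] s') := by
    intro k
    induction k with
    | zero => intro s s' h; exact h
    | succ k ih =>
      intro s s' h
      rw [Function.iterate_succ_apply, Function.iterate_succ_apply]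
      exact ih _ _ (hf _ _ h)
  have hset : ∀ (s : St) (i : ℕ), VE s (s.setV x i) := by
    intro s i
    refine ⟨fun y hy => ?_, rfl⟩
    rw [St.setV_v, Function.update_of_ne (by omega)]
  have key := iter_inv (fun i s' => run ι c (s'.setV x i)) s
    (fun t s' => VE (f^[t * m] s) s' ∧ s'.v 3 = n) ⟨by simpa using VE.refl s, h3⟩ n ?_
  · have hrun : run ι (.loop x 3 c) s = iter (fun i s' => run ι c (s'.setV x i)) n s := by
      simp only [run]
      rw [h3]
    rw [hrun]
    exact key.1
  · rintro t s' _ ⟨g1, g2⟩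
    have g3 : (s'.setV x t).v 3 = n := by
      rw [St.setV_v, Function.update_of_ne (by omega), g2]
    refine ⟨?_, ?_⟩
    · rw [show (t + 1) * m = m + t * m by ring, Function.iterate_add_apply]
      exact (hfm m _ _ (g1.trans (hset s' t))).trans (hc _ g3)
    · rw [run_v ι c hc3, g3]

/-! ### The first instance -/

section
variable {n : ℕ} {T : Fin n → Fin n → Bool} {x y : Fin n}

lemma hasHam_iff : HasHamPath T x y ↔
    Ham (arcT T) (range n) (fun z => z = (x : ℕ)) (fun z => z = (y : ℕ)) := by
  have hinj : Function.Injective (Fin.val : Fin n → ℕ) := Fin.val_injective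
  have hch : ∀ l : List (Fin n), (l.map Fin.val).IsChain (arcT T) ↔
      l.IsChain fun u v => T u v = true := by
    intro l
    rw [List.isChain_map]
    constructor
    · intro h
      exact h.imp fun u v huv => arcT_fin.1 huv
    · intro h
      exact h.imp fun u v huv => arcT_fin.2 huv
  constructor
  · rintro ⟨l, hl, hall⟩
    refine ⟨x, y, l.map Fin.val, ⟨(hch l).2 hl.arcs, hl.nodup.map hinj, ?_, ?_⟩, rfl, rfl, ?_⟩
    · rw [List.head?_map, hl.first]; rfl
    · rw [List.getLast?_map, hl.last]; rfl
    · intro v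
      rw [List.mem_map, mem_range]
      constructor
      · rintro ⟨u, -, rfl⟩; exact u.2
      · intro hv; exact ⟨⟨v, hv⟩, hall _, rfl⟩
  · rintro ⟨a, b, l', hp, ha, hb, hall⟩
    have hlt : ∀ v ∈ l', v < n := fun v hv => mem_range.1 ((hall v).1 hv)
    obtain ⟨l, rfl⟩ : ∃ l : List (Fin n), l.map Fin.val = l' := by
      lift l' to List (Fin n) using hlt
      exact ⟨l', rfl⟩
    subst ha hb
    refine ⟨l, ⟨List.Nodup.of_map _ hp.nodup, (hch l).1 hp.chain, ?_, ?_⟩, ?_⟩
    · have := hp.head
      rw [List.head?_map] at this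
      cases h : l.head? with
      | none => rw [h] at this; simp at this
      | some u =>
        rw [h] at this
        simp only [Option.map_some, Option.some.injEq] at this
        rw [hinj this]
    · have := hp.last
      rw [List.getLast?_map] at this
      cases h : l.getLast? with
      | none => rw [h] at this; simp at this
      | some u =>
        rw [h] at this
        simp only [Option.map_some, Option.some.injEq] at this
        rw [hinj this]
    · intro v
      have := (hall v).2 (mem_range.2 v.2)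
      rw [List.mem_map] at this
      obtain ⟨u, hu, huv⟩ := this
      rwa [← hinj huv]

/-- The first instance. -/
def ini (T : Fin n → Fin n → Bool) (x y : Fin n) : Ins :=
  ⟨fun i => i < n ∧ (i ≠ x ∧ i ≠ y), fun i => i < n ∧ arcT T x i,
    fun i => i < n ∧ (arcT T i y ∨ i = y), fun i j => i < n ∧ j < n ∧ arcT T i j⟩

lemma valid_ini (hT : IsTournament T) : Valid n (ini T x y) := by
  intro u hu v hv huv
  rw [mem_fs] at hu hv
  have hne : (⟨u, hu.1⟩ : Fin n) ≠ ⟨v, hv.1⟩ := fun h => huv (Fin.mk.inj_iff.1 h)
  have := hT.2 ⟨u, hu.1⟩ ⟨v, hv.1⟩ hne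
  cases h : T ⟨u, hu.1⟩ ⟨v, hv.1⟩ with
  | true => exact Or.inl ⟨hu.1, hv.1, hu.1, hv.1, h⟩
  | false =>
    rw [h] at this
    exact Or.inr ⟨hv.1, hu.1, hv.1, hu.1, this⟩

lemma ham_ini (hT : IsTournament T) (hxy : x ≠ y) : HasHamPath T x y ↔ HamI n (ini T x y) := by
  have hxy' : (x : ℕ) ≠ y := fun h => hxy (Fin.ext h)
  have hx : (x : ℕ) ∈ range n := mem_range.2 x.2
  have hy : (y : ℕ) ∈ (range n).erase x := mem_erase.2 ⟨hxy'.symm, mem_range.2 y.2⟩
  have hS : fs n (ini T x y).S = ((range n).erase x).erase y := by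
    ext i
    rw [mem_fs, mem_erase, mem_erase, mem_range]
    constructor
    · rintro ⟨h1, _, h2, h3⟩; exact ⟨h3, h2, h1⟩
    · rintro ⟨h3, h2, h1⟩; exact ⟨h1, h1, h2, h3⟩
  rw [hasHam_iff, ham_del hx ⟨_, hy⟩]
  have hxx : ¬ arcT T x x := fun h => by
    have := arcT_fin.1 h
    rw [hT.1] at this
    exact absurd this (by decide)
  by_cases hemp : ((range n).erase (x : ℕ)).erase y = ∅
  · have hy1 : (range n).erase (x : ℕ) = {(y : ℕ)} := by
      rw [← insert_erase hy, hemp]
      rfl
    rw [HamI, if_pos (by rw [hS]; exact hemp), hy1]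
    constructor
    · rintro ⟨a, b, l, hp, ha, -, hl⟩
      have : a = y := mem_singleton.1 ((hl a).1 hp.mem_head)
      subst this
      exact ⟨y, y.2, ⟨y.2, ha⟩, y.2, Or.inr rfl⟩
    · rintro ⟨v, hv, ⟨_, h1⟩, _, _⟩
      have hvx : v ≠ x := by
        rintro rfl
        exact hxx h1
      have hvy : v = y := by
        have : v ∈ (range n).erase (x : ℕ) := mem_erase.2 ⟨hvx, mem_range.2 hv⟩
        rw [hy1] at this
        exact mem_singleton.1 this
      subst hvy
      exact ⟨_, _, [_], Pth.single _ _, h1, rfl, fun v => by simp⟩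
  · have hne : (((range n).erase (x : ℕ)).erase y).Nonempty := nonempty_iff_ne_empty.2 hemp
    rw [hamI_ne (by rw [hS]; exact hne), hS,
      ← ham_rev (E := arcT T) (S := (range n).erase (x : ℕ)) (X := fun z => arcT T x z)
        (Y := fun z => z = (y : ℕ)), ham_del hy hne,
      ham_rev (E := arcT T) (S := ((range n).erase (x : ℕ)).erase y)
        (X := fun z => arcT T x z) (Y := fun z => Rev (arcT T) y z)]
    refine ham_congr ?_ ?_ ?_
    · intro u hu v hv _
      simp only [mem_erase, mem_range] at hu hv
      exact ⟨fun h => ⟨hu.2.2, hv.2.2, h⟩, fun h => h.2.2⟩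
    · intro u hu
      simp only [mem_erase, mem_range] at hu
      exact ⟨fun h => ⟨hu.2.2, h⟩, fun h => h.2⟩
    · intro u hu
      simp only [mem_erase, mem_range] at hu
      exact ⟨fun h => ⟨hu.2.2, Or.inl h⟩, fun h => h.2.resolve_right hu.1⟩

end

end Pool.Agent.Lib54.HP
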