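import Pool.Agent.Lib_helper54.HamPath.Proto3
import Pool.Agent.Lib_helper54.LongPath.Exprs

/-!
# The machine: the stack of instances and the tables of reachability

Read-only variables: 0 `n`, 1 `n + 1`, 2 the number eight, 3 `2 * n + 2`.
Variables: 16 the top of the stack, 17 done, 18 the result, 19 orientation, 20 `p`, 21 `q`,
22 flag, 23 `u`, 24 `v`, 25 temporary, from 26 on loop counters.
Arrays: 1 vertices, 2 first vertices, 3 last vertices, 4 arcs, 5 answers, 6 number of answers,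
7 and 8 tables of reachability, 9 side, 10 set of a call, 11 to 14 the new instance.
-/

namespace Pool.Agent.Lib54.HP

open Finset Pool.Agent.Lib54.LP

/-- The instance at place `k` of the stack. -/
def insAt (n : ℕ) (s : St) (k : ℕ) : Ins :=
  ⟨fun i => i < n ∧ s.a 1 (n * k + i) ≠ 0, fun i => i < n ∧ s.a 2 (n * k + i) ≠ 0,
    fun i => i < n ∧ s.a 3 (n * k + i) ≠ 0,
    fun i j => i < n ∧ j < n ∧ s.a 4 (n * (n * k + i) + j) ≠ 0⟩

lemma insAt_congr {n : ℕ} {s s' : St} (h1 : s'.a 1 = s.a 1) (h2 : s'.a 2 = s.a 2)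
    (h3 : s'.a 3 = s.a 3) (h4 : s'.a 4 = s.a 4) (k : ℕ) : insAt n s' k = insAt n s k := by
  simp only [insAt, h1, h2, h3, h4]

def frE (b : ℕ) (i : Expr) : Expr := .arr b (.add (.sum 0 (.var 16)) i)
def sE (i : Expr) : Expr := frE 1 i
def xE (i : Expr) : Expr := frE 2 i
def yE (i : Expr) : Expr := frE 3 i
def eE (i j : Expr) : Expr := .arr 4 (.add (.sum 0 (.add (.sum 0 (.var 16)) i)) j)
def eRE (i j : Expr) : Expr := eE j i
def bE (t : ℕ) : Expr := .arr 5 (.add (.sum 2 (.var 16)) (.lit t))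
def cE : Expr := .arr 6 (.var 16)
def RE (b : ℕ) (a c v : Expr) : Expr := .arr b (.add (.sum 0 (.add (.sum 1 a) c)) v)

/-- The constants and the instance at the top of the stack. -/
structure Fix (n : ℕ) (I0 : Ins) (s : St) : Prop where
  v0 : s.v 0 = n
  v1 : s.v 1 = n + 1
  v2 : s.v 2 = 8
  hI : insAt n s (s.v 16) = I0

section Eval
variable {ι : ℕ → ℕ} {s : St} {n l : ℕ} {env : List ℕ} {i j a c v : Expr} {I0 : Ins}

lemma eval_frE (hn : s.v 0 = n) (b : ℕ) :
    eval ι s (frE b i) env = s.a b (n * s.v 16 + eval ι s i env) := by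
  rw [frE, eval_arr, eval_add, (stab_var (l := 0) 16).eval_mul 0 ι s env (Nat.zero_le _), hn,
    eval_var]

lemma eval_eE (hn : s.v 0 = n) (hi : Stab l i) (hl : l ≤ env.length) :
    eval ι s (eE i j) env = s.a 4 (n * (n * s.v 16 + eval ι s i env) + eval ι s j env) := by
  rw [eE, eval_arr, eval_add, (((stab_var 16).sum 0).add hi).eval_mul 0 ι s env hl, hn, eval_add,
    (stab_var (l := 0) 16).eval_mul 0 ι s env (Nat.zero_le _), hn, eval_var]

lemma eval_RE (hn : s.v 0 = n) (h1 : s.v 1 = n + 1) (ha : Stab l a) (hc : Stab l c)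
    (hl : l ≤ env.length) (b : ℕ) : eval ι s (RE b a c v) env =
    s.a b (n * ((n + 1) * eval ι s a env + eval ι s c env) + eval ι s v env) := by
  rw [RE, eval_arr, eval_add, ((ha.sum 1).add hc).eval_mul 0 ι s env hl, hn, eval_add,
    ha.eval_mul 1 ι s env hl, h1]

lemma tr_sE (h : Fix n I0 s) (hi : eval ι s i env < n) :
    tr ι s (sE i) env ↔ I0.S (eval ι s i env) := by
  rw [tr_def, sE, eval_frE h.v0, ← h.hI]
  exact ⟨fun h => ⟨hi, h⟩, fun h => h.2⟩

lemma tr_xE (h : Fix n I0 s) (hi : eval ι s i env < n) :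
    tr ι s (xE i) env ↔ I0.X (eval ι s i env) := by
  rw [tr_def, xE, eval_frE h.v0, ← h.hI]
  exact ⟨fun h => ⟨hi, h⟩, fun h => h.2⟩

lemma tr_yE (h : Fix n I0 s) (hi : eval ι s i env < n) :
    tr ι s (yE i) env ↔ I0.Y (eval ι s i env) := by
  rw [tr_def, yE, eval_frE h.v0, ← h.hI]
  exact ⟨fun h => ⟨hi, h⟩, fun h => h.2⟩

lemma tr_eE (h : Fix n I0 s) (hs : Stab l i) (hl : l ≤ env.length) (hi : eval ι s i env < n)
    (hj : eval ι s j env < n) :
    tr ι s (eE i j) env ↔ I0.E (eval ι s i env) (eval ι s j env) := by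
  rw [tr_def, eval_eE h.v0 hs hl, ← h.hI]
  exact ⟨fun h => ⟨hi, hj, h⟩, fun h => h.2.2⟩

lemma tr_eRE (h : Fix n I0 s) (hs : Stab l j) (hl : l ≤ env.length) (hi : eval ι s i env < n)
    (hj : eval ι s j env < n) :
    tr ι s (eRE i j) env ↔ (rev I0).E (eval ι s i env) (eval ι s j env) :=
  tr_eE h hs hl hj hi

end Eval

/-! ### Reachability in a bounded number of steps -/

def Rt (n : ℕ) (I : Ins) (a b : ℕ) : ℕ → ℕ → Prop
  | 0, v => v < n ∧ I.S v ∧ v ≠ a ∧ v ≠ b ∧ I.X v
  | t + 1, v => Rt n I a b t v ∨ (v < n ∧ I.S v ∧ v ≠ a ∧ v ≠ b ∧ ∃ u, Rt n I a b t u ∧ I.E u v)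

lemma rt_lt {n : ℕ} {I : Ins} {a b : ℕ} : ∀ {t v : ℕ}, Rt n I a b t v → v < n := by
  intro t
  induction t with
  | zero => intro v h; exact h.1
  | succ t ih =>
    intro v h
    rcases h with h | h
    · exact ih h
    · exact h.1

lemma rt_sound {n : ℕ} {I : Ins} {a b : ℕ} : ∀ {t v : ℕ}, Rt n I a b t v → Rc n I a b v := by
  intro t
  induction t with
  | zero =>
    intro v h
    exact Rch.base (mem_fs.2 ⟨h.1, h.2.1, h.2.2.1, h.2.2.2.1⟩) h.2.2.2.2
  | succ t ih =>
    intro v h
    rcases h with h | ⟨h1, h2, h3, h4, u, h5, h6⟩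
    · exact ih h
    · exact Rch.step (ih h5) h6 (mem_fs.2 ⟨h1, h2, h3, h4⟩)

lemma rt_mono {n : ℕ} {I : Ins} {a b : ℕ} {t t' v : ℕ} (h : t ≤ t') (hr : Rt n I a b t v) :
    Rt n I a b t' v := by
  induction h with
  | refl => exact hr
  | step _ ih => exact Or.inl ih

lemma rt_iff {n : ℕ} {I : Ins} {a b v : ℕ} : Rc n I a b v ↔ Rt n I a b (n + 1) v := by
  refine ⟨fun h => ?_, rt_sound⟩
  -- some stage is stable
  have hst : ∃ t ≤ n, ∀ v, Rt n I a b (t + 1) v → Rt n I a b t v := by
    by_contra hcon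
    push Not at hcon
    have key : ∀ t ≤ n + 1, t ≤ (fs n (Rt n I a b t)).card := by
      intro t
      induction t with
      | zero => intro _; exact Nat.zero_le _
      | succ t ih =>
        intro ht
        have h1 := ih (by omega)
        obtain ⟨v, hv, hv'⟩ := hcon t (by omega)
        have h2 : fs n (Rt n I a b t) ⊂ fs n (Rt n I a b (t + 1)) := by
          rw [Finset.ssubset_iff_of_subset]
          · exact ⟨v, mem_fs.2 ⟨rt_lt hv, hv⟩, fun h => hv' (mem_fs.1 h).2⟩
          · intro i hi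
            rw [mem_fs] at hi ⊢
            exact ⟨hi.1, Or.inl hi.2⟩
        have := card_lt_card h2
        omega
    have h1 := key (n + 1) le_rfl
    have h2 : (fs n (Rt n I a b (n + 1))).card ≤ n := by
      calc _ ≤ (range n).card := card_le_card fun i hi => mem_range.2 (mem_fs.1 hi).1
        _ = n := card_range n
    omega
  obtain ⟨t, ht, hst⟩ := hst
  have key : Rt n I a b t v := by
    induction h with
    | base h h' =>
      rw [mem_fs] at h
      exact rt_mono (Nat.zero_le t) ⟨h.1, h.2.1, h.2.2.1, h.2.2.2, h'⟩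
    | step h1 h2 h3 ih =>
      rw [mem_fs] at h3
      exact hst _ (Or.inr ⟨h3.1, h3.2.1, h3.2.2.1, h3.2.2.2, _, ih, h2⟩)
  exact rt_mono (by omega) key

/-! ### The tables -/

def posE : Expr := .add (.sum 0 (.add (.sum 1 (.var 36)) (.var 37))) (.var 38)

def baseE (xe : Expr → Expr) : Expr :=
  andE (sE (.var 38)) (andE (notE (eqE (.var 38) (.var 36)))
    (andE (notE (eqE (.var 38) (.var 37))) (xe (.var 38))))

def stepE (b : ℕ) (xe : Expr → Expr) (ee : Expr → Expr → Expr) : Expr :=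
  andE (sE (.var 38)) (andE (notE (eqE (.var 38) (.var 36)))
    (andE (notE (eqE (.var 38) (.var 37)))
      (orE (xe (.var 38)) (orE (RE b (.var 36) (.var 37) (.var 38))
        (.sum 0 (boolE (andE (RE b (.var 36) (.var 37) (.bv 0)) (ee (.bv 0) (.var 38)))))))))

def passC (b : ℕ) (e : Expr) : Cmd := .loop 36 1 (.loop 37 1 (.loop 38 0 (.put b posE e)))

def tabC (b : ℕ) (xe : Expr → Expr) (ee : Expr → Expr → Expr) : Cmd :=
  .seq (passC b (baseE xe)) (.loop 39 1 (passC b (stepE b xe ee)))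

/-- Position in the tables. -/
def pos (n a c v : ℕ) : ℕ := n * ((n + 1) * a + c) + v

lemma pos_inj {n a c v a' c' v' : ℕ} (hc : c ≤ n) (hv : v < n) (hc' : c' ≤ n) (hv' : v' < n)
    (h : pos n a c v = pos n a' c' v') : a = a' ∧ c = c' ∧ v = v' := by
  obtain ⟨h1, h2⟩ := pair_inj hv hv' h
  obtain ⟨h3, h4⟩ := pair_inj (M := n + 1) (by omega) (by omega) h1
  exact ⟨h3, h4, h2⟩

lemma Does.weaken {ι : ℕ → ℕ} {P P' Q Q' : St → Prop} {G : ℕ → St → Prop} {K K' : ℕ → Prop}
    {c : Cmd} (h : Does ι P Q G K c) (hP : ∀ s, P' s → P s) (hQ : ∀ s, Q s → Q' s)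
    (hK : ∀ k, K' k → K k) : Does ι P' Q' G K' c := fun s hs =>
  ⟨hQ _ (h s (hP s hs)).1, (h s (hP s hs)).2.1, fun k hk => (h s (hP s hs)).2.2 k (hK k hk)⟩

/-- One pass over the table. -/
lemma pass_spec {ι : ℕ → ℕ} {n b : ℕ} {e : Expr} {P : St → Prop} {G : ℕ → St → Prop}
    (h0 : ∀ s, P s → s.v 0 = n) (h1 : ∀ s, P s → s.v 1 = n + 1)
    (hset : ∀ s x i, x = 36 ∨ x = 37 ∨ x = 38 → P s → P (s.setV x i))
    (hG : ∀ k s x i, x = 36 ∨ x = 37 ∨ x = 38 → G k s → G k (s.setV x i))
    (hput : ∀ s a c v, P s → s.v 36 = a → s.v 37 = c → s.v 38 = v → a ≤ n → c ≤ n → v < n →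
      P (s.setA b (pos n a c v) (eval ι s e [])) ∧
      (∀ k, G k s → G k (s.setA b (pos n a c v) (eval ι s e []))) ∧
      G (pos n a c v) (s.setA b (pos n a c v) (eval ι s e []))) (s : St) (hs : P s) :
    P (run ι (passC b e) s) ∧ (∀ k, G k s → G k (run ι (passC b e) s)) ∧
      ∀ a c v, a ≤ n → c ≤ n → v < n → G (pos n a c v) (run ι (passC b e) s) := by
  have key : Does ι P P G (fun k => ∃ a < n + 1, ∃ c < n + 1, ∃ v < n, k = pos n a c v)
      (passC b e) := by
    refine Does.loop (K := fun a k => ∃ c < n + 1, ∃ v < n, k = pos n a c v) (n + 1) h1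
      (fun s i h => hset s 36 i (Or.inl rfl) h) (fun k s i h => hG k s 36 i (Or.inl rfl) h)
      fun a ha => ?_
    have d1 : Does ι (fun s => P s ∧ s.v 36 = a) (fun s => P s ∧ s.v 36 = a) G
        (fun k => ∃ c < n + 1, ∃ v < n, k = pos n a c v)
        (.loop 37 1 (.loop 38 0 (.put b posE e))) := by
      refine Does.loop (K := fun c k => ∃ v < n, k = pos n a c v) (n + 1) (fun s h => h1 s h.1)
        (fun s i h => ⟨hset s 37 i (by simp) h.1, ?_⟩) (fun k s i h => hG k s 37 i (by simp) h)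
        fun c hc => ?_
      · rw [St.setV_v, Function.update_of_ne (by decide)]
        exact h.2
      have d2 : Does ι (fun s => (P s ∧ s.v 36 = a) ∧ s.v 37 = c)
          (fun s => (P s ∧ s.v 36 = a) ∧ s.v 37 = c) G (fun k => ∃ v < n, k = pos n a c v)
          (.loop 38 0 (.put b posE e)) := by
        refine Does.loop (K := fun v k => k = pos n a c v) n (fun s h => h0 s h.1.1)
          (fun s i h => ⟨⟨hset s 38 i (by simp) h.1.1, ?_⟩, ?_⟩)
          (fun k s i h => hG k s 38 i (by simp) h) fun v hv => ?_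
        · rw [St.setV_v, Function.update_of_ne (by decide)]
          exact h.1.2
        · rw [St.setV_v, Function.update_of_ne (by decide)]
          exact h.2
        rintro s ⟨⟨⟨hP, h36⟩, h37⟩, h38, -⟩
        have hpos : eval ι s posE [] = pos n a c v := by
          rw [posE, eval_add, (((stab_var 36).sum 1).add (stab_var 37)).eval_mul (l := 0) 0 ι s []
            (Nat.zero_le _), eval_add, (stab_var (l := 0) 36).eval_mul 1 ι s [] (Nat.zero_le _),
            eval_var, eval_var, eval_var, h0 s hP, h1 s hP, h36, h37, h38]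
          rfl
        obtain ⟨g1, g2, g3⟩ := hput s a c v hP h36 h37 h38 (by omega) (by omega) hv
        have hrun : run ι (.put b posE e) s = s.setA b (pos n a c v) (eval ι s e []) := by
          simp only [run, hpos]
        rw [hrun]
        exact ⟨⟨⟨g1, h36⟩, h37⟩, g2, fun k hk => hk ▸ g3⟩
      exact Does.weaken d2 (fun s h => ⟨h.1, h.2.1⟩) (fun s h => h.1) fun k h => h
    exact Does.weaken d1 (fun s h => ⟨h.1, h.2.1⟩) (fun s h => h.1) fun k h => h
  obtain ⟨g1, g2, g3⟩ := key s hs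
  exact ⟨g1, g2, fun a c v ha hc hv => g3 _ ⟨a, by omega, c, by omega, v, hv, rfl⟩⟩

lemma Fix.setV {n : ℕ} {I0 : Ins} {s : St} (h : Fix n I0 s) {x : ℕ} (hx : 16 < x) (i : ℕ) :
    Fix n I0 (s.setV x i) := by
  refine ⟨?_, ?_, ?_, ?_⟩
  · rw [St.setV_v, Function.update_of_ne (by omega)]; exact h.v0
  · rw [St.setV_v, Function.update_of_ne (by omega)]; exact h.v1
  · rw [St.setV_v, Function.update_of_ne (by omega)]; exact h.v2
  · rw [St.setV_v, Function.update_of_ne (by omega)]; exact h.hI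

lemma Fix.setA {n : ℕ} {I0 : Ins} {s : St} (h : Fix n I0 s) {b : ℕ} (hb : 4 < b) (i c : ℕ) :
    Fix n I0 (s.setA b i c) := by
  refine ⟨h.v0, h.v1, h.v2, ?_⟩
  rw [St.setA_v, ← h.hI]
  refine insAt_congr ?_ ?_ ?_ ?_ _ <;>
    rw [St.setA_a, Function.update_of_ne (by omega)]

/-- The table of reachability. -/
theorem tabC_spec {ι : ℕ → ℕ} {n b : ℕ} {I0 J : Ins} {xe : Expr → Expr}
    {ee : Expr → Expr → Expr} (hb : 4 < b)
    (hS : J.S = I0.S)
    (hX : ∀ s, Fix n I0 s → s.v 38 < n → (tr ι s (xe (.var 38)) [] ↔ J.X (s.v 38)))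
    (hE : ∀ s u, Fix n I0 s → u < n → s.v 38 < n →
      (tr ι s (ee (.bv 0) (.var 38)) [u] ↔ J.E u (s.v 38)))
    {s : St} (hs : Fix n I0 s) : ∀ a c v, a ≤ n → c ≤ n → v < n →
      ((run ι (tabC b xe ee) s).a b (pos n a c v) ≠ 0 ↔ Rc n J a c v) := by
  -- first pass
  have hsE : ∀ s, Fix n I0 s → s.v 38 < n → (tr ι s (sE (.var 38)) [] ↔ J.S (s.v 38)) := by
    intro s h h38
    rw [tr_sE (i := .var 38) h h38, hS]
    rfl
  obtain ⟨p1, -, p2⟩ := pass_spec (ι := ι) (b := b) (e := baseE xe) (P := Fix n I0)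
    (G := fun k s => ∀ a c v, a ≤ n → c ≤ n → v < n → k = pos n a c v →
      (s.a b k ≠ 0 ↔ Rt n J a c 0 v)) (fun s h => h.v0) (fun s h => h.v1)
    (fun s x i hx h => h.setV (by omega) i) (fun k s x i _ h => h)
    (by
      intro s a c v hP h36 h37 h38 ha hc hv
      have hval : eval ι s (baseE xe) [] ≠ 0 ↔ Rt n J a c 0 v := by
        rw [← tr_def, baseE, tr_andE, tr_andE, tr_andE, tr_notE, tr_notE, tr_eqE, tr_eqE,
          hsE s hP (by omega), hX s hP (by omega), eval_var, eval_var, eval_var, h36, h37, h38]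
        exact ⟨fun h => ⟨hv, h⟩, fun h => h.2⟩
      refine ⟨hP.setA hb _ _, ?_, ?_⟩
      · intro k hk a' c' v' ha' hc' hv' hkk
        simp only [St.setA_a, Function.update_self]
        by_cases hkp : k = pos n a c v
        · rw [hkp, Function.update_self]
          obtain ⟨rfl, rfl, rfl⟩ := pos_inj hc hv hc' hv' (hkp.symm.trans hkk)
          exact hval
        · rw [Function.update_of_ne hkp]
          exact hk a' c' v' ha' hc' hv' hkk
      · intro a' c' v' ha' hc' hv' hkk
        simp only [St.setA_a, Function.update_self]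
        obtain ⟨rfl, rfl, rfl⟩ := pos_inj hc hv hc' hv' hkk
        exact hval) s hs
  -- the other passes
  set s1 := run ι (passC b (baseE xe)) s with hs1
  set Q : ℕ → St → Prop := fun t s => Fix n I0 s ∧
    (∀ a c v, a ≤ n → c ≤ n → v < n → s.a b (pos n a c v) ≠ 0 → Rc n J a c v) ∧
    ∀ a c v, a ≤ n → c ≤ n → v < n → Rt n J a c t v → s.a b (pos n a c v) ≠ 0 with hQ
  have hstep : ∀ t s, Q t s → Q (t + 1) (run ι (passC b (stepE b xe ee)) s) := by
    intro t s hs
    obtain ⟨q1, -, q3⟩ := pass_spec (ι := ι) (b := b) (e := stepE b xe ee) (P := Q t)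
      (G := fun k s => ∀ a c v, a ≤ n → c ≤ n → v < n → k = pos n a c v →
        Rt n J a c (t + 1) v → s.a b k ≠ 0) (fun s h => h.1.v0) (fun s h => h.1.v1)
      (fun s x i hx h => ⟨h.1.setV (by omega) i, h.2⟩) (fun k s x i _ h => h)
      (by
        intro s a c v hP h36 h37 h38 ha hc hv
        have hR : ∀ u, eval ι s (RE b (.var 36) (.var 37) (.bv 0)) [u] =
            s.a b (pos n a c u) := by
          intro u
          rw [eval_RE (l := 0) hP.1.v0 hP.1.v1 (stab_var 36) (stab_var 37) (Nat.zero_le _),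
            eval_var, eval_var, h36, h37]
          rfl
        have hRv : eval ι s (RE b (.var 36) (.var 37) (.var 38)) [] = s.a b (pos n a c v) := by
          rw [eval_RE (l := 0) hP.1.v0 hP.1.v1 (stab_var 36) (stab_var 37) (Nat.zero_le _),
            eval_var, eval_var, eval_var, h36, h37, h38]
          rfl
        have hval : eval ι s (stepE b xe ee) [] ≠ 0 ↔ J.S v ∧ v ≠ a ∧ v ≠ c ∧
            (J.X v ∨ s.a b (pos n a c v) ≠ 0 ∨
              ∃ u < n, s.a b (pos n a c u) ≠ 0 ∧ J.E u v) := by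
          rw [← tr_def, stepE, tr_andE, tr_andE, tr_andE, tr_notE, tr_notE, tr_eqE, tr_eqE,
            hsE s hP.1 (by omega), tr_orE, hX s hP.1 (by omega), tr_orE, tr_sum,
            eval_var, eval_var, eval_var, h36, h37, h38, hP.1.v0, tr_def, hRv]
          refine and_congr Iff.rfl (and_congr Iff.rfl (and_congr Iff.rfl
            (or_congr Iff.rfl (or_congr Iff.rfl (exists_congr fun u => ?_)))))
          refine and_congr_right fun hu => ?_
          show tr ι s _ ([] ++ [u]) ↔ _
          rw [List.nil_append, tr_boolE, tr_andE, tr_def, hR u, hE s u hP.1 hu (by omega), h38]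
        refine ⟨⟨hP.1.setA hb _ _, ?_, ?_⟩, ?_, ?_⟩
        · intro a' c' v' ha' hc' hv' hne
          simp only [St.setA_a, Function.update_self] at hne
          by_cases hkp : pos n a' c' v' = pos n a c v
          · obtain ⟨rfl, rfl, rfl⟩ := pos_inj hc' hv' hc hv hkp
            rw [Function.update_self, hval] at hne
            obtain ⟨g1, g2, g3, g4⟩ := hne
            have hm : v' ∈ fs n fun i => J.S i ∧ i ≠ a' ∧ i ≠ c' :=
              mem_fs.2 ⟨hv', g1, g2, g3⟩
            rcases g4 with g4 | g4 | ⟨u, hu, g4, g5⟩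
            · exact Rch.base hm g4
            · exact hP.2.1 a' c' v' ha' hc' hv' g4
            · exact Rch.step (hP.2.1 a' c' u ha' hc' hu g4) g5 hm
          · rw [Function.update_of_ne hkp] at hne
            exact hP.2.1 a' c' v' ha' hc' hv' hne
        · intro a' c' v' ha' hc' hv' hr
          have hold := hP.2.2 a' c' v' ha' hc' hv' hr
          simp only [St.setA_a, Function.update_self]
          by_cases hkp : pos n a' c' v' = pos n a c v
          · obtain ⟨rfl, rfl, rfl⟩ := pos_inj hc' hv' hc hv hkp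
            rw [Function.update_self, hval]
            have := rc_mem (rt_sound hr)
            exact ⟨this.2.1, this.2.2.1, this.2.2.2, Or.inr (Or.inl hold)⟩
          · rw [Function.update_of_ne hkp]
            exact hold
        · intro k hk a' c' v' ha' hc' hv' hkk hr
          simp only [St.setA_a, Function.update_self]
          by_cases hkp : k = pos n a c v
          · rw [hkp, Function.update_self]
            obtain ⟨rfl, rfl, rfl⟩ := pos_inj hc hv hc' hv' (hkp.symm.trans hkk)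
            have hold := hk a c v ha' hc' hv' hkk hr
            rw [hval]
            have := rc_mem (rt_sound hr)
            refine ⟨this.2.1, this.2.2.1, this.2.2.2, Or.inr (Or.inl ?_)⟩
            rw [← hkp]
            exact hold
          · rw [Function.update_of_ne hkp]
            exact hk a' c' v' ha' hc' hv' hkk hr
        · intro a' c' v' ha' hc' hv' hkk hr
          simp only [St.setA_a, Function.update_self]
          obtain ⟨rfl, rfl, rfl⟩ := pos_inj hc hv hc' hv' hkk
          rw [hval]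
          have hm := rc_mem (rt_sound hr)
          refine ⟨hm.2.1, hm.2.2.1, hm.2.2.2, ?_⟩
          rcases hr with hr | ⟨-, -, -, -, u, hu, hu'⟩
          · exact Or.inr (Or.inl (hP.2.2 a c v ha hc hv hr))
          · exact Or.inr (Or.inr ⟨u, rt_lt hu, hP.2.2 a c u ha hc (rt_lt hu) hu, hu'⟩)) s hs
    exact ⟨q1.1, q1.2.1, fun a c v ha hc hv hr => q3 a c v ha hc hv a c v ha hc hv rfl hr⟩
  have hQ0 : Q 0 s1 := by
    refine ⟨p1, fun a c v ha hc hv h => ?_, fun a c v ha hc hv h => ?_⟩
    · exact rt_sound (((p2 a c v ha hc hv) a c v ha hc hv rfl).1 h)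
    · exact ((p2 a c v ha hc hv) a c v ha hc hv rfl).2 h
  have hfin : Q (n + 1) (run ι (tabC b xe ee) s) := by
    show Q (n + 1) (run ι (.loop 39 1 (passC b (stepE b xe ee))) s1)
    simp only [run]
    rw [p1.v1]
    refine iter_inv _ s1 Q hQ0 (n + 1) fun t s' _ h => ?_
    exact hstep t _ ⟨h.1.setV (by omega) t, h.2⟩
  intro a c v ha hc hv
  exact ⟨hfin.2.1 a c v ha hc hv, fun h => hfin.2.2 a c v ha hc hv (rt_iff.1 h)⟩

end Pool.Agent.Lib54.HP
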