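import Pool.Agent.Lib_helper54.HamPath.Mach1

/-!
# The machine: filling arrays, pushing and popping
-/

namespace Pool.Agent.Lib54.HP

open Finset Pool.Agent.Lib54.LP

/-! ### Expressions that read only the first arrays -/

/-- The expression reads some array with number at least `c`. -/
def hi (c : ℕ) : Expr → Bool
  | .lit _ => false
  | .var _ => false
  | .bv _ => false
  | .arr b e => decide (c ≤ b) || hi c e
  | .inp e => hi c e
  | .add e f => hi c e || hi c f
  | .sub e f => hi c e || hi c f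
  | .half e => hi c e
  | .ite d e f => hi c d || hi c e || hi c f
  | .sum _ e => hi c e

lemma eval_congrG (ι : ℕ → ℕ) {c : ℕ} {s s' : St} (hv : s'.v = s.v)
    (ha : ∀ b < c, s'.a b = s.a b) (e : Expr) (h : hi c e = false) :
    ∀ env, eval ι s' e env = eval ι s e env := by
  induction e with
  | lit c => intro env; rfl
  | var x => intro env; simp [hv]
  | bv j => intro env; rfl
  | arr b' e ih =>
    intro env
    simp only [hi, Bool.or_eq_false_iff, decide_eq_false_iff_not, not_le] at h
    rw [eval_arr, eval_arr, ih h.2, ha b' h.1]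
  | inp e ih => intro env; rw [eval_inp, eval_inp, ih h]
  | add e f ih ih' =>
    intro env
    simp only [hi, Bool.or_eq_false_iff] at h
    rw [eval_add, eval_add, ih h.1, ih' h.2]
  | sub e f ih ih' =>
    intro env
    simp only [hi, Bool.or_eq_false_iff] at h
    rw [eval_sub, eval_sub, ih h.1, ih' h.2]
  | half e ih => intro env; rw [eval_half, eval_half, ih h]
  | ite c e f ihc ih ih' =>
    intro env
    simp only [hi, Bool.or_eq_false_iff] at h
    rw [eval_ite, eval_ite, ihc h.1.1, ih h.1.2, ih' h.2]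
  | sum r e ih =>
    intro env
    rw [eval_sum, eval_sum, hv]
    exact Finset.sum_congr rfl fun i _ => ih h _

lemma readsA_of_hi {c b : ℕ} (hcb : c ≤ b) (e : Expr) (h : hi c e = false) :
    readsA b e = false := by
  induction e with
  | lit c => rfl
  | var x => rfl
  | bv j => rfl
  | arr b' e ih =>
    simp only [hi, Bool.or_eq_false_iff, decide_eq_false_iff_not, not_le] at h
    simp only [readsA, Bool.or_eq_false_iff, decide_eq_false_iff_not]
    exact ⟨by omega, ih h.2⟩
  | inp e ih => exact ih h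
  | add e f ih ih' =>
    simp only [hi, Bool.or_eq_false_iff] at h
    simp only [readsA, Bool.or_eq_false_iff]
    exact ⟨ih h.1, ih' h.2⟩
  | sub e f ih ih' =>
    simp only [hi, Bool.or_eq_false_iff] at h
    simp only [readsA, Bool.or_eq_false_iff]
    exact ⟨ih h.1, ih' h.2⟩
  | half e ih => exact ih h
  | ite c e f ihc ih ih' =>
    simp only [hi, Bool.or_eq_false_iff] at h
    simp only [readsA, Bool.or_eq_false_iff]
    exact ⟨⟨ihc h.1.1, ih h.1.2⟩, ih' h.2⟩
  | sum r e ih => exact ih h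

/-! ### Filling with given positions -/

/-- `for x < r: b[pe] := e` -/
def fillP (x r b : ℕ) (pe e : Expr) : Cmd := .loop x r (.put b pe e)

lemma setV_congr {s s' : St} {x : ℕ} (h : ∀ y, y ≠ x → s'.v y = s.v y) (i : ℕ) :
    (s'.setV x i).v = (s.setV x i).v := by
  funext y
  rw [St.setV_v, St.setV_v]
  by_cases hy : y = x
  · subst hy
    rw [Function.update_self, Function.update_self]
  · rw [Function.update_of_ne hy, Function.update_of_ne hy, h y hy]

lemma run_fillP (ι : ℕ → ℕ) {x r b : ℕ} {pe e : Expr} (h : readsA b e = false)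
    (hp : readsA b pe = false) (s : St)
    (hinj : ∀ i < s.v r, ∀ j < s.v r, eval ι (s.setV x i) pe [] = eval ι (s.setV x j) pe [] →
      i = j) :
    (∀ y, y ≠ x → (run ι (fillP x r b pe e) s).v y = s.v y) ∧
    (∀ b', b' ≠ b → (run ι (fillP x r b pe e) s).a b' = s.a b') ∧
    (∀ i < s.v r, (run ι (fillP x r b pe e) s).a b (eval ι (s.setV x i) pe []) =
      eval ι (s.setV x i) e []) ∧
    ∀ k, (∀ i < s.v r, k ≠ eval ι (s.setV x i) pe []) →
      (run ι (fillP x r b pe e) s).a b k = s.a b k := by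
  simp only [fillP, run]
  have key := iter_inv (fun i s' => (s'.setV x i).setA b (eval ι (s'.setV x i) pe [])
      (eval ι (s'.setV x i) e [])) s
    (fun t s' => (∀ y, y ≠ x → s'.v y = s.v y) ∧ (∀ b', b' ≠ b → s'.a b' = s.a b') ∧
      (∀ i < t, s'.a b (eval ι (s.setV x i) pe []) = eval ι (s.setV x i) e []) ∧
      ∀ k, (∀ i < t, k ≠ eval ι (s.setV x i) pe []) → s'.a b k = s.a b k)
    ⟨fun _ _ => rfl, fun _ _ => rfl, fun i hi => absurd hi (Nat.not_lt_zero _), fun _ _ => rfl⟩
    (s.v r) ?_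
  · exact key
  · rintro t s' ht ⟨h1, h2, h3, h4⟩
    have hv := setV_congr h1 t
    have ha : ∀ b', b' ≠ b → (s'.setV x t).a b' = (s.setV x t).a b' := h2
    have e1 := eval_congrA ι (b := b) hv ha e h []
    have e2 := eval_congrA ι (b := b) hv ha pe hp []
    rw [e1, e2]
    refine ⟨?_, ?_, ?_, ?_⟩
    · intro y hy
      rw [St.setA_v, St.setV_v, Function.update_of_ne hy, h1 y hy]
    · intro b' hb'
      rw [St.setA_a, Function.update_of_ne hb', St.setV_a, h2 b' hb']
    · intro i hi
      rw [St.setA_a, Function.update_self]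
      by_cases hit : i = t
      · subst hit
        rw [Function.update_self]
      · rw [Function.update_of_ne fun h => hit (hinj i (by omega) t ht h), St.setV_a]
        exact h3 i (by omega)
    · intro k hk
      rw [St.setA_a, Function.update_self, Function.update_of_ne (hk t (by omega)), St.setV_a]
      exact h4 k fun i hi => hk i (by omega)

/-- `for x < n: for y < n: b[pe] := e` -/
def fillP2 (x y b : ℕ) (pe e : Expr) : Cmd := .loop x 0 (.loop y 0 (.put b pe e))

lemma run_fillP2 (ι : ℕ → ℕ) {x y b n : ℕ} {pe e : Expr} (hxy : x ≠ y) (hx : x ≠ 0)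
    (hy : y ≠ 0) (h : readsA b e = false) (hp : readsA b pe = false) (s : St) (hn : s.v 0 = n)
    (hinj : ∀ i < n, ∀ j < n, ∀ i' < n, ∀ j' < n,
      eval ι ((s.setV x i).setV y j) pe [] = eval ι ((s.setV x i').setV y j') pe [] →
      i = i' ∧ j = j') :
    (∀ z, z ≠ x → z ≠ y → (run ι (fillP2 x y b pe e) s).v z = s.v z) ∧
    (∀ b', b' ≠ b → (run ι (fillP2 x y b pe e) s).a b' = s.a b') ∧
    (∀ i < n, ∀ j < n, (run ι (fillP2 x y b pe e) s).a b
      (eval ι ((s.setV x i).setV y j) pe []) = eval ι ((s.setV x i).setV y j) e []) ∧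
    ∀ k, (∀ i < n, ∀ j < n, k ≠ eval ι ((s.setV x i).setV y j) pe []) →
      (run ι (fillP2 x y b pe e) s).a b k = s.a b k := by
  have key := iter_inv (fun i s' => run ι (fillP y 0 b pe e) (s'.setV x i)) s
    (fun t s' => (∀ z, z ≠ x → z ≠ y → s'.v z = s.v z) ∧ (∀ b', b' ≠ b → s'.a b' = s.a b') ∧
      (∀ i < t, ∀ j < n, s'.a b (eval ι ((s.setV x i).setV y j) pe []) =
        eval ι ((s.setV x i).setV y j) e []) ∧
      ∀ k, (∀ i < t, ∀ j < n, k ≠ eval ι ((s.setV x i).setV y j) pe []) →
        s'.a b k = s.a b k)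
    ⟨fun _ _ _ => rfl, fun _ _ => rfl, fun i hi => absurd hi (Nat.not_lt_zero _),
      fun _ _ => rfl⟩ n ?_
  · have hrun : run ι (fillP2 x y b pe e) s =
        iter (fun i s' => run ι (fillP y 0 b pe e) (s'.setV x i)) n s := by
      show iter _ (s.v 0) s = _
      rw [hn]
      rfl
    rw [hrun]
    exact key
  · rintro t s' ht ⟨h1, h2, h3, h4⟩
    have hv : ∀ j, ((s'.setV x t).setV y j).v = ((s.setV x t).setV y j).v := by
      intro j
      funext z
      simp only [St.setV_v]
      by_cases hz : z = y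
      · subst hz
        rw [Function.update_self, Function.update_self]
      · rw [Function.update_of_ne hz, Function.update_of_ne hz]
        by_cases hz' : z = x
        · subst hz'
          rw [Function.update_self, Function.update_self]
        · rw [Function.update_of_ne hz', Function.update_of_ne hz', h1 z hz' hz]
    have ha : ∀ j, ∀ b', b' ≠ b → ((s'.setV x t).setV y j).a b' = ((s.setV x t).setV y j).a b' :=
      fun j => h2
    have e1 := fun j => eval_congrA ι (b := b) (hv j) (ha j) e h []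
    have e2 := fun j => eval_congrA ι (b := b) (hv j) (ha j) pe hp []
    have hn' : (s'.setV x t).v 0 = n := by
      rw [St.setV_v, Function.update_of_ne hx.symm, h1 0 hx.symm hy.symm, hn]
    obtain ⟨g1, g2, g3, g4⟩ := run_fillP ι (x := y) (r := 0) (b := b) h hp (s'.setV x t) (by
      rw [hn']
      intro i hi j hj hij
      rw [e2, e2] at hij
      exact (hinj t (by omega) i hi t (by omega) j hj hij).2)
    rw [hn'] at g3 g4
    refine ⟨?_, ?_, ?_, ?_⟩
    · intro z hz hz'
      rw [g1 z hz', St.setV_v, Function.update_of_ne hz, h1 z hz hz']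
    · intro b' hb'
      rw [g2 b' hb', St.setV_a, h2 b' hb']
    · intro i hi j hj
      by_cases hit : i = t
      · subst hit
        have := g3 j hj
        rw [e1, e2] at this
        exact this
      · rw [g4 _ fun j' hj' hcon => ?_]
        · exact h3 i (by omega) j hj
        · rw [e2] at hcon
          exact hit (hinj i (by omega) j hj t ht j' hj' hcon).1
    · intro k hk
      rw [g4 k fun j' hj' hcon => ?_]
      · exact h4 k fun i hi => hk i (by omega)
      · rw [e2] at hcon
        exact hk t (by omega) j' hj' hcon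

/-! ### Copying the new instance to the stack -/

/-- Position of vertex `i` in the frame above the top. -/
def upE (x : ℕ) : Expr := .add (.add (.sum 0 (.var 16)) (.var 0)) (.var x)

def copy1 (b' b : ℕ) : Cmd := fillP 26 0 b' (upE 26) (.arr b (.var 26))

def copy2 : Cmd := fillP2 26 27 4 (.add (.sum 0 (upE 26)) (.var 27))
  (.arr 14 (.add (.sum 0 (.var 26)) (.var 27)))

def copyC : Cmd := seqs [copy1 1 11, copy1 2 12, copy1 3 13, copy2,
  .put 6 (.add (.var 16) (.lit 1)) (.lit 0), .set 16 (.add (.var 16) (.lit 1))]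

/-- The new instance. -/
def tmpIns (n : ℕ) (s : St) : Ins :=
  ⟨fun i => i < n ∧ s.a 11 i ≠ 0, fun i => i < n ∧ s.a 12 i ≠ 0, fun i => i < n ∧ s.a 13 i ≠ 0,
    fun i j => i < n ∧ j < n ∧ s.a 14 (n * i + j) ≠ 0⟩

lemma copy1_spec (ι : ℕ → ℕ) {n b b' : ℕ} (hbb : b ≠ b') {s : St} (hn : s.v 0 = n) :
    (∀ y, y ≠ 26 → (run ι (copy1 b' b) s).v y = s.v y) ∧
    (∀ c, c ≠ b' → (run ι (copy1 b' b) s).a c = s.a c) ∧
    (∀ i < n, (run ι (copy1 b' b) s).a b' (n * (s.v 16 + 1) + i) = s.a b i) ∧
    ∀ k ≤ s.v 16, ∀ i < n, (run ι (copy1 b' b) s).a b' (n * k + i) = s.a b' (n * k + i) := by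
  have hpos : ∀ i, eval ι (s.setV 26 i) (upE 26) [] = n * (s.v 16 + 1) + i := by
    intro i
    rw [upE, eval_add, eval_add, (stab_var (l := 0) 16).eval_mul 0 ι _ [] (Nat.zero_le _)]
    simp only [eval_var, St.setV_v, Function.update_self,
      Function.update_of_ne (show (0 : ℕ) ≠ 26 by decide),
      Function.update_of_ne (show (16 : ℕ) ≠ 26 by decide), hn]
    ring
  obtain ⟨g1, g2, g3, g4⟩ := run_fillP ι (x := 26) (r := 0) (b := b') (pe := upE 26)
    (e := .arr b (.var 26)) (by simp [readsA, hbb]) (by rfl) s (by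
      intro i _ j _ hij
      rw [hpos, hpos] at hij
      omega)
  rw [hn] at g3 g4
  refine ⟨g1, g2, ?_, ?_⟩
  · intro i hi
    have := g3 i hi
    rw [hpos] at this
    unfold copy1
    rw [this, eval_arr, eval_var, St.setV_a, St.setV_v, Function.update_self]
  · intro k hk i hi
    refine g4 _ fun j hj hcon => ?_
    rw [hpos] at hcon
    have := (pair_inj hi hj hcon).1
    omega

lemma copy2_spec (ι : ℕ → ℕ) {n : ℕ} {s : St} (hn : s.v 0 = n) :
    (∀ y, y ≠ 26 → y ≠ 27 → (run ι copy2 s).v y = s.v y) ∧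
    (∀ c, c ≠ 4 → (run ι copy2 s).a c = s.a c) ∧
    (∀ i < n, ∀ j < n, (run ι copy2 s).a 4 (n * (n * (s.v 16 + 1) + i) + j) =
      s.a 14 (n * i + j)) ∧
    ∀ k ≤ s.v 16, ∀ i < n, ∀ j < n, (run ι copy2 s).a 4 (n * (n * k + i) + j) =
      s.a 4 (n * (n * k + i) + j) := by
  have hpos : ∀ i j, eval ι ((s.setV 26 i).setV 27 j) (.add (.sum 0 (upE 26)) (.var 27)) [] =
      n * (n * (s.v 16 + 1) + i) + j := by
    intro i j
    have hst : Stab 0 (upE 26) := (((stab_var 16).sum 0).add (stab_var 0)).add (stab_var 26)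
    rw [eval_add, hst.eval_mul 0 ι _ [] (Nat.zero_le _), upE, eval_add, eval_add,
      (stab_var (l := 0) 16).eval_mul 0 ι _ [] (Nat.zero_le _)]
    simp only [eval_var, St.setV_v, Function.update_self,
      Function.update_of_ne (show (0 : ℕ) ≠ 26 by decide),
      Function.update_of_ne (show (0 : ℕ) ≠ 27 by decide),
      Function.update_of_ne (show (16 : ℕ) ≠ 26 by decide),
      Function.update_of_ne (show (16 : ℕ) ≠ 27 by decide),
      Function.update_of_ne (show (26 : ℕ) ≠ 27 by decide), hn]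
    ring
  have hval : ∀ i j, eval ι ((s.setV 26 i).setV 27 j)
      (.arr 14 (.add (.sum 0 (.var 26)) (.var 27))) [] = s.a 14 (n * i + j) := by
    intro i j
    rw [eval_arr, eval_add, (stab_var (l := 0) 26).eval_mul 0 ι _ [] (Nat.zero_le _)]
    simp only [eval_var, St.setV_v, St.setV_a, Function.update_self,
      Function.update_of_ne (show (0 : ℕ) ≠ 26 by decide),
      Function.update_of_ne (show (0 : ℕ) ≠ 27 by decide),
      Function.update_of_ne (show (26 : ℕ) ≠ 27 by decide), hn]
  obtain ⟨g1, g2, g3, g4⟩ := run_fillP2 ι (x := 26) (y := 27) (b := 4) (n := n)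
    (pe := .add (.sum 0 (upE 26)) (.var 27)) (e := .arr 14 (.add (.sum 0 (.var 26)) (.var 27)))
    (by decide) (by decide) (by decide) (by rfl) (by rfl) s hn (by
      intro i hi j hj i' hi' j' hj' hij
      rw [hpos, hpos] at hij
      obtain ⟨h1, h2⟩ := pair_inj hj hj' hij
      exact ⟨by omega, h2⟩)
  refine ⟨g1, g2, ?_, ?_⟩
  · intro i hi j hj
    have := g3 i hi j hj
    rw [hpos, hval] at this
    exact this
  · intro k hk i hi j hj
    refine g4 _ fun i' hi' j' hj' hcon => ?_
    rw [hpos] at hcon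
    have h1 := (pair_inj hj hj' hcon).1
    have := (pair_inj hi hi' h1).1
    omega

lemma copyC_spec (ι : ℕ → ℕ) {n : ℕ} {s : St} (hn : s.v 0 = n) :
    (∀ y, y ≠ 26 → y ≠ 27 → y ≠ 16 → (run ι copyC s).v y = s.v y) ∧
    (run ι copyC s).v 16 = s.v 16 + 1 ∧ (run ι copyC s).a 5 = s.a 5 ∧
    insAt n (run ι copyC s) (s.v 16 + 1) = tmpIns n s ∧
    (run ι copyC s).a 6 (s.v 16 + 1) = 0 ∧
    ∀ k ≤ s.v 16, insAt n (run ι copyC s) k = insAt n s k ∧
      (run ι copyC s).a 6 k = s.a 6 k := by
  obtain ⟨a1, a2, a3, a4⟩ := copy1_spec ι (b := 11) (b' := 1) (by decide) hn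
  set s1 := run ι (copy1 1 11) s with hs1
  have n1 : s1.v 0 = n := by rw [a1 0 (by decide), hn]
  have t1 : s1.v 16 = s.v 16 := a1 16 (by decide)
  obtain ⟨b1, b2, b3, b4⟩ := copy1_spec ι (b := 12) (b' := 2) (by decide) n1
  set s2 := run ι (copy1 2 12) s1 with hs2
  have n2 : s2.v 0 = n := by rw [b1 0 (by decide), n1]
  have t2 : s2.v 16 = s.v 16 := by rw [b1 16 (by decide), t1]
  obtain ⟨c1, c2, c3, c4⟩ := copy1_spec ι (b := 13) (b' := 3) (by decide) n2
  set s3 := run ι (copy1 3 13) s2 with hs3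
  have n3 : s3.v 0 = n := by rw [c1 0 (by decide), n2]
  have t3 : s3.v 16 = s.v 16 := by rw [c1 16 (by decide), t2]
  obtain ⟨d1, d2, d3, d4⟩ := copy2_spec ι n3
  set s4 := run ι copy2 s3 with hs4
  have t4 : s4.v 16 = s.v 16 := by rw [d1 16 (by decide) (by decide), t3]
  have hrun : run ι copyC s = (s4.setA 6 (s.v 16 + 1) 0).setV 16 (s.v 16 + 1) := by
    show run ι .skip (run ι (.set 16 (.add (.var 16) (.lit 1)))
      (run ι (.put 6 (.add (.var 16) (.lit 1)) (.lit 0)) s4)) = _
    simp only [run, eval_add, eval_var, eval_lit, St.setA_v, t4]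
  rw [t1] at b3 b4
  rw [t2] at c3 c4
  rw [t3] at d3 d4
  rw [hrun]
  have A1 : ∀ s' : St, s' = (s4.setA 6 (s.v 16 + 1) 0).setV 16 (s.v 16 + 1) →
      s'.a 1 = s1.a 1 ∧ s'.a 2 = s2.a 2 ∧ s'.a 3 = s3.a 3 ∧ s'.a 4 = s4.a 4 ∧
      s'.a 5 = s.a 5 := by
    rintro s' rfl
    simp only [St.setV_a, St.setA_a]
    refine ⟨?_, ?_, ?_, ?_, ?_⟩
    · rw [Function.update_of_ne (by decide), d2 1 (by decide), c2 1 (by decide),
        b2 1 (by decide)]
    · rw [Function.update_of_ne (by decide), d2 2 (by decide), c2 2 (by decide)]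
    · rw [Function.update_of_ne (by decide), d2 3 (by decide)]
    · rw [Function.update_of_ne (by decide)]
    · rw [Function.update_of_ne (by decide), d2 5 (by decide), c2 5 (by decide),
        b2 5 (by decide), a2 5 (by decide)]
  obtain ⟨e1, e2, e3, e4, e5⟩ := A1 _ rfl
  have m12 : s1.a 12 = s.a 12 := a2 12 (by decide)
  have m13 : s2.a 13 = s.a 13 := by rw [b2 13 (by decide), a2 13 (by decide)]
  have m14 : s3.a 14 = s.a 14 := by
    rw [c2 14 (by decide), b2 14 (by decide), a2 14 (by decide)]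
  refine ⟨?_, ?_, e5, ?_, ?_, ?_⟩
  · intro y h26 h27 h16
    rw [St.setV_v, Function.update_of_ne h16, St.setA_v, d1 y h26 h27, c1 y h26, b1 y h26,
      a1 y h26]
  · rw [St.setV_v, Function.update_self]
  · unfold insAt tmpIns
    rw [e1, e2, e3, e4, Ins.mk.injEq]
    refine ⟨?_, ?_, ?_, ?_⟩
    · funext i
      refine propext (and_congr_right fun hi => ?_)
      rw [a3 i hi]
    · funext i
      refine propext (and_congr_right fun hi => ?_)
      rw [b3 i hi, m12]
    · funext i
      refine propext (and_congr_right fun hi => ?_)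
      rw [c3 i hi, m13]
    · funext i j
      refine propext (and_congr_right fun hi => and_congr_right fun hj => ?_)
      rw [d3 i hi j hj, m14]
  · rw [St.setV_a, St.setA_a, Function.update_self, Function.update_self]
  · intro k hk
    constructor
    · unfold insAt
      rw [e1, e2, e3, e4, Ins.mk.injEq]
      refine ⟨?_, ?_, ?_, ?_⟩
      · funext i
        refine propext (and_congr_right fun hi => ?_)
        rw [a4 k hk i hi]
      · funext i
        refine propext (and_congr_right fun hi => ?_)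
        rw [b4 k hk i hi, a2 2 (by decide)]
      · funext i
        refine propext (and_congr_right fun hi => ?_)
        rw [c4 k hk i hi, b2 3 (by decide), a2 3 (by decide)]
      · funext i j
        refine propext (and_congr_right fun hi => and_congr_right fun hj => ?_)
        rw [d4 k hk i hi j hj, c2 4 (by decide), b2 4 (by decide), a2 4 (by decide)]
    · rw [St.setV_a, St.setA_a, Function.update_self, Function.update_of_ne (by omega),
        d2 6 (by decide), c2 6 (by decide), b2 6 (by decide), a2 6 (by decide)]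

/-! ### Pushing -/

def pushC (e1 e2 e3 e4 : Expr) : Cmd := seqs [fill 26 0 11 e1, fill 26 0 12 e2, fill 26 0 13 e3,
  fillP2 26 27 14 (.add (.sum 0 (.var 26)) (.var 27)) e4, copyC]

theorem pushC_spec (ι : ℕ → ℕ) {n : ℕ} {s : St} {e1 e2 e3 e4 : Expr} {J : Ins}
    (hn : s.v 0 = n) (h1 : hi 11 e1 = false) (h2 : hi 11 e2 = false) (h3 : hi 11 e3 = false)
    (h4 : hi 11 e4 = false)
    (j1 : ∀ i, J.S i ↔ i < n ∧ tr ι (s.setV 26 i) e1 [])
    (j2 : ∀ i, J.X i ↔ i < n ∧ tr ι (s.setV 26 i) e2 [])
    (j3 : ∀ i, J.Y i ↔ i < n ∧ tr ι (s.setV 26 i) e3 [])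
    (j4 : ∀ i j, J.E i j ↔ i < n ∧ j < n ∧ tr ι ((s.setV 26 i).setV 27 j) e4 []) :
    (∀ y, y ≠ 26 → y ≠ 27 → y ≠ 16 → (run ι (pushC e1 e2 e3 e4) s).v y = s.v y) ∧
    (run ι (pushC e1 e2 e3 e4) s).v 16 = s.v 16 + 1 ∧
    (run ι (pushC e1 e2 e3 e4) s).a 5 = s.a 5 ∧
    insAt n (run ι (pushC e1 e2 e3 e4) s) (s.v 16 + 1) = J ∧
    (run ι (pushC e1 e2 e3 e4) s).a 6 (s.v 16 + 1) = 0 ∧
    ∀ k ≤ s.v 16, insAt n (run ι (pushC e1 e2 e3 e4) s) k = insAt n s k ∧
      (run ι (pushC e1 e2 e3 e4) s).a 6 k = s.a 6 k := by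
  obtain ⟨a1, a2, a3⟩ := run_fill ι (x := 26) (r := 0) (b := 11) (readsA_of_hi (by decide) e1 h1)
    s
  set s1 := run ι (fill 26 0 11 e1) s with hs1
  have n1 : s1.v 0 = n := by rw [a1 0 (by decide), hn]
  obtain ⟨b1, b2, b3⟩ := run_fill ι (x := 26) (r := 0) (b := 12) (readsA_of_hi (by decide) e2 h2)
    s1
  set s2 := run ι (fill 26 0 12 e2) s1 with hs2
  have n2 : s2.v 0 = n := by rw [b1 0 (by decide), n1]
  obtain ⟨c1, c2, c3⟩ := run_fill ι (x := 26) (r := 0) (b := 13) (readsA_of_hi (by decide) e3 h3)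
    s2
  set s3 := run ι (fill 26 0 13 e3) s2 with hs3
  have n3 : s3.v 0 = n := by rw [c1 0 (by decide), n2]
  have hpos : ∀ i j, eval ι ((s3.setV 26 i).setV 27 j) (.add (.sum 0 (.var 26)) (.var 27)) [] =
      n * i + j := by
    intro i j
    rw [eval_add, (stab_var (l := 0) 26).eval_mul 0 ι _ [] (Nat.zero_le _)]
    simp only [eval_var, St.setV_v, Function.update_self,
      Function.update_of_ne (show (0 : ℕ) ≠ 26 by decide),
      Function.update_of_ne (show (0 : ℕ) ≠ 27 by decide),
      Function.update_of_ne (show (26 : ℕ) ≠ 27 by decide), n3]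
  obtain ⟨d1, d2, d3, -⟩ := run_fillP2 ι (x := 26) (y := 27) (b := 14) (n := n)
    (pe := .add (.sum 0 (.var 26)) (.var 27)) (e := e4) (by decide) (by decide) (by decide)
    (readsA_of_hi (by decide) e4 h4) (by rfl) s3 n3 (by
      intro i hi j hj i' hi' j' hj' hij
      rw [hpos, hpos] at hij
      exact pair_inj hj hj' hij)
  set s4 := run ι (fillP2 26 27 14 (.add (.sum 0 (.var 26)) (.var 27)) e4) s3 with hs4
  have n4 : s4.v 0 = n := by rw [d1 0 (by decide) (by decide), n3]
  have t4 : s4.v 16 = s.v 16 := by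
    rw [d1 16 (by decide) (by decide), c1 16 (by decide), b1 16 (by decide), a1 16 (by decide)]
  have low1 : ∀ b < 11, s1.a b = s.a b := fun b hb => a2 b (by omega)
  have low2 : ∀ b < 11, s2.a b = s.a b := fun b hb => by rw [b2 b (by omega), low1 b hb]
  have low3 : ∀ b < 11, s3.a b = s.a b := fun b hb => by rw [c2 b (by omega), low2 b hb]
  have low4 : ∀ b < 11, s4.a b = s.a b := fun b hb => by rw [d2 b (by omega), low3 b hb]
  have v1 : ∀ y, y ≠ 26 → s1.v y = s.v y := a1
  have v2 : ∀ y, y ≠ 26 → s2.v y = s.v y := fun y hy => by rw [b1 y hy, v1 y hy]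
  have v3 : ∀ y, y ≠ 26 → s3.v y = s.v y := fun y hy => by rw [c1 y hy, v2 y hy]
  obtain ⟨f1, f2, f3, f4, f5, f6⟩ := copyC_spec ι (s := s4) n4
  have hrun : run ι (pushC e1 e2 e3 e4) s = run ι copyC s4 := rfl
  rw [t4] at f2 f4 f5 f6
  rw [hrun]
  refine ⟨?_, f2, by rw [f3, low4 5 (by decide)], ?_, f5, ?_⟩
  · intro y h26 h27 h16
    rw [f1 y h26 h27 h16, d1 y h26 h27, v3 y h26]
  · rw [f4]
    unfold tmpIns
    apply Ins.ext
    · funext i
      refine propext ?_
      rw [j1]
      refine and_congr_right fun hi => ?_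
      rw [d2 11 (by decide), c2 11 (by decide), b2 11 (by decide), a3 i, if_pos (by omega)]
      rfl
    · funext i
      refine propext ?_
      rw [j2]
      refine and_congr_right fun hi => ?_
      rw [d2 12 (by decide), c2 12 (by decide), b3 i, if_pos (by omega),
        eval_congrG ι (c := 11) (s' := s1.setV 26 i) (s := s.setV 26 i) (setV_congr v1 i)
          (fun b hb => low1 b hb) e2 h2]
      rfl
    · funext i
      refine propext ?_
      rw [j3]
      refine and_congr_right fun hi => ?_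
      rw [d2 13 (by decide), c3 i, if_pos (by omega),
        eval_congrG ι (c := 11) (s' := s2.setV 26 i) (s := s.setV 26 i) (setV_congr v2 i)
          (fun b hb => low2 b hb) e3 h3]
      rfl
    · funext i j
      refine propext ?_
      rw [j4]
      refine and_congr_right fun hi => and_congr_right fun hj => ?_
      have := d3 i hi j hj
      rw [hpos] at this
      rw [this, eval_congrG ι (c := 11) (s' := (s3.setV 26 i).setV 27 j)
        (s := (s.setV 26 i).setV 27 j) ?_ (fun b hb => low3 b hb) e4 h4]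
      · rfl
      · have h26 := setV_congr v3 i
        simp only [St.setV_v] at h26 ⊢
        rw [h26]
  · intro k hk
    obtain ⟨g1, g2⟩ := f6 k hk
    refine ⟨?_, by rw [g2, low4 6 (by decide)]⟩
    rw [g1]
    exact insAt_congr (low4 1 (by decide)) (low4 2 (by decide)) (low4 3 (by decide))
      (low4 4 (by decide)) k

/-! ### Popping -/

def popC (e : Expr) : Cmd := .seq (.set 25 e) (.ite (.var 16)
  (seqs [.set 16 (.sub (.var 16) (.lit 1)),
    .put 5 (.add (.sum 2 (.var 16)) (.arr 6 (.var 16))) (.var 25),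
    .put 6 (.var 16) (.add (.arr 6 (.var 16)) (.lit 1))])
  (.seq (.set 17 (.lit 1)) (.set 18 (.var 25))))

lemma popC_zero (ι : ℕ → ℕ) {s : St} {e : Expr} (h : s.v 16 = 0) :
    run ι (popC e) s = ((s.setV 25 (eval ι s e [])).setV 17 1).setV 18 (eval ι s e []) := by
  have h1 : (s.setV 25 (eval ι s e [])).v 16 = 0 := by
    rw [St.setV_v, Function.update_of_ne (by decide), h]
  simp only [popC, run, eval_var, h1, if_true, eval_lit]
  simp [Function.update_of_ne]

lemma popC_succ (ι : ℕ → ℕ) {s : St} {e : Expr} {k : ℕ} (h : s.v 16 = k + 1) (h2 : s.v 2 = 8) :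
    run ι (popC e) s = ((((s.setV 25 (eval ι s e [])).setV 16 k).setA 5 (8 * k + s.a 6 k)
      (eval ι s e [])).setA 6 k (s.a 6 k + 1)) := by
  have h1 : (s.setV 25 (eval ι s e [])).v 16 = k + 1 := by
    rw [St.setV_v, Function.update_of_ne (by decide), h]
  simp only [popC, run, eval_var, h1, eval_lit, seqs]
  rw [if_neg (by omega)]
  simp only [eval_sub, eval_var, eval_lit, h1, Nat.add_sub_cancel, eval_add, eval_arr,
    (stab_var (l := 0) 16).eval_mul 2 ι _ [] (Nat.zero_le _)]
  simp [Function.update_of_ne, h2]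

end Pool.Agent.Lib54.HP
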