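import Pool.Agent.Lib_helper54.HamPath.Mach2

/-!
# The machine: the expressions of the step
-/

namespace Pool.Agent.Lib54.HP

open Finset Pool.Agent.Lib54.LP

/-- The constants, the instance at the top of the stack, and the tables. -/
structure Ctx (n : ℕ) (I0 : Ins) (s : St) : Prop where
  fix : Fix n I0 s
  t7 : ∀ a c v, a ≤ n → c ≤ n → v < n → (s.a 7 (pos n a c v) ≠ 0 ↔ Rc n I0 a c v)
  t8 : ∀ a c v, a ≤ n → c ≤ n → v < n → (s.a 8 (pos n a c v) ≠ 0 ↔ Rc n (rev I0) a c v)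

section
variable {n : ℕ} {I0 : Ins} {s : St}

lemma Ctx.setV (h : Ctx n I0 s) {x : ℕ} (hx : 16 < x) (i : ℕ) : Ctx n I0 (s.setV x i) :=
  ⟨h.fix.setV hx i, h.t7, h.t8⟩

lemma Ctx.setA (h : Ctx n I0 s) {b : ℕ} (hb : 8 < b) (i c : ℕ) : Ctx n I0 (s.setA b i c) := by
  refine ⟨h.fix.setA (by omega) i c, ?_, ?_⟩
  · rw [St.setA_a, Function.update_of_ne (by omega)]
    exact h.t7
  · rw [St.setA_a, Function.update_of_ne (by omega)]
    exact h.t8

/-- Nothing important is different. -/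
lemma Ctx.congr (h : Ctx n I0 s) {s' : St} (hv : ∀ y ≤ 16, s'.v y = s.v y)
    (ha : ∀ b, 1 ≤ b → b ≤ 8 → s'.a b = s.a b) : Ctx n I0 s' := by
  refine ⟨⟨?_, ?_, ?_, ?_⟩, ?_, ?_⟩
  · rw [hv 0 (by omega)]; exact h.fix.v0
  · rw [hv 1 (by omega)]; exact h.fix.v1
  · rw [hv 2 (by omega)]; exact h.fix.v2
  · rw [hv 16 (by omega), ← h.fix.hI]
    exact insAt_congr (ha 1 (by omega) (by omega)) (ha 2 (by omega) (by omega))
      (ha 3 (by omega) (by omega)) (ha 4 (by omega) (by omega)) _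
  · rw [ha 7 (by omega) (by omega)]; exact h.t7
  · rw [ha 8 (by omega) (by omega)]; exact h.t8

end

/-! ### Expressions -/

def npE (l : ℕ) (a c : Expr) : Expr := allE 0 (notE (andE (RE 7 a c (.bv l)) (yE (.bv l))))
def P1E (l : ℕ) (w : Expr) : Expr := andE (sE w) (npE l w (.var 0))
def sdAE (a c z : Expr) : Expr := RE 7 a c z
def sdBE (a c z : Expr) : Expr :=
  andE (sE z) (andE (notE (eqE z a)) (andE (notE (eqE z c)) (notE (RE 7 a c z))))
def NTE (l : ℕ) (u v : Expr) : Expr := andE (sE u) (andE (sE v) (andE (notE (eqE u v))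
  (andE (npE l u v) (andE (.sum 0 (boolE (sdAE u v (.bv l))))
    (.sum 0 (boolE (sdBE u v (.bv l))))))))
def fstE (l : ℕ) (P : Expr) : Expr :=
  .sum 0 (boolE (allE 0 (impE (leE (.bv (l + 1)) (.bv l)) (notE P))))
def NRE (b l : ℕ) (xe : Expr → Expr) (x : Expr) : Expr :=
  andE (sE x) (andE (xe x) (.sum 0 (boolE (andE (sE (.bv l)) (andE (notE (eqE (.bv l) x))
    (notE (RE b x (.var 0) (.bv l))))))))
def cXE (xe : Expr → Expr) : Expr := .sum 0 (boolE (andE (sE (.bv 0)) (xe (.bv 0))))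
def cSE : Expr := .sum 0 (boolE (sE (.bv 0)))
def covE : Expr := allE 0 (impE (sE (.bv 0)) (andE (RE 7 (.var 0) (.var 0) (.bv 0))
  (RE 8 (.var 0) (.var 0) (.bv 0))))
def empE : Expr := allE 0 (notE (sE (.bv 0)))
def anyE : Expr := .sum 0 (boolE (andE (xE (.bv 0)) (yE (.bv 0))))
def wE : Expr := fstE 0 (P1E 2 (.bv 1))
def uE : Expr := fstE 0 (.sum 0 (boolE (NTE 3 (.bv 1) (.bv 2))))
def vE : Expr := fstE 0 (NTE 2 (.var 23) (.bv 1))
def fXE (xe : Expr → Expr) : Expr := fstE 0 (andE (sE (.bv 1)) (xe (.bv 1)))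
def oXE (xe : Expr → Expr) : Expr :=
  fstE 0 (andE (andE (sE (.bv 1)) (xe (.bv 1))) (notE (eqE (.bv 1) (.var 23))))
def nrE (b : ℕ) (xe : Expr → Expr) : Expr := fstE 0 (NRE b 2 xe (.bv 1))

section Eval
variable {ι : ℕ → ℕ} {s : St} {n l : ℕ} {env : List ℕ} {a c v u w x z P e : Expr} {I0 J : Ins}

lemma eval_fs {Q : ℕ → Prop} (hn : s.v 0 = n)
    (h : ∀ i < n, (tr ι s e (env ++ [i]) ↔ Q i)) :
    eval ι s (.sum 0 (boolE e)) env = (fs n Q).card := by
  classical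
  rw [eval_card, hn]
  congr 1
  ext i
  rw [mem_filter, mem_range, mem_fs]
  exact ⟨fun h' => ⟨h'.1, (h i h'.1).1 h'.2⟩, fun h' => ⟨h'.1, (h i h'.1).2 h'.2⟩⟩

lemma tr_ex {Q : ℕ → Prop} (hn : s.v 0 = n)
    (h : ∀ i < n, (tr ι s e (env ++ [i]) ↔ Q i)) :
    tr ι s (.sum 0 (boolE e)) env ↔ ∃ i < n, Q i := by
  rw [tr_sum, hn]
  refine exists_congr fun i => and_congr_right fun hi => ?_
  rw [tr_boolE]
  exact h i hi

lemma tr_al {Q : ℕ → Prop} (hn : s.v 0 = n)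
    (h : ∀ i < n, (tr ι s e (env ++ [i]) ↔ Q i)) :
    tr ι s (allE 0 e) env ↔ ∀ i < n, Q i := by
  rw [tr_allE, hn]
  exact forall_congr' fun i => imp_congr_right fun hi => h i hi

lemma eval_fstE {Q : ℕ → Prop} (hn : s.v 0 = n) (hl : env.length = l)
    (h : ∀ i < n, ∀ j < n, (tr ι s P (env ++ [i] ++ [j]) ↔ Q j)) :
    eval ι s (fstE l P) env = fst n Q := by
  rw [fstE, fst]
  refine eval_fs hn fun i hi => ?_
  refine tr_al hn fun j hj => ?_
  have e1 : eval ι s (.bv (l + 1)) (env ++ [i] ++ [j]) = j := eval_bv_last (by simp [hl]) j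
  have e2 : eval ι s (.bv l) (env ++ [i] ++ [j]) = i := by
    rw [stab_bv (l := l + 1) (Nat.lt_succ_self l) ι s (env ++ [i]) [j] (by simp [hl])]
    exact eval_bv_last hl i
  rw [tr_impE, tr_leE, tr_notE, e1, e2, h i hi j hj]

lemma tr_RE7 (h : Ctx n I0 s) (ha : Stab l a) (hc : Stab l c) (hl : l ≤ env.length)
    (ha' : eval ι s a env ≤ n) (hc' : eval ι s c env ≤ n) (hv : eval ι s v env < n) :
    tr ι s (RE 7 a c v) env ↔ Rc n I0 (eval ι s a env) (eval ι s c env) (eval ι s v env) := by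
  rw [tr_def, eval_RE h.fix.v0 h.fix.v1 ha hc hl]
  exact h.t7 _ _ _ ha' hc' hv

lemma tr_RE8 (h : Ctx n I0 s) (ha : Stab l a) (hc : Stab l c) (hl : l ≤ env.length)
    (ha' : eval ι s a env ≤ n) (hc' : eval ι s c env ≤ n) (hv : eval ι s v env < n) :
    tr ι s (RE 8 a c v) env ↔
      Rc n (rev I0) (eval ι s a env) (eval ι s c env) (eval ι s v env) := by
  rw [tr_def, eval_RE h.fix.v0 h.fix.v1 ha hc hl]
  exact h.t8 _ _ _ ha' hc' hv

lemma tr_npE' (h : Ctx n I0 s) (ha : Stab l a) (hc : Stab l c) (hl : env.length = l)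
    (ha' : eval ι s a env ≤ n) (hc' : eval ι s c env ≤ n) :
    tr ι s (npE l a c) env ↔ noPath n I0 (eval ι s a env) (eval ι s c env) := by
  rw [npE, noPath]
  refine tr_al h.fix.v0 fun y hy => ?_
  have e1 : eval ι s (.bv l) (env ++ [y]) = y := eval_bv_last hl y
  have ea := ha ι s env [y] hl.ge
  have ec := hc ι s env [y] hl.ge
  have hlen : l + 1 ≤ (env ++ [y]).length := by simp [hl]
  rw [tr_notE, tr_andE, tr_RE7 h (ha.mono (Nat.le_succ l)) (hc.mono (Nat.le_succ l)) hlen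
    (by rw [ea]; exact ha') (by rw [ec]; exact hc') (by rw [e1]; exact hy), ea, ec, e1,
    tr_yE h.fix (by rw [e1]; exact hy), e1]

lemma tr_P1E (h : Ctx n I0 s) (hw : Stab l w) (hl : env.length = l)
    (hw' : eval ι s w env < n) :
    tr ι s (P1E l w) env ↔ P1 n I0 (eval ι s w env) := by
  rw [P1E, P1, tr_andE, tr_sE h.fix hw', tr_npE' h hw (stab_var 0) hl hw'.le
    (by rw [eval_var, h.fix.v0]), eval_var, h.fix.v0]

lemma tr_sdAE (h : Ctx n I0 s) (ha : Stab l a) (hc : Stab l c) (hl : l ≤ env.length)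
    (ha' : eval ι s a env ≤ n) (hc' : eval ι s c env ≤ n) (hz : eval ι s z env < n) :
    tr ι s (sdAE a c z) env ↔
      sideA n I0 (eval ι s a env) (eval ι s c env) (eval ι s z env) :=
  tr_RE7 h ha hc hl ha' hc' hz

lemma tr_sdBE (h : Ctx n I0 s) (ha : Stab l a) (hc : Stab l c) (hl : l ≤ env.length)
    (ha' : eval ι s a env ≤ n) (hc' : eval ι s c env ≤ n) (hz : eval ι s z env < n) :
    tr ι s (sdBE a c z) env ↔
      sideB n I0 (eval ι s a env) (eval ι s c env) (eval ι s z env) := by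
  rw [sdBE, sideB, tr_andE, tr_andE, tr_andE, tr_notE, tr_notE, tr_notE, tr_eqE, tr_eqE,
    tr_sE h.fix hz, tr_RE7 h ha hc hl ha' hc' hz]

lemma tr_NTE (h : Ctx n I0 s) (hu : Stab l u) (hv : Stab l v) (hl : env.length = l)
    (hu' : eval ι s u env < n) (hv' : eval ι s v env < n) :
    tr ι s (NTE l u v) env ↔ NT n I0 (eval ι s u env) (eval ι s v env) := by
  have key : ∀ z < n, eval ι s (.bv l) (env ++ [z]) = z ∧
      eval ι s u (env ++ [z]) = eval ι s u env ∧ eval ι s v (env ++ [z]) = eval ι s v env :=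
    fun z _ => ⟨eval_bv_last hl z, hu ι s env [z] hl.ge, hv ι s env [z] hl.ge⟩
  rw [NTE, NT, tr_andE, tr_andE, tr_andE, tr_andE, tr_andE, tr_notE, tr_eqE, tr_sE h.fix hu',
    tr_sE h.fix hv', tr_npE' h hu hv hl hu'.le hv'.le,
    tr_ex (Q := sideA n I0 (eval ι s u env) (eval ι s v env)) h.fix.v0,
    tr_ex (Q := sideB n I0 (eval ι s u env) (eval ι s v env)) h.fix.v0]
  · rfl
  · intro z hz
    obtain ⟨e1, e2, e3⟩ := key z hz
    rw [tr_sdBE h (hu.mono (Nat.le_succ l)) (hv.mono (Nat.le_succ l)) (by simp [hl])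
      (by rw [e2]; exact hu'.le) (by rw [e3]; exact hv'.le) (by rw [e1]; exact hz), e1, e2, e3]
  · intro z hz
    obtain ⟨e1, e2, e3⟩ := key z hz
    rw [tr_sdAE h (hu.mono (Nat.le_succ l)) (hv.mono (Nat.le_succ l)) (by simp [hl])
      (by rw [e2]; exact hu'.le) (by rw [e3]; exact hv'.le) (by rw [e1]; exact hz), e1, e2, e3]

lemma bv1 (i j : ℕ) : eval ι s (.bv 1) ([] ++ [i] ++ [j]) = j := rfl

lemma eval_wE (h : Ctx n I0 s) : eval ι s wE [] = fst n (P1 n I0) :=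
  eval_fstE h.fix.v0 rfl fun i _ j hj => by
    rw [tr_P1E (l := 2) h (stab_bv (by omega)) rfl (by rw [bv1]; exact hj), bv1]

lemma eval_uE (h : Ctx n I0 s) : eval ι s uE [] = spU n I0 :=
  eval_fstE h.fix.v0 rfl fun i _ j hj => tr_ex h.fix.v0 fun k hk => by
    have e1 : eval ι s (.bv 1) ([] ++ [i] ++ [j] ++ [k]) = j := rfl
    have e2 : eval ι s (.bv 2) ([] ++ [i] ++ [j] ++ [k]) = k := rfl
    rw [tr_NTE (l := 3) h (stab_bv (by omega)) (stab_bv (by omega)) rfl (by rw [e1]; exact hj)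
      (by rw [e2]; exact hk), e1, e2]

lemma eval_vE (h : Ctx n I0 s) (hu : s.v 23 < n) :
    eval ι s vE [] = fst n fun v => NT n I0 (s.v 23) v :=
  eval_fstE h.fix.v0 rfl fun i _ j hj => by
    rw [tr_NTE (l := 2) h (stab_var 23) (stab_bv (by omega)) rfl hu (by rw [bv1]; exact hj), bv1,
      eval_var]

/-- The accessor of first vertices in one of the two orientations. -/
def AccX (ι : ℕ → ℕ) (n : ℕ) (I0 J : Ins) (xe : Expr → Expr) : Prop :=
  J.S = I0.S ∧ ∀ (s : St) (i : Expr) (env : List ℕ), Ctx n I0 s → eval ι s i env < n →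
    (tr ι s (xe i) env ↔ J.X (eval ι s i env))

lemma accX (ι : ℕ → ℕ) (n : ℕ) (I0 : Ins) : AccX ι n I0 I0 xE :=
  ⟨rfl, fun _ _ _ h hi => tr_xE h.fix hi⟩

lemma accY (ι : ℕ → ℕ) (n : ℕ) (I0 : Ins) : AccX ι n I0 (rev I0) yE :=
  ⟨rfl, fun _ _ _ h hi => tr_yE h.fix hi⟩

/-- The table of the reversed instance. -/
def AccR (ι : ℕ → ℕ) (n : ℕ) (I0 J : Ins) (b : ℕ) : Prop :=
  ∀ (s : St) (l : ℕ) (a c v : Expr) (env : List ℕ), Ctx n I0 s → Stab l a → Stab l c →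
    l ≤ env.length → eval ι s a env ≤ n → eval ι s c env ≤ n → eval ι s v env < n →
    (tr ι s (RE b a c v) env ↔
      Rc n (rev J) (eval ι s a env) (eval ι s c env) (eval ι s v env))

lemma accR8 (ι : ℕ → ℕ) (n : ℕ) (I0 : Ins) : AccR ι n I0 I0 8 :=
  fun _ _ _ _ _ _ h ha hc hl ha' hc' hv => tr_RE8 h ha hc hl ha' hc' hv

lemma accR7 (ι : ℕ → ℕ) (n : ℕ) (I0 : Ins) : AccR ι n I0 (rev I0) 7 :=
  fun _ _ _ _ _ _ h ha hc hl ha' hc' hv => tr_RE7 h ha hc hl ha' hc' hv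

lemma eval_cXE {xe : Expr → Expr} (h : Ctx n I0 s) (hx : AccX ι n I0 J xe) :
    eval ι s (cXE xe) [] = cX n J :=
  eval_fs h.fix.v0 fun i hi => by
    have e1 : eval ι s (.bv 0) ([] ++ [i]) = i := rfl
    rw [tr_andE, tr_sE h.fix (by rw [e1]; exact hi), hx.2 s _ _ h (by rw [e1]; exact hi), e1,
      hx.1]

lemma eval_cSE (h : Ctx n I0 s) : eval ι s cSE [] = (fs n I0.S).card :=
  eval_fs h.fix.v0 fun i hi => by
    have e1 : eval ι s (.bv 0) ([] ++ [i]) = i := rfl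
    rw [tr_sE h.fix (by rw [e1]; exact hi), e1]

lemma eval_fXE {xe : Expr → Expr} (h : Ctx n I0 s) (hx : AccX ι n I0 J xe) :
    eval ι s (fXE xe) [] = fX n J :=
  eval_fstE h.fix.v0 rfl fun i _ j hj => by
    rw [tr_andE, tr_sE h.fix (by rw [bv1]; exact hj), hx.2 s _ _ h (by rw [bv1]; exact hj), bv1,
      hx.1]

lemma eval_oXE {xe : Expr → Expr} (h : Ctx n I0 s) (hx : AccX ι n I0 J xe) :
    eval ι s (oXE xe) [] = oX n J (s.v 23) :=
  eval_fstE h.fix.v0 rfl fun i _ j hj => by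
    rw [tr_andE, tr_andE, tr_notE, tr_eqE, tr_sE h.fix (by rw [bv1]; exact hj),
      hx.2 s _ _ h (by rw [bv1]; exact hj), bv1, hx.1, eval_var]

lemma eval_nrE {xe : Expr → Expr} {b : ℕ} (h : Ctx n I0 s) (hx : AccX ι n I0 J xe)
    (hb : AccR ι n I0 J b) : eval ι s (nrE b xe) [] = fst n (NR n J) :=
  eval_fstE h.fix.v0 rfl fun i _ j hj => by
    have hj' : eval ι s (.bv 1) ([] ++ [i] ++ [j]) < n := by rw [bv1]; exact hj
    rw [NRE, NR, tr_andE, tr_andE, tr_sE h.fix hj', hx.2 s _ _ h hj', bv1, hx.1,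
      tr_ex (Q := fun z => I0.S z ∧ z ≠ j ∧ ¬ Rc n (rev J) j n z) h.fix.v0]
    intro z hz
    have e1 : eval ι s (.bv 1) ([] ++ [i] ++ [j] ++ [z]) = j := rfl
    have e2 : eval ι s (.bv 2) ([] ++ [i] ++ [j] ++ [z]) = z := rfl
    rw [tr_andE, tr_andE, tr_notE, tr_notE, tr_eqE, tr_sE h.fix (by rw [e2]; exact hz),
      hb s 3 (.bv 1) (.var 0) (.bv 2) _ h (stab_bv (by omega)) (stab_var 0) (by simp)
        (by rw [e1]; omega) (by rw [eval_var, h.fix.v0]) (by rw [e2]; exact hz), e1, e2,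
      eval_var, h.fix.v0]

lemma tr_covE (h : Ctx n I0 s) : tr ι s covE [] ↔ covI n I0 :=
  tr_al h.fix.v0 fun i hi => by
    have e1 : eval ι s (.bv 0) ([] ++ [i]) = i := rfl
    have hi' : eval ι s (.bv 0) ([] ++ [i]) < n := by rw [e1]; exact hi
    have h0 : eval ι s (.var 0) ([] ++ [i]) ≤ n := by rw [eval_var, h.fix.v0]
    rw [tr_impE, tr_andE, tr_sE h.fix hi', tr_RE7 (l := 0) h (stab_var 0) (stab_var 0)
      (Nat.zero_le _) h0 h0 hi', tr_RE8 (l := 0) h (stab_var 0) (stab_var 0) (Nat.zero_le _)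
      h0 h0 hi', e1, eval_var, h.fix.v0]

lemma tr_empE (h : Ctx n I0 s) : tr ι s empE [] ↔ ∀ i < n, ¬ I0.S i :=
  tr_al h.fix.v0 fun i hi => by
    have e1 : eval ι s (.bv 0) ([] ++ [i]) = i := rfl
    rw [tr_notE, tr_sE h.fix (by rw [e1]; exact hi), e1]

lemma tr_anyE (h : Ctx n I0 s) : tr ι s anyE [] ↔ ∃ i < n, I0.X i ∧ I0.Y i :=
  tr_ex h.fix.v0 fun i hi => by
    have e1 : eval ι s (.bv 0) ([] ++ [i]) = i := rfl
    rw [tr_andE, tr_xE h.fix (by rw [e1]; exact hi), tr_yE h.fix (by rw [e1]; exact hi), e1]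

lemma eval_cE (env : List ℕ) : eval ι s cE env = s.a 6 (s.v 16) := rfl

lemma tr_bE (h : Ctx n I0 s) (t : ℕ) (env : List ℕ) :
    tr ι s (bE t) env ↔ s.a 5 (8 * s.v 16 + t) ≠ 0 := by
  rw [tr_def, bE, eval_arr, eval_add, (stab_var (l := 0) 16).eval_mul 2 ι s env (Nat.zero_le _),
    h.fix.v2, eval_var, eval_lit]

lemma eval_cardA (h : Ctx n I0 s) (hu : s.v 23 < n) (hv : s.v 24 < n) :
    eval ι s (.sum 0 (boolE (sdAE (.var 23) (.var 24) (.bv 0)))) [] =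
      (fs n (sideA n I0 (s.v 23) (s.v 24))).card :=
  eval_fs h.fix.v0 fun i hi => by
    have e1 : eval ι s (.bv 0) ([] ++ [i]) = i := rfl
    rw [tr_sdAE (l := 0) h (stab_var 23) (stab_var 24) (Nat.zero_le _) hu.le hv.le
      (by rw [e1]; exact hi), e1, eval_var, eval_var]

lemma eval_cardB (h : Ctx n I0 s) (hu : s.v 23 < n) (hv : s.v 24 < n) :
    eval ι s (.sum 0 (boolE (sdBE (.var 23) (.var 24) (.bv 0)))) [] =
      (fs n (sideB n I0 (s.v 23) (s.v 24))).card :=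
  eval_fs h.fix.v0 fun i hi => by
    have e1 : eval ι s (.bv 0) ([] ++ [i]) = i := rfl
    rw [tr_sdBE (l := 0) h (stab_var 23) (stab_var 24) (Nat.zero_le _) hu.le hv.le
      (by rw [e1]; exact hi), e1, eval_var, eval_var]

end Eval

end Pool.Agent.Lib54.HP
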