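import Pool.Agent.Lib_helper54.HamPath.Mach3

/-!
# The machine: calls
-/

namespace Pool.Agent.Lib54.HP

open Finset Pool.Agent.Lib54.LP

/-! ### Effects -/

/-- The instance `J` was pushed. -/
structure Pushed (n : ℕ) (s s' : St) (J : Ins) : Prop where
  ro : ∀ y < 16, s'.v y = s.v y
  dn : s'.v 17 = s.v 17
  rs : s'.v 18 = s.v 18
  top : s'.v 16 = s.v 16 + 1
  a5 : s'.a 5 = s.a 5
  ins : insAt n s' (s.v 16 + 1) = J
  cn : s'.a 6 (s.v 16 + 1) = 0
  old : ∀ k ≤ s.v 16, insAt n s' k = insAt n s k ∧ s'.a 6 k = s.a 6 k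

/-- The value `r` was returned. -/
structure Popped (n : ℕ) (s s' : St) (r : Prop) : Prop where
  ro : ∀ y < 16, s'.v y = s.v y
  zero : s.v 16 = 0 → s'.v 17 ≠ 0 ∧ (s'.v 18 ≠ 0 ↔ r)
  succ : ∀ k, s.v 16 = k + 1 → s'.v 17 = s.v 17 ∧ s'.v 16 = k ∧
    (∀ j, insAt n s' j = insAt n s j) ∧ s'.a 6 k = s.a 6 k + 1 ∧
    (∀ j, j ≠ k → s'.a 6 j = s.a 6 j) ∧ (s'.a 5 (8 * k + s.a 6 k) ≠ 0 ↔ r) ∧
    ∀ z, z ≠ 8 * k + s.a 6 k → s'.a 5 z = s.a 5 z

/-- Only unimportant things are different. -/
structure Near (s s' : St) : Prop where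
  hv : ∀ y ≤ 18, s'.v y = s.v y
  ha : ∀ b, 1 ≤ b → b ≤ 6 → s'.a b = s.a b

lemma Near.refl (s : St) : Near s s := ⟨fun _ _ => rfl, fun _ _ _ => rfl⟩

lemma Near.trans {s s' s'' : St} (h : Near s s') (h' : Near s' s'') : Near s s'' :=
  ⟨fun y hy => (h'.hv y hy).trans (h.hv y hy), fun b h1 h2 => (h'.ha b h1 h2).trans (h.ha b h1 h2)⟩

lemma Near.setV {s s' : St} (h : Near s s') {x : ℕ} (hx : 18 < x) (i : ℕ) :
    Near s (s'.setV x i) :=
  ⟨fun y hy => by rw [St.setV_v, Function.update_of_ne (by omega)]; exact h.hv y hy, h.ha⟩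

lemma Near.ins {n : ℕ} {s s' : St} (h : Near s s') (k : ℕ) : insAt n s' k = insAt n s k :=
  insAt_congr (h.ha 1 (by omega) (by omega)) (h.ha 2 (by omega) (by omega))
    (h.ha 3 (by omega) (by omega)) (h.ha 4 (by omega) (by omega)) k

lemma Pushed.near {n : ℕ} {s s1 s' : St} {J : Ins} (h : Near s s1) (hp : Pushed n s1 s' J) :
    Pushed n s s' J := by
  obtain ⟨p1, p2, p3, p4, p5, p6, p7, p8⟩ := hp
  rw [h.hv 16 (by omega)] at p4 p6 p7 p8
  refine ⟨fun y hy => (p1 y hy).trans (h.hv y (by omega)), p2.trans (h.hv 17 (by omega)),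
    p3.trans (h.hv 18 (by omega)), p4, p5.trans (h.ha 5 (by omega) (by omega)), p6, p7,
    fun k hk => ⟨(p8 k hk).1.trans (h.ins k), ?_⟩⟩
  rw [(p8 k hk).2, h.ha 6 (by omega) (by omega)]

lemma Popped.near {n : ℕ} {s s1 s' : St} {r : Prop} (h : Near s s1) (hp : Popped n s1 s' r) :
    Popped n s s' r := by
  obtain ⟨p1, p2, p3⟩ := hp
  rw [h.hv 16 (by omega)] at p2 p3
  refine ⟨fun y hy => (p1 y hy).trans (h.hv y (by omega)), p2, fun k hk => ?_⟩
  obtain ⟨q1, q2, q3, q4, q5, q6, q7⟩ := p3 k hk
  rw [h.ha 6 (by omega) (by omega)] at q4 q5 q6 q7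
  rw [h.ha 5 (by omega) (by omega)] at q7
  exact ⟨q1.trans (h.hv 17 (by omega)), q2, fun j => (q3 j).trans (h.ins j), q4, q5, q6, q7⟩

lemma popC_spec (ι : ℕ → ℕ) {n : ℕ} {s : St} {e : Expr} {r : Prop} (h2 : s.v 2 = 8)
    (he : tr ι s e [] ↔ r) : Popped n s (run ι (popC e) s) r := by
  refine ⟨?_, ?_, ?_⟩
  · intro y hy
    rcases Nat.eq_zero_or_pos (s.v 16) with h | h
    · rw [popC_zero ι h]
      simp only [St.setV_v]
      rw [Function.update_of_ne (by omega), Function.update_of_ne (by omega),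
        Function.update_of_ne (by omega)]
    · obtain ⟨k, hk⟩ := Nat.exists_eq_add_of_lt h
      rw [zero_add] at hk
      rw [popC_succ ι hk h2]
      simp only [St.setV_v, St.setA_v]
      rw [Function.update_of_ne (by omega), Function.update_of_ne (by omega)]
  · intro h
    rw [popC_zero ι h]
    simp only [St.setV_v, Function.update_self]
    rw [Function.update_of_ne (by decide), Function.update_self]
    exact ⟨by decide, he⟩
  · intro k hk
    rw [popC_succ ι hk h2]
    refine ⟨?_, ?_, ?_, ?_, ?_, ?_, ?_⟩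
    · simp only [St.setV_v, St.setA_v]
      rw [Function.update_of_ne (by decide), Function.update_of_ne (by decide)]
    · simp only [St.setV_v, St.setA_v, Function.update_self]
    · intro j
      refine insAt_congr ?_ ?_ ?_ ?_ j <;>
      · simp only [St.setV_a, St.setA_a]
        rw [Function.update_of_ne (by decide), Function.update_of_ne (by decide)]
    · simp only [St.setV_a, St.setA_a, Function.update_self]
    · intro j hj
      simp only [St.setV_a, St.setA_a, Function.update_self]
      rw [Function.update_of_ne hj, Function.update_of_ne (by decide)]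
    · simp only [St.setV_a, St.setA_a]
      rw [Function.update_of_ne (by decide), Function.update_self, Function.update_self]
      exact he
    · intro z hz
      simp only [St.setV_a, St.setA_a]
      rw [Function.update_of_ne (by decide), Function.update_self, Function.update_of_ne hz]

/-! ### Pushing in an orientation -/

def jX (i : Expr) : Expr := .ite (.var 19) (yE i) (xE i)
def jY (i : Expr) : Expr := .ite (.var 19) (xE i) (yE i)
def jE (i j : Expr) : Expr := .ite (.var 19) (eRE i j) (eE i j)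

/-- The instance in the orientation `o`. -/
def ori (I0 : Ins) (o : ℕ) : Ins := if o = 0 then I0 else rev I0

lemma ori_S (I0 : Ins) (o : ℕ) : (ori I0 o).S = I0.S := by
  unfold ori
  split_ifs <;> rfl

section Eval
variable {ι : ℕ → ℕ} {s : St} {n l : ℕ} {env : List ℕ} {i j : Expr} {I0 : Ins}

lemma tr_jX (h : Fix n I0 s) (hi : eval ι s i env < n) :
    tr ι s (jX i) env ↔ (ori I0 (s.v 19)).X (eval ι s i env) := by
  rw [tr_def, jX, eval_ite, eval_var, ori]
  split_ifs with h0
  · exact tr_xE h hi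
  · exact tr_yE h hi

lemma tr_jY (h : Fix n I0 s) (hi : eval ι s i env < n) :
    tr ι s (jY i) env ↔ (ori I0 (s.v 19)).Y (eval ι s i env) := by
  rw [tr_def, jY, eval_ite, eval_var, ori]
  split_ifs with h0
  · exact tr_yE h hi
  · exact tr_xE h hi

lemma tr_jE (h : Fix n I0 s) (hsi : Stab l i) (hsj : Stab l j) (hl : l ≤ env.length)
    (hi : eval ι s i env < n) (hj : eval ι s j env < n) :
    tr ι s (jE i j) env ↔ (ori I0 (s.v 19)).E (eval ι s i env) (eval ι s j env) := by
  rw [tr_def, jE, eval_ite, eval_var, ori]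
  split_ifs with h0
  · exact tr_eE h hsi hl hi hj
  · exact tr_eRE h hsj hl hi hj

end Eval

def pushB : Cmd := pushC (.arr 10 (.var 26)) (jX (.var 26))
  (orE (andE (.arr 10 (.var 26)) (andE (jE (.var 26) (.var 21))
    (notE (andE (.var 22) (eqE (.var 26) (.var 20)))))) (eqE (.var 26) (.var 21)))
  (orE (jE (.var 26) (.var 27)) (andE (.var 22) (eqE (.var 26) (.var 20))))

theorem pushB_spec (ι : ℕ → ℕ) {n : ℕ} {I0 : Ins} {s : St} (h : Fix n I0 s)
    (hq : s.v 21 < n) : Pushed n s (run ι pushB s)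
      (bas n (ori I0 (s.v 19)) (fun i => s.a 10 i ≠ 0) (s.v 20) (s.v 21) (s.v 22 ≠ 0)) := by
  have hF : ∀ i, Fix n I0 (s.setV 26 i) := fun i => h.setV (by omega) i
  have hF2 : ∀ i j, Fix n I0 ((s.setV 26 i).setV 27 j) := fun i j => (hF i).setV (by omega) j
  have e26 : ∀ i env, eval ι (s.setV 26 i) (.var 26) env = i := fun i env => by
    rw [eval_var, St.setV_v, Function.update_self]
  have e19 : ∀ i, (s.setV 26 i).v 19 = s.v 19 := fun i => by
    rw [St.setV_v, Function.update_of_ne (by decide)]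
  have e20 : ∀ i, (s.setV 26 i).v 20 = s.v 20 := fun i => by
    rw [St.setV_v, Function.update_of_ne (by decide)]
  have e21 : ∀ i, (s.setV 26 i).v 21 = s.v 21 := fun i => by
    rw [St.setV_v, Function.update_of_ne (by decide)]
  have e22 : ∀ i, (s.setV 26 i).v 22 = s.v 22 := fun i => by
    rw [St.setV_v, Function.update_of_ne (by decide)]
  obtain ⟨g1, g2, g3, g4, g5, g6⟩ := pushC_spec ι (s := s) (e1 := .arr 10 (.var 26))
    (e2 := jX (.var 26))
    (e3 := orE (andE (.arr 10 (.var 26)) (andE (jE (.var 26) (.var 21))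
      (notE (andE (.var 22) (eqE (.var 26) (.var 20)))))) (eqE (.var 26) (.var 21)))
    (e4 := orE (jE (.var 26) (.var 27)) (andE (.var 22) (eqE (.var 26) (.var 20))))
    (J := bas n (ori I0 (s.v 19)) (fun i => s.a 10 i ≠ 0) (s.v 20) (s.v 21) (s.v 22 ≠ 0))
    h.v0 (by rfl) (by rfl) (by rfl) (by rfl)
    (by
      intro i
      show (i < n ∧ s.a 10 i ≠ 0) ↔ _
      rw [tr_def, eval_arr, e26, St.setV_a])
    (by
      intro i
      show (i < n ∧ _) ↔ _
      refine and_congr_right fun hi => ?_
      rw [tr_jX (hF i) (by rw [e26]; exact hi), e26, e19])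
    (by
      intro i
      show (i < n ∧ _) ↔ _
      refine and_congr_right fun hi => ?_
      rw [tr_orE, tr_andE, tr_andE, tr_notE, tr_andE, tr_eqE, tr_eqE,
        tr_jE (l := 0) (hF i) (stab_var 26) (stab_var 21) (Nat.zero_le _)
          (by rw [e26]; exact hi) (by rw [eval_var, e21]; exact hq), tr_def, tr_def, eval_arr,
        e26, St.setV_a, eval_var, eval_var, eval_var, e19, e20, e21, e22])
    (by
      intro i j
      show (i < n ∧ j < n ∧ _) ↔ _
      refine and_congr_right fun hi => and_congr_right fun hj => ?_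
      have f26 : eval ι ((s.setV 26 i).setV 27 j) (.var 26) [] = i := by
        rw [eval_var, St.setV_v, Function.update_of_ne (by decide), St.setV_v,
          Function.update_self]
      have f27 : eval ι ((s.setV 26 i).setV 27 j) (.var 27) [] = j := by
        rw [eval_var, St.setV_v, Function.update_self]
      have f19 : ((s.setV 26 i).setV 27 j).v 19 = s.v 19 := by
        rw [St.setV_v, Function.update_of_ne (by decide), e19]
      have f20 : ((s.setV 26 i).setV 27 j).v 20 = s.v 20 := by
        rw [St.setV_v, Function.update_of_ne (by decide), e20]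
      have f22 : ((s.setV 26 i).setV 27 j).v 22 = s.v 22 := by
        rw [St.setV_v, Function.update_of_ne (by decide), e22]
      rw [tr_orE, tr_andE, tr_eqE,
        tr_jE (l := 0) (hF2 i j) (stab_var 26) (stab_var 27) (Nat.zero_le _)
          (by rw [f26]; exact hi) (by rw [f27]; exact hj), tr_def, f26, f27, eval_var, eval_var,
        f19, f20, f22])
  exact ⟨fun y hy => g1 y (by omega) (by omega) (by omega), g1 17 (by omega) (by omega)
    (by omega), g1 18 (by omega) (by omega) (by omega), g2, g3, g4, g5, g6⟩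

/-! ### Pushing the reduced instance -/

def hc1 : Expr := andE (eqE (.var 26) (.var 23)) (eqE (.var 27) (.var 24))
def hc2 : Expr := andE (eqE (.var 26) (.var 24)) (eqE (.var 27) (.var 23))

def pushH : Cmd := pushC (andE (sE (.var 26)) (notE (.arr 9 (.var 26))))
  (orE (andE (eqE (.var 26) (.var 23)) (orE (bE 2) (bE 0)))
    (andE (eqE (.var 26) (.var 24)) (orE (bE 3) (bE 1))))
  (jY (.var 26))
  (orE (andE hc1 (orE (bE 4) (orE (andE (bE 0) (bE 1)) (notE (orE (bE 2) (bE 0))))))
    (orE (andE hc2 (orE (bE 5) (orE (andE (bE 0) (bE 1)) (notE (orE (bE 3) (bE 1))))))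
      (andE (notE hc1) (andE (notE hc2) (orE (jE (.var 26) (.var 27))
        (orE (andE (eqE (.var 27) (.var 24)) (bE 0))
          (andE (eqE (.var 27) (.var 23)) (bE 1))))))))

/-- The answers of the frame `k`. -/
def bits (s : St) (k t : ℕ) : Prop := t < 8 ∧ s.a 5 (8 * k + t) ≠ 0

theorem pushH_spec (ι : ℕ → ℕ) {n : ℕ} {I0 : Ins} {s : St} (h : Ctx n I0 s) :
    Pushed n s (run ι pushH s)
      (h1 n (ori I0 (s.v 19)) (fun i => s.a 9 i ≠ 0) (s.v 23) (s.v 24) (bits s (s.v 16))) := by
  have hF : ∀ i, Ctx n I0 (s.setV 26 i) := fun i => h.setV (by omega) i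
  have hF2 : ∀ i j, Ctx n I0 ((s.setV 26 i).setV 27 j) := fun i j => (hF i).setV (by omega) j
  have e26 : ∀ i env, eval ι (s.setV 26 i) (.var 26) env = i := fun i env => by
    rw [eval_var, St.setV_v, Function.update_self]
  have ev : ∀ i y, y ≠ 26 → (s.setV 26 i).v y = s.v y := fun i y hy => by
    rw [St.setV_v, Function.update_of_ne hy]
  have ev2 : ∀ i j y, y ≠ 26 → y ≠ 27 → ((s.setV 26 i).setV 27 j).v y = s.v y :=
    fun i j y hy hy' => by
      rw [St.setV_v, Function.update_of_ne hy', ev i y hy]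
  have hb1 : ∀ i t, t < 8 → (tr ι (s.setV 26 i) (bE t) [] ↔ bits s (s.v 16) t) := by
    intro i t ht
    rw [tr_bE (hF i), ev i 16 (by decide), St.setV_a]
    exact ⟨fun h => ⟨ht, h⟩, fun h => h.2⟩
  have hb2 : ∀ i j t, t < 8 → (tr ι ((s.setV 26 i).setV 27 j) (bE t) [] ↔
      bits s (s.v 16) t) := by
    intro i j t ht
    rw [tr_bE (hF2 i j), ev2 i j 16 (by decide) (by decide), St.setV_a, St.setV_a]
    exact ⟨fun h => ⟨ht, h⟩, fun h => h.2⟩
  obtain ⟨g1, g2, g3, g4, g5, g6⟩ := pushC_spec ι (s := s)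
    (e1 := andE (sE (.var 26)) (notE (.arr 9 (.var 26))))
    (e2 := orE (andE (eqE (.var 26) (.var 23)) (orE (bE 2) (bE 0)))
      (andE (eqE (.var 26) (.var 24)) (orE (bE 3) (bE 1))))
    (e3 := jY (.var 26))
    (e4 := orE (andE hc1 (orE (bE 4) (orE (andE (bE 0) (bE 1)) (notE (orE (bE 2) (bE 0))))))
      (orE (andE hc2 (orE (bE 5) (orE (andE (bE 0) (bE 1)) (notE (orE (bE 3) (bE 1))))))
        (andE (notE hc1) (andE (notE hc2) (orE (jE (.var 26) (.var 27))
          (orE (andE (eqE (.var 27) (.var 24)) (bE 0))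
            (andE (eqE (.var 27) (.var 23)) (bE 1))))))))
    (J := h1 n (ori I0 (s.v 19)) (fun i => s.a 9 i ≠ 0) (s.v 23) (s.v 24) (bits s (s.v 16)))
    h.fix.v0 (by rfl) (by rfl) (by rfl) (by rfl)
    (by
      intro i
      show (i < n ∧ _) ↔ _
      refine and_congr_right fun hi => ?_
      rw [tr_andE, tr_notE, tr_sE (hF i).fix (by rw [e26]; exact hi), tr_def, eval_arr, e26,
        St.setV_a, ori_S])
    (by
      intro i
      show (i < n ∧ _) ↔ _
      refine and_congr_right fun hi => ?_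
      rw [tr_orE, tr_andE, tr_andE, tr_orE, tr_orE, tr_eqE, tr_eqE, hb1 i 2 (by omega),
        hb1 i 0 (by omega), hb1 i 3 (by omega), hb1 i 1 (by omega), e26, eval_var, eval_var,
        ev i 23 (by decide), ev i 24 (by decide)])
    (by
      intro i
      show (i < n ∧ _) ↔ _
      refine and_congr_right fun hi => ?_
      rw [tr_jY (hF i).fix (by rw [e26]; exact hi), e26, ev i 19 (by decide)])
    (by
      intro i j
      show (i < n ∧ j < n ∧ _) ↔ _
      refine and_congr_right fun hi => and_congr_right fun hj => ?_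
      have f26 : eval ι ((s.setV 26 i).setV 27 j) (.var 26) [] = i := by
        rw [eval_var, St.setV_v, Function.update_of_ne (by decide), St.setV_v,
          Function.update_self]
      have f27 : eval ι ((s.setV 26 i).setV 27 j) (.var 27) [] = j := by
        rw [eval_var, St.setV_v, Function.update_self]
      have hh1 : tr ι ((s.setV 26 i).setV 27 j) hc1 [] ↔ (i = s.v 23 ∧ j = s.v 24) := by
        rw [hc1, tr_andE, tr_eqE, tr_eqE, f26, f27, eval_var, eval_var,
          ev2 i j 23 (by decide) (by decide), ev2 i j 24 (by decide) (by decide)]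
      have hh2 : tr ι ((s.setV 26 i).setV 27 j) hc2 [] ↔ (i = s.v 24 ∧ j = s.v 23) := by
        rw [hc2, tr_andE, tr_eqE, tr_eqE, f26, f27, eval_var, eval_var,
          ev2 i j 23 (by decide) (by decide), ev2 i j 24 (by decide) (by decide)]
      simp only [tr_orE, tr_andE, tr_notE, tr_eqE, hh1, hh2, hb2 i j 0 (by omega),
        hb2 i j 1 (by omega), hb2 i j 2 (by omega), hb2 i j 3 (by omega), hb2 i j 4 (by omega),
        hb2 i j 5 (by omega), f27]
      rw [tr_jE (l := 0) (hF2 i j).fix (stab_var 26) (stab_var 27) (Nat.zero_le _)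
          (by rw [f26]; exact hi) (by rw [f27]; exact hj), f26, f27,
        ev2 i j 19 (by decide) (by decide), eval_var, eval_var,
        ev2 i j 23 (by decide) (by decide), ev2 i j 24 (by decide) (by decide)])
  exact ⟨fun y hy => g1 y (by omega) (by omega) (by omega), g1 17 (by omega) (by omega)
    (by omega), g1 18 (by omega) (by omega) (by omega), g2, g3, g4, g5, g6⟩

/-! ### Calls -/

def callM (o : ℕ) (m : Expr) : Cmd := .seq (.set 19 (.lit o)) (.seq (.set 20 (.var 23))
  (.seq (.set 21 (.var 23)) (.seq (.set 22 (.lit 0)) (.seq (fill 26 0 10 m) pushB))))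

theorem callM_spec (ι : ℕ → ℕ) {n : ℕ} {I0 : Ins} {s : St} (h : Ctx n I0 s) {x o : ℕ}
    {m : Expr} {M : ℕ → Prop} (hx : s.v 23 = x) (hxn : x < n) (hm : hi 10 m = false)
    (hM : ∀ s', Ctx n I0 s' → s'.v 23 = x → ∀ i < n, s'.v 26 = i → (tr ι s' m [] ↔ M i)) :
    Pushed n s (run ι (callM o m) s) (bas n (ori I0 o) M x x False) := by
  set s4 : St := (((s.setV 19 o).setV 20 x).setV 21 x).setV 22 0 with hs4
  have hrun : run ι (callM o m) s = run ι pushB (run ι (fill 26 0 10 m) s4) := by
    simp only [callM, run, eval_lit, eval_var, St.setV_v, hs4]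
    simp only [Function.update_of_ne (show (23 : ℕ) ≠ 19 by decide),
      Function.update_of_ne (show (23 : ℕ) ≠ 20 by decide), hx]
  have h4 : Ctx n I0 s4 := (((h.setV (by omega) _).setV (by omega) _).setV (by omega) _).setV
    (by omega) _
  have n4 : Near s s4 := ((((Near.refl s).setV (by omega) _).setV (by omega) _).setV
    (by omega) _).setV (by omega) _
  have v19 : s4.v 19 = o := by simp [hs4, Function.update_of_ne]
  have v20 : s4.v 20 = x := by simp [hs4, Function.update_of_ne]
  have v21 : s4.v 21 = x := by simp [hs4, Function.update_of_ne]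
  have v22 : s4.v 22 = 0 := by simp [hs4]
  have v23 : s4.v 23 = x := by simp [hs4, Function.update_of_ne, hx]
  obtain ⟨f1, f2, f3⟩ := run_fill ι (x := 26) (r := 0) (b := 10)
    (readsA_of_hi le_rfl m hm) s4
  set s5 := run ι (fill 26 0 10 m) s4 with hs5
  have h5 : Ctx n I0 s5 := h4.congr (fun y hy => f1 y (by omega))
    (fun b h1 h2 => f2 b (by omega))
  have n5 : Near s s5 := n4.trans ⟨fun y hy => f1 y (by omega), fun b h1 h2 => f2 b (by omega)⟩
  have hp := pushB_spec ι h5.fix (by rw [f1 21 (by decide), v21]; exact hxn)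
  rw [f1 19 (by decide), f1 20 (by decide), f1 21 (by decide), f1 22 (by decide), v19, v20, v21,
    v22] at hp
  rw [hrun]
  refine Pushed.near n5 ?_
  have hfin : bas n (ori I0 o) (fun i => s5.a 10 i ≠ 0) x x (0 ≠ 0) =
      bas n (ori I0 o) M x x False := by
    have hM' : ∀ i < n, (s5.a 10 i ≠ 0 ↔ M i) := by
      intro i hi
      rw [f3 i, if_pos (by rw [h4.fix.v0]; exact hi)]
      exact hM _ (h4.setV (by omega) i) (by
        rw [St.setV_v, Function.update_of_ne (by decide), v23]) i hi (by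
        rw [St.setV_v, Function.update_self])
    unfold bas
    apply Ins.ext
    · funext i
      exact propext (and_congr_right fun hi => hM' i hi)
    · rfl
    · funext i
      refine propext (and_congr_right fun hi => or_congr (and_congr (hM' i hi) ?_) Iff.rfl)
      simp
    · funext i j
      refine propext (and_congr_right fun hi => and_congr_right fun hj => or_congr Iff.rfl ?_)
      simp
  rw [← hfin]
  exact hp

/-- Deletion of the first vertex, which is in variable 23. -/
def delC (o : ℕ) : Cmd := callM o (andE (sE (.var 26)) (notE (eqE (.var 26) (.var 23))))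

theorem delC_spec (ι : ℕ → ℕ) {n : ℕ} {I0 J : Ins} {s : St} (h : Ctx n I0 s) {x o : ℕ}
    (hx : s.v 23 = x) (hxn : x < n) (hJ : rev J = ori I0 o) :
    Pushed n s (run ι (delC o) s) (del n J x) := by
  have hS : J.S = I0.S := by rw [← ori_S I0 o, ← hJ]; rfl
  have := callM_spec ι h (o := o) (m := andE (sE (.var 26)) (notE (eqE (.var 26) (.var 23))))
    (M := fun z => J.S z ∧ z ≠ x) hx hxn (by rfl) (by
      intro s' hs' h23 i hi h26
      rw [tr_andE, tr_notE, tr_eqE, tr_sE hs'.fix (by rw [eval_var, h26]; exact hi), eval_var,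
        eval_var, h26, h23, hS])
  rw [del, hJ]
  exact this

end Pool.Agent.Lib54.HP
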