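import Pool.Agent.Lib_helper54.HamPath.Mach4

/-!
# The machine: the step
-/

namespace Pool.Agent.Lib54.HP

open Finset Pool.Agent.Lib54.LP

/-- The result of a step. -/
def StepOk (n : ℕ) (s s' : St) (I0 : Ins) : Prop :=
  (∃ J, next n I0 (s.a 6 (s.v 16)) (bits s (s.v 16)) = .inl J ∧ Pushed n s s' J) ∨
  (∃ r, next n I0 (s.a 6 (s.v 16)) (bits s (s.v 16)) = .inr r ∧ Popped n s s' r)

def m1C : Cmd := .ite (eqE cE (.lit 0)) (callM 0 (sdAE (.var 23) (.var 0) (.var 26)))
  (.ite (eqE cE (.lit 1)) (callM 1 (sdBE (.var 23) (.var 0) (.var 26)))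
    (popC (andE (bE 0) (bE 1))))

def pE : Expr := .ite (orE (eqE cE (.lit 0)) (orE (eqE cE (.lit 2)) (eqE cE (.lit 4))))
  (.var 23) (.var 24)
def qE : Expr := .ite (orE (eqE cE (.lit 0)) (orE (eqE cE (.lit 4)) (eqE cE (.lit 3))))
  (.var 24) (.var 23)

def call2C : Cmd := .seq (.set 20 pE) (.seq (.set 21 qE) (.seq (.set 22 (ltE cE (.lit 2)))
  (.seq (fill 26 0 10 (orE (.arr 9 (.var 26))
    (andE (notE (andE (leE (.lit 2) cE) (ltE cE (.lit 4)))) (eqE (.var 26) (.var 20)))))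
    pushB)))

def m2C : Cmd := .seq (.set 24 vE)
  (.seq (.set 19 (ltE (.sum 0 (boolE (sdBE (.var 23) (.var 24) (.bv 0))))
    (.sum 0 (boolE (sdAE (.var 23) (.var 24) (.bv 0))))))
  (.seq (fill 26 0 9 (.ite (.var 19) (sdBE (.var 23) (.var 24) (.var 26))
    (sdAE (.var 23) (.var 24) (.var 26))))
  (.ite (ltE cE (.lit 6)) call2C (.ite (eqE cE (.lit 6)) pushH (popC (bE 6))))))

def m3C : Cmd := .seq (.set 23 (fXE xE)) (.ite (eqE cE (.lit 0)) (delC 1)
  (.ite (eqE cE (.lit 1)) (.seq (.set 23 (oXE xE)) (delC 1)) (popC (orE (bE 0) (bE 1)))))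

def m45C (xe : Expr → Expr) (o : ℕ) : Cmd :=
  .ite (eqE cE (.lit 0)) (.seq (.set 23 (oXE xe)) (delC o)) (popC (bE 0))

def rest4 : Cmd := .seq (.set 23 (nrE 7 yE))
  (.ite (andE (eqE (cXE yE) (.lit 2)) (ltE (.var 23) (.var 0))) (m45C yE 0) (popC covE))

def rest3 : Cmd := .seq (.set 23 (nrE 8 xE))
  (.ite (andE (eqE (cXE xE) (.lit 2)) (ltE (.var 23) (.var 0))) (m45C xE 1) rest4)

def rest2 : Cmd := .ite (andE (eqE (cXE xE) (.lit 2)) (leE cSE (.lit 6))) m3C rest3

def rest1 : Cmd := .seq (.set 23 uE) (.ite (ltE (.var 23) (.var 0)) m2C rest2)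

def mainC : Cmd := .ite empE (popC anyE)
  (.seq (.set 23 wE) (.ite (ltE (.var 23) (.var 0)) m1C rest1))

lemma run_ite (ι : ℕ → ℕ) (e : Expr) (c d : Cmd) (s : St) :
    (tr ι s e [] → run ι (.ite e c d) s = run ι c s) ∧
    (¬ tr ι s e [] → run ι (.ite e c d) s = run ι d s) := by
  constructor
  · intro h
    simp only [run]
    rw [if_neg h]
  · intro h
    simp only [run]
    rw [if_pos (by simpa [tr] using h)]

section
variable {ι : ℕ → ℕ} {n : ℕ} {I0 : Ins} {s : St}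

/-- The number of answers, in a near state. -/
lemma near_c {s s1 : St} (h : Near s s1) (env : List ℕ) :
    eval ι s1 cE env = s.a 6 (s.v 16) := by
  rw [eval_cE, h.hv 16 (by omega), h.ha 6 (by omega) (by omega)]

lemma near_b {s s1 : St} (h : Near s s1) (h1 : Ctx n I0 s1) {t : ℕ} (ht : t < 8)
    (env : List ℕ) : tr ι s1 (bE t) env ↔ bits s (s.v 16) t := by
  rw [tr_bE h1, h.hv 16 (by omega), h.ha 5 (by omega) (by omega)]
  exact ⟨fun h => ⟨ht, h⟩, fun h => h.2⟩

lemma near_bits {s s1 : St} (h : Near s s1) : bits s1 (s1.v 16) = bits s (s.v 16) := by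
  funext t
  unfold bits
  rw [h.hv 16 (by omega), h.ha 5 (by omega) (by omega)]

/-- One-vertex split. -/
lemma m1_ok {s1 : St} (hs : Near s s1) (h : Ctx n I0 s1) (h0 : ¬ ∀ i < n, ¬ I0.S i)
    (h23 : s1.v 23 = fst n (P1 n I0)) (hw : fst n (P1 n I0) < n) :
    StepOk n s (run ι m1C s1) I0 := by
  unfold StepOk
  rw [next, if_neg h0, if_pos hw]
  set w := fst n (P1 n I0)
  obtain ⟨i1, i2⟩ := run_ite ι (eqE cE (.lit 0)) (callM 0 (sdAE (.var 23) (.var 0) (.var 26)))
    (.ite (eqE cE (.lit 1)) (callM 1 (sdBE (.var 23) (.var 0) (.var 26)))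
    (popC (andE (bE 0) (bE 1)))) s1
  obtain ⟨i3, i4⟩ := run_ite ι (eqE cE (.lit 1)) (callM 1 (sdBE (.var 23) (.var 0) (.var 26)))
    (popC (andE (bE 0) (bE 1))) s1
  rw [tr_eqE, near_c hs, eval_lit] at i1 i2 i3 i4
  by_cases c0 : s.a 6 (s.v 16) = 0
  · left
    rw [if_pos c0]
    refine ⟨_, rfl, Pushed.near hs ?_⟩
    unfold m1C
    rw [i1 c0]
    refine callM_spec ι h (x := w) (o := 0) h23 hw (by rfl) ?_
    intro s' hs' g23 i hi g26
    rw [tr_sdAE (l := 0) hs' (stab_var 23) (stab_var 0) (Nat.zero_le _)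
      (by rw [eval_var, g23]; exact hw.le) (by rw [eval_var, hs'.fix.v0])
      (by rw [eval_var, g26]; exact hi), eval_var, eval_var, eval_var, g23, g26, hs'.fix.v0]
  rw [if_neg c0]
  unfold m1C
  rw [i2 c0]
  by_cases c1 : s.a 6 (s.v 16) = 1
  · left
    rw [if_pos c1]
    refine ⟨_, rfl, Pushed.near hs ?_⟩
    rw [i3 c1]
    refine callM_spec ι h (x := w) (o := 1) h23 hw (by rfl) ?_
    intro s' hs' g23 i hi g26
    rw [tr_sdBE (l := 0) hs' (stab_var 23) (stab_var 0) (Nat.zero_le _)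
      (by rw [eval_var, g23]; exact hw.le) (by rw [eval_var, hs'.fix.v0])
      (by rw [eval_var, g26]; exact hi), eval_var, eval_var, eval_var, g23, g26, hs'.fix.v0]
  · right
    rw [if_neg c1, i4 c1]
    refine ⟨_, rfl, Popped.near hs (popC_spec ι h.fix.v2 ?_)⟩
    rw [tr_andE, near_b hs h (by omega), near_b hs h (by omega)]

/-- The calls of a two-vertex split. -/
lemma call2_ok {s1 : St} (hs : Near s s1) (h : Ctx n I0 s1) {u v : ℕ}
    (h23 : s1.v 23 = u) (h24 : s1.v 24 = v) (hu : u < n) (hv : v < n) {A : ℕ → Prop}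
    (hA : ∀ i < n, (s1.a 9 i ≠ 0 ↔ A i)) (hc : s.a 6 (s.v 16) < 6) :
    Pushed n s (run ι call2C s1) (ch2 n (ori I0 (s1.v 19)) A u v (s.a 6 (s.v 16))) := by
  set c := s.a 6 (s.v 16) with hcdef
  set p := if c = 0 ∨ c = 2 ∨ c = 4 then u else v with hp
  set q := if c = 0 ∨ c = 4 ∨ c = 3 then v else u with hq
  have hpn : p < n := by rw [hp]; split_ifs <;> assumption
  have hqn : q < n := by rw [hq]; split_ifs <;> assumption
  have ep : ∀ s2 : St, Near s s2 → s2.v 23 = u → s2.v 24 = v → eval ι s2 pE [] = p := by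
    intro s2 hs2 g23 g24
    rw [pE, eval_ite, eval_var, eval_var, g23, g24, hp]
    have : eval ι s2 (orE (eqE cE (.lit 0)) (orE (eqE cE (.lit 2)) (eqE cE (.lit 4)))) [] ≠ 0 ↔
        c = 0 ∨ c = 2 ∨ c = 4 := by
      rw [← tr_def, tr_orE, tr_orE, tr_eqE, tr_eqE, tr_eqE, near_c hs2, eval_lit, eval_lit,
        eval_lit]
    by_cases hh : c = 0 ∨ c = 2 ∨ c = 4
    · rw [if_neg (this.2 hh), if_pos hh]
    · rw [if_pos (by by_contra h'; exact hh (this.1 h')), if_neg hh]
  have eq' : ∀ s2 : St, Near s s2 → s2.v 23 = u → s2.v 24 = v → eval ι s2 qE [] = q := by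
    intro s2 hs2 g23 g24
    rw [qE, eval_ite, eval_var, eval_var, g23, g24, hq]
    have : eval ι s2 (orE (eqE cE (.lit 0)) (orE (eqE cE (.lit 4)) (eqE cE (.lit 3)))) [] ≠ 0 ↔
        c = 0 ∨ c = 4 ∨ c = 3 := by
      rw [← tr_def, tr_orE, tr_orE, tr_eqE, tr_eqE, tr_eqE, near_c hs2, eval_lit, eval_lit,
        eval_lit]
    by_cases hh : c = 0 ∨ c = 4 ∨ c = 3
    · rw [if_neg (this.2 hh), if_pos hh]
    · rw [if_pos (by by_contra h'; exact hh (this.1 h')), if_neg hh]
  set s2 := s1.setV 20 p with hs2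
  have n2 : Near s s2 := hs.setV (by omega) _
  set s3 := s2.setV 21 q with hs3
  have n3 : Near s s3 := n2.setV (by omega) _
  set ff := eval ι s3 (ltE cE (.lit 2)) [] with hff
  have hff' : ff ≠ 0 ↔ c < 2 := by
    rw [hff, ← tr_def, tr_ltE, near_c n3, eval_lit]
  set s4 := s3.setV 22 ff with hs4
  have n4 : Near s s4 := n3.setV (by omega) _
  have h4 : Ctx n I0 s4 := ((h.setV (by omega) _).setV (by omega) _).setV (by omega) _
  set m : Expr := orE (.arr 9 (.var 26))
    (andE (notE (andE (leE (.lit 2) cE) (ltE cE (.lit 4)))) (eqE (.var 26) (.var 20))) with hm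
  have hrun : run ι call2C s1 = run ι pushB (run ι (fill 26 0 10 m) s4) := by
    have e1 : run ι (.set 20 pE) s1 = s2 := by
      simp only [run]
      rw [ep s1 hs h23 h24]
    have e2 : run ι (.set 21 qE) s2 = s3 := by
      simp only [run]
      rw [eq' s2 n2 (by rw [hs2, St.setV_v, Function.update_of_ne (by decide), h23])
        (by rw [hs2, St.setV_v, Function.update_of_ne (by decide), h24])]
    show run ι pushB (run ι (fill 26 0 10 m) (run ι (.set 22 (ltE cE (.lit 2)))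
      (run ι (.set 21 qE) (run ι (.set 20 pE) s1)))) = _
    rw [e1, e2]
    rfl
  obtain ⟨f1, f2, f3⟩ := run_fill ι (x := 26) (r := 0) (b := 10) (e := m)
    (readsA_of_hi le_rfl m (by rfl)) s4
  set s5 := run ι (fill 26 0 10 m) s4 with hs5
  have h5 : Ctx n I0 s5 := h4.congr (fun y hy => f1 y (by omega))
    (fun b h1 h2 => f2 b (by omega))
  have n5 : Near s s5 := n4.trans ⟨fun y hy => f1 y (by omega), fun b h1 h2 => f2 b (by omega)⟩
  have v19 : s5.v 19 = s1.v 19 := by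
    rw [f1 19 (by decide)]
    simp [hs4, hs3, hs2, Function.update_of_ne]
  have v20 : s5.v 20 = p := by
    rw [f1 20 (by decide)]
    simp [hs4, hs3, hs2, Function.update_of_ne]
  have v21 : s5.v 21 = q := by
    rw [f1 21 (by decide)]
    simp [hs4, hs3, Function.update_of_ne]
  have v22 : s5.v 22 = ff := by
    rw [f1 22 (by decide)]
    simp [hs4]
  have hpush := pushB_spec ι h5.fix (by rw [v21]; exact hqn)
  rw [v19, v20, v21, v22] at hpush
  have hMi : ∀ i < n, (s5.a 10 i ≠ 0 ↔ A i ∨ (¬ (2 ≤ c ∧ c < 4) ∧ i = p)) := by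
    intro i hi
    rw [f3 i, if_pos (by rw [h4.fix.v0]; exact hi)]
    have g9 : ∀ k, (s4.setV 26 k).a 9 = s1.a 9 := fun k => rfl
    have g20 : (s4.setV 26 i).v 20 = p := by
      simp [hs4, hs3, hs2, Function.update_of_ne]
    have g26 : (s4.setV 26 i).v 26 = i := by simp
    have n6 : Near s (s4.setV 26 i) := n4.setV (by omega) _
    rw [← tr_def, hm, tr_orE, tr_andE, tr_notE, tr_andE, tr_leE, tr_ltE, tr_eqE, near_c n6,
      tr_def, eval_arr, eval_var, eval_var, eval_lit, eval_lit, g9, g20, g26, hA i hi]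
  rw [hrun]
  refine Pushed.near n5 ?_
  have hfin : bas n (ori I0 (s1.v 19)) (fun i => s5.a 10 i ≠ 0) p q (ff ≠ 0) =
      ch2 n (ori I0 (s1.v 19)) A u v c := by
    unfold ch2
    have key : ∀ (M' : ℕ → Prop) (p' q' : ℕ) (ff' : Prop), (∀ i < n, (s5.a 10 i ≠ 0 ↔ M' i)) →
        q = q' → (ff ≠ 0 ↔ ff') → (p = p') → bas n (ori I0 (s1.v 19)) (fun i => s5.a 10 i ≠ 0)
          p q (ff ≠ 0) = bas n (ori I0 (s1.v 19)) M' p' q' ff' := by
      intro M' p' q' ff' hM' hq' hff'' hp'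
      subst hq' hp'
      have hfe : (ff ≠ 0) = ff' := propext hff''
      rw [hfe]
      unfold bas
      apply Ins.ext
      · funext i
        exact propext (and_congr_right fun hi => hM' i hi)
      · rfl
      · funext i
        exact propext (and_congr_right fun hi => or_congr (and_congr (hM' i hi) Iff.rfl) Iff.rfl)
      · rfl
    by_cases c2 : c < 2
    · rw [if_pos c2]
      have hc01 : c = 0 ∨ c = 1 := by omega
      refine key _ _ _ _ (fun i hi => ?_) ?_ ?_ ?_
      · rw [hMi i hi]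
        rcases hc01 with h' | h' <;> simp [hp, h']
      · rcases hc01 with h' | h' <;> simp [hq, h']
      · rw [hff']
        simp [c2]
      · rcases hc01 with h' | h' <;> simp [hp, h']
    · rw [if_neg c2]
      by_cases c4 : c < 4
      · rw [if_pos c4]
        have hc23 : c = 2 ∨ c = 3 := by omega
        refine key _ _ _ _ (fun i hi => ?_) ?_ ?_ ?_
        · rw [hMi i hi]
          rcases hc23 with h' | h' <;> simp [h']
        · rcases hc23 with h' | h' <;> simp [hq, h']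
        · rw [hff']
          simp [c2]
        · rcases hc23 with h' | h' <;> simp [hp, h']
      · rw [if_neg c4]
        have hc45 : c = 4 ∨ c = 5 := by omega
        refine key _ _ _ _ (fun i hi => ?_) ?_ ?_ ?_
        · rw [hMi i hi]
          rcases hc45 with h' | h' <;> simp [hp, h']
        · rcases hc45 with h' | h' <;> simp [hq, h']
        · rw [hff']
          simp [c2]
        · rcases hc45 with h' | h' <;> simp [hp, h']
  rw [← hfin]
  exact hpush

/-- Two-vertex split. -/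
lemma m2_ok {s1 : St} (hs : Near s s1) (h : Ctx n I0 s1) (h0 : ¬ ∀ i < n, ¬ I0.S i)
    (hw : ¬ fst n (P1 n I0) < n) (h23 : s1.v 23 = spU n I0) (hu : spU n I0 < n) :
    StepOk n s (run ι m2C s1) I0 := by
  have hv : spV n I0 < n := by
    obtain ⟨v, hv, hN⟩ := fst_lt hu
    exact fst_of hv hN
  set u := spU n I0 with hudef
  set v := spV n I0 with hvdef
  have ev : eval ι s1 vE [] = v := by
    rw [eval_vE h (by rw [h23]; exact hu), h23]
    rfl
  set s2 := s1.setV 24 v with hs2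
  have n2 : Near s s2 := hs.setV (by omega) _
  have c2 : Ctx n I0 s2 := h.setV (by omega) _
  have u2 : s2.v 23 = u := by rw [hs2, St.setV_v, Function.update_of_ne (by decide), h23]
  have v2 : s2.v 24 = v := by rw [hs2, St.setV_v, Function.update_self]
  set a := (fs n (sideA n I0 u v)).card with ha
  set b := (fs n (sideB n I0 u v)).card with hb
  set o := eval ι s2 (ltE (.sum 0 (boolE (sdBE (.var 23) (.var 24) (.bv 0))))
    (.sum 0 (boolE (sdAE (.var 23) (.var 24) (.bv 0))))) [] with ho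
  have ho' : o ≠ 0 ↔ ¬ a ≤ b := by
    rw [ho, ← tr_def, tr_ltE, eval_cardA c2 (by rw [u2]; exact hu) (by rw [v2]; exact hv),
      eval_cardB c2 (by rw [u2]; exact hu) (by rw [v2]; exact hv), u2, v2]
    omega
  set s3 := s2.setV 19 o with hs3
  have n3 : Near s s3 := n2.setV (by omega) _
  have c3 : Ctx n I0 s3 := c2.setV (by omega) _
  have u3 : s3.v 23 = u := by rw [hs3, St.setV_v, Function.update_of_ne (by decide), u2]
  have v3 : s3.v 24 = v := by rw [hs3, St.setV_v, Function.update_of_ne (by decide), v2]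
  have o3 : s3.v 19 = o := by rw [hs3, St.setV_v, Function.update_self]
  set m : Expr := .ite (.var 19) (sdBE (.var 23) (.var 24) (.var 26))
    (sdAE (.var 23) (.var 24) (.var 26)) with hm
  obtain ⟨f1, f2, f3⟩ := run_fill ι (x := 26) (r := 0) (b := 9) (e := m)
    (readsA_of_hi le_rfl m (by rfl)) s3
  set s4 := run ι (fill 26 0 9 m) s3 with hs4
  have c4 : Ctx n I0 s4 := c3.congr (fun y hy => f1 y (by omega))
    (fun b h1 h2 => f2 b (by omega))
  have n4 : Near s s4 := n3.trans ⟨fun y hy => f1 y (by omega), fun b h1 h2 => f2 b (by omega)⟩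
  have u4 : s4.v 23 = u := by rw [f1 23 (by decide), u3]
  have v4 : s4.v 24 = v := by rw [f1 24 (by decide), v3]
  have o4 : s4.v 19 = o := by rw [f1 19 (by decide), o3]
  have hrun : run ι m2C s1 = run ι (.ite (ltE cE (.lit 6)) call2C
      (.ite (eqE cE (.lit 6)) pushH (popC (bE 6)))) s4 := by
    have e1 : run ι (.set 24 vE) s1 = s2 := by
      simp only [run]
      rw [ev]
    show run ι _ (run ι (fill 26 0 9 m) (run ι (.set 19 _) (run ι (.set 24 vE) s1))) = _
    rw [e1]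
    rfl
  set A : ℕ → Prop := if a ≤ b then sideA n I0 u v else sideB n I0 u v with hA
  have hAi : ∀ i < n, (s4.a 9 i ≠ 0 ↔ A i) := by
    intro i hi
    rw [f3 i, if_pos (by rw [c3.fix.v0]; exact hi)]
    have c3' : Ctx n I0 (s3.setV 26 i) := c3.setV (by omega) _
    have g19 : (s3.setV 26 i).v 19 = o := by
      rw [St.setV_v, Function.update_of_ne (by decide), o3]
    have g23 : (s3.setV 26 i).v 23 = u := by
      rw [St.setV_v, Function.update_of_ne (by decide), u3]
    have g24 : (s3.setV 26 i).v 24 = v := by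
      rw [St.setV_v, Function.update_of_ne (by decide), v3]
    have g26 : (s3.setV 26 i).v 26 = i := by rw [St.setV_v, Function.update_self]
    rw [hm, eval_ite, eval_var, g19, hA]
    by_cases hab : a ≤ b
    · rw [if_pos (by by_contra h'; exact (ho'.1 h') hab), if_pos hab, ← tr_def,
        tr_sdAE (l := 0) c3' (stab_var 23) (stab_var 24) (Nat.zero_le _)
          (by rw [eval_var, g23]; exact hu.le) (by rw [eval_var, g24]; exact hv.le)
          (by rw [eval_var, g26]; exact hi), eval_var, eval_var, eval_var, g23, g24, g26]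
    · rw [if_neg (ho'.2 hab), if_neg hab, ← tr_def,
        tr_sdBE (l := 0) c3' (stab_var 23) (stab_var 24) (Nat.zero_le _)
          (by rw [eval_var, g23]; exact hu.le) (by rw [eval_var, g24]; exact hv.le)
          (by rw [eval_var, g26]; exact hi), eval_var, eval_var, eval_var, g23, g24, g26]
  have hori : ori I0 o = if a ≤ b then I0 else rev I0 := by
    unfold ori
    by_cases hab : a ≤ b
    · rw [if_pos (by by_contra h'; exact (ho'.1 h') hab), if_pos hab]
    · rw [if_neg (ho'.2 hab), if_neg hab]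
  have hnext : next n I0 (s.a 6 (s.v 16)) (bits s (s.v 16)) =
      next2 n (ori I0 o) A u v (s.a 6 (s.v 16)) (bits s (s.v 16)) := by
    rw [next, if_neg h0, if_neg hw, if_pos hu, hori, hA]
    by_cases hab : a ≤ b
    · rw [if_pos hab, if_pos hab, if_pos hab]
    · rw [if_neg hab, if_neg hab, if_neg hab]
  unfold StepOk
  rw [hnext, hrun, next2]
  obtain ⟨i1, i2⟩ := run_ite ι (ltE cE (.lit 6)) call2C
      (.ite (eqE cE (.lit 6)) pushH (popC (bE 6))) s4
  obtain ⟨i3, i4⟩ := run_ite ι (eqE cE (.lit 6)) pushH (popC (bE 6)) s4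
  rw [tr_ltE, near_c n4, eval_lit] at i1 i2
  rw [tr_eqE, near_c n4, eval_lit] at i3 i4
  by_cases k6 : s.a 6 (s.v 16) < 6
  · left
    rw [if_pos k6, i1 k6]
    refine ⟨_, rfl, ?_⟩
    have := call2_ok (ι := ι) n4 c4 u4 v4 hu hv hAi k6
    rw [o4] at this
    exact this
  rw [if_neg k6, i2 k6]
  by_cases k6' : s.a 6 (s.v 16) = 6
  · left
    rw [if_pos k6', i3 k6']
    refine ⟨_, rfl, Pushed.near n4 ?_⟩
    have := pushH_spec ι c4
    rw [o4, u4, v4, near_bits n4] at this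
    have e : h1 n (ori I0 o) (fun i => s4.a 9 i ≠ 0) u v (bits s (s.v 16)) =
        h1 n (ori I0 o) A u v (bits s (s.v 16)) := by
      unfold h1
      apply Ins.ext
      · funext i
        refine propext (and_congr_right fun hi => and_congr_right fun _ => not_congr ?_)
        exact hAi i hi
      · rfl
      · rfl
      · rfl
    rw [← e]
    exact this
  · right
    rw [if_neg k6', i4 k6']
    exact ⟨_, rfl, Popped.near n4 (popC_spec ι c4.fix.v2 (near_b n4 c4 (by omega) _))⟩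

/-- Small instances. -/
lemma m3_ok {s1 : St} (hs : Near s s1) (h : Ctx n I0 s1) (h0 : ¬ ∀ i < n, ¬ I0.S i)
    (hw : ¬ fst n (P1 n I0) < n) (hu : ¬ spU n I0 < n)
    (hsm : cX n I0 = 2 ∧ (fs n I0.S).card ≤ 6) : StepOk n s (run ι m3C s1) I0 := by
  -- the two vertices
  have hne : 0 < (fs n fun i => I0.S i ∧ I0.X i).card := by
    have := hsm.1
    unfold cX at this
    omega
  obtain ⟨x, hx⟩ := card_pos.1 hne
  rw [mem_fs] at hx
  have f1 : fX n I0 < n := fst_of hx.1 hx.2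
  have f2 : I0.S (fX n I0) ∧ I0.X (fX n I0) := fst_lt f1
  obtain ⟨g1, -, -, -⟩ := pair_X hsm.1 f1 f2
  have e1 : eval ι s1 (fXE xE) [] = fX n I0 := eval_fXE h (accX ι n I0)
  set s2 := s1.setV 23 (fX n I0) with hs2
  have n2 : Near s s2 := hs.setV (by omega) _
  have c2 : Ctx n I0 s2 := h.setV (by omega) _
  have u2 : s2.v 23 = fX n I0 := by rw [hs2, St.setV_v, Function.update_self]
  have hrun : run ι m3C s1 = run ι (.ite (eqE cE (.lit 0)) (delC 1)
      (.ite (eqE cE (.lit 1)) (.seq (.set 23 (oXE xE)) (delC 1))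
        (popC (orE (bE 0) (bE 1))))) s2 := by
    show run ι _ (run ι (.set 23 (fXE xE)) s1) = _
    have : run ι (.set 23 (fXE xE)) s1 = s2 := by
      simp only [run]
      rw [e1]
    rw [this]
  unfold StepOk
  rw [next, if_neg h0, if_neg hw, if_neg hu, if_pos hsm, hrun]
  obtain ⟨i1, i2⟩ := run_ite ι (eqE cE (.lit 0)) (delC 1)
      (.ite (eqE cE (.lit 1)) (.seq (.set 23 (oXE xE)) (delC 1))
        (popC (orE (bE 0) (bE 1)))) s2
  obtain ⟨i3, i4⟩ := run_ite ι (eqE cE (.lit 1)) (.seq (.set 23 (oXE xE)) (delC 1))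
        (popC (orE (bE 0) (bE 1))) s2
  rw [tr_eqE, near_c n2, eval_lit] at i1 i2 i3 i4
  by_cases c0 : s.a 6 (s.v 16) = 0
  · left
    rw [if_pos c0, i1 c0]
    exact ⟨_, rfl, Pushed.near n2 (delC_spec ι c2 u2 f1 rfl)⟩
  rw [if_neg c0, i2 c0]
  by_cases c1 : s.a 6 (s.v 16) = 1
  · left
    rw [if_pos c1, i3 c1]
    refine ⟨_, rfl, ?_⟩
    have e2 : eval ι s2 (oXE xE) [] = oX n I0 (fX n I0) := by
      rw [eval_oXE c2 (accX ι n I0), u2]
    have e3 : run ι (.seq (.set 23 (oXE xE)) (delC 1)) s2 =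
        run ι (delC 1) (s2.setV 23 (oX n I0 (fX n I0))) := by
      simp only [run]
      rw [e2]
    rw [e3]
    refine Pushed.near (n2.setV (by omega) _) (delC_spec ι (c2.setV (by omega) _) ?_ g1 rfl)
    rw [St.setV_v, Function.update_self]
  · right
    rw [if_neg c1, i4 c1]
    refine ⟨_, rfl, Popped.near n2 (popC_spec ι c2.fix.v2 ?_)⟩
    rw [tr_orE, near_b n2 c2 (by omega), near_b n2 c2 (by omega)]

/-- The vertex that is not reduced. -/
lemma m45_ok {s1 : St} (hs : Near s s1) (h : Ctx n I0 s1) {J : Ins} {xe : Expr → Expr} {o : ℕ}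
    (hx : AccX ι n I0 J xe) (hJ : rev J = ori I0 o) {x : ℕ} (h23 : s1.v 23 = x)
    (hox : oX n J x < n)
    (hnext : next n I0 (s.a 6 (s.v 16)) (bits s (s.v 16)) =
      if s.a 6 (s.v 16) = 0 then .inl (del n J (oX n J x)) else .inr (bits s (s.v 16) 0)) :
    StepOk n s (run ι (m45C xe o) s1) I0 := by
  unfold StepOk
  rw [hnext]
  obtain ⟨i1, i2⟩ := run_ite ι (eqE cE (.lit 0)) (.seq (.set 23 (oXE xe)) (delC o))
    (popC (bE 0)) s1
  rw [tr_eqE, near_c hs, eval_lit] at i1 i2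
  unfold m45C
  by_cases c0 : s.a 6 (s.v 16) = 0
  · left
    rw [if_pos c0, i1 c0]
    refine ⟨_, rfl, ?_⟩
    have e2 : eval ι s1 (oXE xe) [] = oX n J x := by
      rw [eval_oXE h hx, h23]
    have e3 : run ι (.seq (.set 23 (oXE xe)) (delC o)) s1 =
        run ι (delC o) (s1.setV 23 (oX n J x)) := by
      simp only [run]
      rw [e2]
    rw [e3]
    refine Pushed.near (hs.setV (by omega) _) (delC_spec ι (h.setV (by omega) _) ?_ hox hJ)
    rw [St.setV_v, Function.update_self]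
  · right
    rw [if_neg c0, i2 c0]
    exact ⟨_, rfl, Popped.near hs (popC_spec ι h.fix.v2 (near_b hs h (by omega) _))⟩

/-- The step. -/
theorem main_ok {s1 : St} (hs : Near s s1) (h : Ctx n I0 s1) :
    StepOk n s (run ι mainC s1) I0 := by
  obtain ⟨i1, i2⟩ := run_ite ι empE (popC anyE)
    (.seq (.set 23 wE) (.ite (ltE (.var 23) (.var 0)) m1C rest1)) s1
  rw [tr_empE h] at i1 i2
  unfold mainC
  by_cases h0 : ∀ i < n, ¬ I0.S i
  · right
    rw [i1 h0, next, if_pos h0]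
    exact ⟨_, rfl, Popped.near hs (popC_spec ι h.fix.v2 (tr_anyE h))⟩
  rw [i2 h0]
  clear i1 i2
  have e1 := eval_wE (ι := ι) h
  set s2 := s1.setV 23 (fst n (P1 n I0)) with hs2
  have n2 : Near s s2 := hs.setV (by omega) _
  have c2 : Ctx n I0 s2 := h.setV (by omega) _
  have u2 : s2.v 23 = fst n (P1 n I0) := by rw [hs2, St.setV_v, Function.update_self]
  have hr2 : run ι (.seq (.set 23 wE) (.ite (ltE (.var 23) (.var 0)) m1C rest1)) s1 =
      run ι (.ite (ltE (.var 23) (.var 0)) m1C rest1) s2 := by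
    show run ι _ (run ι (.set 23 wE) s1) = _
    have : run ι (.set 23 wE) s1 = s2 := by
      simp only [run]
      rw [e1]
    rw [this]
  rw [hr2]
  obtain ⟨i1, i2⟩ := run_ite ι (ltE (.var 23) (.var 0)) m1C rest1 s2
  rw [tr_ltE, eval_var, eval_var, u2, c2.fix.v0] at i1 i2
  by_cases hw : fst n (P1 n I0) < n
  · rw [i1 hw]
    exact m1_ok n2 c2 h0 u2 hw
  rw [i2 hw]
  clear i1 i2
  have e3 := eval_uE (ι := ι) c2
  set s3 := s2.setV 23 (spU n I0) with hs3
  have n3 : Near s s3 := n2.setV (by omega) _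
  have c3 : Ctx n I0 s3 := c2.setV (by omega) _
  have u3 : s3.v 23 = spU n I0 := by rw [hs3, St.setV_v, Function.update_self]
  have hr3 : run ι rest1 s2 = run ι (.ite (ltE (.var 23) (.var 0)) m2C rest2) s3 := by
    show run ι _ (run ι (.set 23 uE) s2) = _
    have : run ι (.set 23 uE) s2 = s3 := by
      simp only [run]
      rw [e3]
    rw [this]
  rw [hr3]
  obtain ⟨i1, i2⟩ := run_ite ι (ltE (.var 23) (.var 0)) m2C rest2 s3
  rw [tr_ltE, eval_var, eval_var, u3, c3.fix.v0] at i1 i2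
  by_cases hu : spU n I0 < n
  · rw [i1 hu]
    exact m2_ok n3 c3 h0 hw u3 hu
  rw [i2 hu]
  clear i1 i2
  unfold rest2
  obtain ⟨i1, i2⟩ := run_ite ι (andE (eqE (cXE xE) (.lit 2)) (leE cSE (.lit 6))) m3C rest3 s3
  rw [tr_andE, tr_eqE, tr_leE, eval_cXE c3 (accX ι n I0), eval_cSE c3, eval_lit, eval_lit]
    at i1 i2
  by_cases hsm : cX n I0 = 2 ∧ (fs n I0.S).card ≤ 6
  · rw [i1 hsm]
    exact m3_ok n3 c3 h0 hw hu hsm
  rw [i2 hsm]
  clear i1 i2
  have e4 := eval_nrE (ι := ι) c3 (accX ι n I0) (accR8 ι n I0)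
  set s4 := s3.setV 23 (fst n (NR n I0)) with hs4
  have n4 : Near s s4 := n3.setV (by omega) _
  have c4 : Ctx n I0 s4 := c3.setV (by omega) _
  have u4 : s4.v 23 = fst n (NR n I0) := by rw [hs4, St.setV_v, Function.update_self]
  have hr4 : run ι rest3 s3 = run ι (.ite (andE (eqE (cXE xE) (.lit 2))
      (ltE (.var 23) (.var 0))) (m45C xE 1) rest4) s4 := by
    show run ι _ (run ι (.set 23 (nrE 8 xE)) s3) = _
    have : run ι (.set 23 (nrE 8 xE)) s3 = s4 := by
      simp only [run]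
      rw [e4]
    rw [this]
  rw [hr4]
  obtain ⟨i1, i2⟩ := run_ite ι (andE (eqE (cXE xE) (.lit 2)) (ltE (.var 23) (.var 0)))
    (m45C xE 1) rest4 s4
  rw [tr_andE, tr_eqE, tr_ltE, eval_cXE c4 (accX ι n I0), eval_lit, eval_var, eval_var, u4,
    c4.fix.v0] at i1 i2
  by_cases hr : cX n I0 = 2 ∧ fst n (NR n I0) < n
  · rw [i1 hr]
    have hN := fst_lt hr.2
    refine m45_ok n4 c4 (J := I0) (accX ι n I0) rfl u4
      (pair_X hr.1 hr.2 ⟨hN.1, hN.2.1⟩).1 ?_
    rw [next, if_neg h0, if_neg hw, if_neg hu, if_neg hsm, if_pos hr]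
  rw [i2 hr]
  clear i1 i2
  have e5 := eval_nrE (ι := ι) c4 (accY ι n I0) (accR7 ι n I0)
  set s5 := s4.setV 23 (fst n (NR n (rev I0))) with hs5
  have n5 : Near s s5 := n4.setV (by omega) _
  have c5 : Ctx n I0 s5 := c4.setV (by omega) _
  have u5 : s5.v 23 = fst n (NR n (rev I0)) := by rw [hs5, St.setV_v, Function.update_self]
  have hr5 : run ι rest4 s4 = run ι (.ite (andE (eqE (cXE yE) (.lit 2))
      (ltE (.var 23) (.var 0))) (m45C yE 0) (popC covE)) s5 := by
    show run ι _ (run ι (.set 23 (nrE 7 yE)) s4) = _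
    have : run ι (.set 23 (nrE 7 yE)) s4 = s5 := by
      simp only [run]
      rw [e5]
    rw [this]
  rw [hr5]
  obtain ⟨i1, i2⟩ := run_ite ι (andE (eqE (cXE yE) (.lit 2)) (ltE (.var 23) (.var 0)))
    (m45C yE 0) (popC covE) s5
  rw [tr_andE, tr_eqE, tr_ltE, eval_cXE c5 (accY ι n I0), eval_lit, eval_var, eval_var, u5,
    c5.fix.v0] at i1 i2
  by_cases hr' : cX n (rev I0) = 2 ∧ fst n (NR n (rev I0)) < n
  · rw [i1 hr']
    have hN := fst_lt hr'.2
    refine m45_ok n5 c5 (J := rev I0) (accY ι n I0) rfl u5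
      (pair_X hr'.1 hr'.2 ⟨hN.1, hN.2.1⟩).1 ?_
    rw [next, if_neg h0, if_neg hw, if_neg hu, if_neg hsm, if_neg hr, if_pos hr']
  rw [i2 hr']
  right
  rw [next, if_neg h0, if_neg hw, if_neg hu, if_neg hsm, if_neg hr, if_neg hr']
  exact ⟨_, rfl, Popped.near n5 (popC_spec ι c5.fix.v2 (tr_covE c5))⟩

end

/-! ### The body of the main loop -/

def tabs : Cmd := .seq (tabC 7 xE eE) (tabC 8 yE eRE)

def bodyC : Cmd := .ite (.var 17) .skip (.seq tabs mainC)

theorem tabs_spec (ι : ℕ → ℕ) {n : ℕ} {I0 : Ins} {s : St} (h : Fix n I0 s) :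
    Ctx n I0 (run ι tabs s) ∧ Near s (run ι tabs s) := by
  have hv : ∀ (b : ℕ) (xe : Expr → Expr) (ee : Expr → Expr → Expr) (y : ℕ), y < 36 → ∀ s,
      (run ι (tabC b xe ee) s).v y = s.v y := by
    intro b xe ee y hy s
    refine run_v ι _ ?_ s
    simp only [tabC, passC, okV, Bool.and_eq_true, decide_eq_true_eq]
    refine ⟨⟨?_, ?_, ?_, trivial⟩, ?_, ?_, ?_, ?_, trivial⟩ <;> omega
  have hA : ∀ (b : ℕ) (xe : Expr → Expr) (ee : Expr → Expr → Expr) (c : ℕ), c ≠ b → ∀ s,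
      (run ι (tabC b xe ee) s).a c = s.a c := by
    intro b xe ee c hc s
    refine run_a ι _ ?_ s
    simp only [tabC, passC, okA, Bool.and_eq_true, decide_eq_true_eq]
    exact ⟨hc, hc⟩
  have ht7 := tabC_spec (ι := ι) (n := n) (b := 7) (I0 := I0) (J := I0) (xe := xE) (ee := eE)
    (by omega) rfl (fun s hs h38 => tr_xE hs h38) (fun s u hs hu h38 =>
      tr_eE (i := .bv 0) (j := .var 38) (env := [u]) (l := 1) hs (stab_bv (by omega))
        (by simp) hu h38) h
  set s1 := run ι (tabC 7 xE eE) s with hs1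
  have h1 : Fix n I0 s1 := by
    refine ⟨?_, ?_, ?_, ?_⟩
    · rw [hv 7 _ _ 0 (by omega)]; exact h.v0
    · rw [hv 7 _ _ 1 (by omega)]; exact h.v1
    · rw [hv 7 _ _ 2 (by omega)]; exact h.v2
    · rw [hv 7 _ _ 16 (by omega), ← h.hI]
      exact insAt_congr (hA 7 _ _ 1 (by omega) s) (hA 7 _ _ 2 (by omega) s)
        (hA 7 _ _ 3 (by omega) s) (hA 7 _ _ 4 (by omega) s) _
  have ht8 := tabC_spec (ι := ι) (n := n) (b := 8) (I0 := I0) (J := rev I0) (xe := yE)
    (ee := eRE) (by omega) rfl (fun s hs h38 => tr_yE hs h38) (fun s u hs hu h38 =>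
      tr_eRE (i := .bv 0) (j := .var 38) (env := [u]) (l := 1) hs (stab_var 38)
        (by simp) hu h38) h1
  have hrun : run ι tabs s = run ι (tabC 8 yE eRE) s1 := rfl
  rw [hrun]
  refine ⟨⟨⟨?_, ?_, ?_, ?_⟩, ?_, ht8⟩, ⟨?_, ?_⟩⟩
  · rw [hv 8 _ _ 0 (by omega)]; exact h1.v0
  · rw [hv 8 _ _ 1 (by omega)]; exact h1.v1
  · rw [hv 8 _ _ 2 (by omega)]; exact h1.v2
  · rw [hv 8 _ _ 16 (by omega), ← h1.hI]
    exact insAt_congr (hA 8 _ _ 1 (by omega) s1) (hA 8 _ _ 2 (by omega) s1)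
      (hA 8 _ _ 3 (by omega) s1) (hA 8 _ _ 4 (by omega) s1) _
  · rw [hA 8 _ _ 7 (by omega)]
    exact ht7
  · intro y hy
    rw [hv 8 _ _ y (by omega), hv 7 _ _ y (by omega)]
  · intro b hb1 hb2
    rw [hA 8 _ _ b (by omega), hA 7 _ _ b (by omega)]

/-- The machine. -/
noncomputable def theMach (ι : ℕ → ℕ) (n : ℕ) : Mach n St where
  body := run ι bodyC
  ok := fun s => s.v 0 = n ∧ s.v 1 = n + 1 ∧ s.v 2 = 8
  dn := fun s => s.v 17 ≠ 0
  rs := fun s => s.v 18 ≠ 0
  top := fun s => s.v 16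
  ins := insAt n
  cn := fun s k => s.a 6 k
  bt := bits
  push := by
    intro s J hok hdn hnext
    have hrun : run ι bodyC s = run ι mainC (run ι tabs s) :=
      (run_ite ι (.var 17) .skip (.seq tabs mainC) s).2 hdn
    obtain ⟨h1, h2⟩ := tabs_spec ι (n := n) (I0 := insAt n s (s.v 16)) (s := s)
      ⟨hok.1, hok.2.1, hok.2.2, rfl⟩
    rw [hrun]
    rcases main_ok (ι := ι) h2 h1 with ⟨J', hJ', hp⟩ | ⟨r, hr, -⟩
    · rw [hJ'] at hnext
      obtain rfl : J' = J := Sum.inl.inj hnext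
      refine ⟨⟨?_, ?_, ?_⟩, ?_, hp.top, hp.ins, hp.cn, fun k hk => ⟨(hp.old k hk).1,
        (hp.old k hk).2, ?_⟩⟩
      · rw [hp.ro 0 (by omega)]; exact hok.1
      · rw [hp.ro 1 (by omega)]; exact hok.2.1
      · rw [hp.ro 2 (by omega)]; exact hok.2.2
      · rw [hp.dn]; exact hdn
      · funext t
        unfold bits
        rw [hp.a5]
    · rw [hr] at hnext
      exact absurd hnext (by simp)
  pop0 := by
    intro s r hok hdn hnext htop
    have hrun : run ι bodyC s = run ι mainC (run ι tabs s) :=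
      (run_ite ι (.var 17) .skip (.seq tabs mainC) s).2 hdn
    obtain ⟨h1, h2⟩ := tabs_spec ι (n := n) (I0 := insAt n s (s.v 16)) (s := s)
      ⟨hok.1, hok.2.1, hok.2.2, rfl⟩
    rw [hrun]
    rcases main_ok (ι := ι) h2 h1 with ⟨J', hJ', hp⟩ | ⟨r', hr, hp⟩
    · rw [hJ'] at hnext
      exact absurd hnext (by simp)
    · rw [hr] at hnext
      obtain rfl : r' = r := Sum.inr.inj hnext
      refine ⟨⟨?_, ?_, ?_⟩, (hp.zero htop).1, (hp.zero htop).2⟩
      · rw [hp.ro 0 (by omega)]; exact hok.1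
      · rw [hp.ro 1 (by omega)]; exact hok.2.1
      · rw [hp.ro 2 (by omega)]; exact hok.2.2
  pop := by
    intro s r k hok hdn hnext htop hk8
    have hrun : run ι bodyC s = run ι mainC (run ι tabs s) :=
      (run_ite ι (.var 17) .skip (.seq tabs mainC) s).2 hdn
    obtain ⟨h1, h2⟩ := tabs_spec ι (n := n) (I0 := insAt n s (s.v 16)) (s := s)
      ⟨hok.1, hok.2.1, hok.2.2, rfl⟩
    rw [hrun]
    rcases main_ok (ι := ι) h2 h1 with ⟨J', hJ', hp⟩ | ⟨r', hr, hp⟩
    · rw [hJ'] at hnext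
      exact absurd hnext (by simp)
    · rw [hr] at hnext
      obtain rfl : r' = r := Sum.inr.inj hnext
      obtain ⟨q1, q2, q3, q4, q5, q6, q7⟩ := hp.succ k htop
      refine ⟨⟨?_, ?_, ?_⟩, ?_, q2, q3 k, q4, ?_, ?_, ?_⟩
      · rw [hp.ro 0 (by omega)]; exact hok.1
      · rw [hp.ro 1 (by omega)]; exact hok.2.1
      · rw [hp.ro 2 (by omega)]; exact hok.2.2
      · rw [q1]; exact hdn
      · exact ⟨fun h => q6.1 h.2, fun h => ⟨hk8, q6.2 h⟩⟩
      · intro t ht
        unfold bits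
        rw [q7 (8 * k + t) (by omega)]
      · intro j hj
        refine ⟨q3 j, q5 j (by omega), ?_⟩
        funext t
        unfold bits
        refine propext (and_congr_right fun ht => ?_)
        rw [q7 (8 * j + t) (by omega)]
  stay := by
    intro s hok hdn
    have hrun : run ι bodyC s = s :=
      (run_ite ι (.var 17) .skip (.seq tabs mainC) s).1 hdn
    rw [hrun]
    exact ⟨hok, hdn, Iff.rfl⟩

end Pool.Agent.Lib54.HP
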