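import Pool.Agent.Lib_helper54.HamPath.Tools

/-!
# The recursion is correct
-/

namespace Pool.Agent.Lib54.HP

open Pool.Agent.Lib53.HamBase Finset

variable {n : ℕ} {I J : Ins}

lemma fs_congr {P Q : ℕ → Prop} (h : ∀ i < n, (P i ↔ Q i)) : fs n P = fs n Q := by
  ext i
  rw [mem_fs, mem_fs]
  exact ⟨fun h' => ⟨h'.1, (h i h'.1).1 h'.2⟩, fun h' => ⟨h'.1, (h i h'.1).2 h'.2⟩⟩

lemma fs_lt (P : ℕ → Prop) : (fs n fun i => i < n ∧ P i) = fs n P :=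
  fs_congr fun _ hi => ⟨fun h => h.2, fun h => ⟨hi, h⟩⟩

lemma hamI_ne (h : (fs n I.S).Nonempty) : HamI n I ↔ Ham I.E (fs n I.S) I.X I.Y := by
  rw [HamI, if_neg h.ne_empty]

lemma hamI_rev : HamI n (rev I) ↔ HamI n I := by
  unfold HamI
  show (if fs n I.S = ∅ then ∃ v < n, I.Y v ∧ I.X v else Ham (Rev I.E) (fs n I.S) I.Y I.X) ↔ _
  split_ifs with h
  · constructor
    · rintro ⟨v, h1, h2, h3⟩; exact ⟨v, h1, h3, h2⟩
    · rintro ⟨v, h1, h2, h3⟩; exact ⟨v, h1, h3, h2⟩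
  · exact ham_rev

lemma valid_rev (h : Valid n I) : Valid n (rev I) := fun u hu v hv huv => (h u hu v hv huv).symm

@[simp] lemma rev_rev : rev (rev I) = I := rfl

/-! ### Calls -/

lemma hamI_bas {M : ℕ → Prop} {p q : ℕ} {ff : Prop} (hq : ¬ M q) (hne : (fs n M).Nonempty) :
    HamI n (bas n J M p q ff) ↔ Ham (fun a b => J.E a b ∨ (ff ∧ a = p)) (fs n M) J.X
      (fun z => J.E z q ∧ ¬ (ff ∧ z = p)) := by
  have e : fs n (bas n J M p q ff).S = fs n M := fs_lt M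
  rw [hamI_ne (by rw [e]; exact hne), e]
  refine ham_congr ?_ ?_ ?_
  · intro u hu v hv _
    rw [mem_fs] at hu hv
    exact ⟨fun h => h.2.2, fun h => ⟨hu.1, hv.1, h⟩⟩
  · intro u hu
    rw [mem_fs] at hu
    exact ⟨fun h => h.2, fun h => ⟨hu.1, h⟩⟩
  · intro u hu
    rw [mem_fs] at hu
    constructor
    · rintro ⟨_, h | h⟩
      · exact h.2
      · exact absurd hu.2 (h ▸ hq)
    · intro h; exact ⟨hu.1, Or.inl ⟨hu.2, h⟩⟩

lemma hamI_bas_false {M : ℕ → Prop} {p q : ℕ} (hq : ¬ M q) (hne : (fs n M).Nonempty) :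
    HamI n (bas n J M p q False) ↔ Ham J.E (fs n M) J.X (fun z => J.E z q) := by
  rw [hamI_bas hq hne]
  refine ham_congr ?_ ?_ ?_
  · intro u _ v _ _
    simp
  · intro u _; rfl
  · intro u _
    simp

lemma hamI_bas1 {M : ℕ → Prop} {w : ℕ} (hw : w < n) (hM : ¬ M w) :
    HamI n (bas n J M w w False) ↔
      (fs n M = ∅ ∧ J.X w ∨ Ham J.E (fs n M) J.X (fun z => J.E z w)) := by
  by_cases h : fs n M = ∅
  · have e : fs n (bas n J M w w False).S = ∅ := (fs_lt M).trans h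
    rw [HamI, if_pos e]
    constructor
    · rintro ⟨v, hv, h1, h2⟩
      rcases h2.2 with h3 | rfl
      · exfalso
        have : v ∈ fs n M := mem_fs.2 ⟨hv, h3.1⟩
        rw [h] at this
        simp at this
      · exact Or.inl ⟨h, h1.2⟩
    · rintro (⟨_, h1⟩ | h1)
      · exact ⟨w, hw, ⟨hw, h1⟩, hw, Or.inr rfl⟩
      · obtain ⟨x, hx, _⟩ := ham_start h1
        rw [h] at hx
        simp at hx
  · rw [hamI_bas_false hM (nonempty_iff_ne_empty.2 h)]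
    constructor
    · exact Or.inr
    · rintro (h1 | h1)
      · exact absurd h1.1 h
      · exact h1

lemma valid_bas {M : ℕ → Prop} {p q : ℕ} {ff : Prop} (hV : Valid n J)
    (hM : ∀ i < n, M i → J.S i) : Valid n (bas n J M p q ff) := by
  intro u hu v hv huv
  rw [mem_fs] at hu hv
  have := hV u (mem_fs.2 ⟨hu.1, hM u hu.1 hu.2.2⟩) v (mem_fs.2 ⟨hv.1, hM v hv.1 hv.2.2⟩) huv
  rcases this with h | h
  · exact Or.inl ⟨hu.1, hv.1, Or.inl h⟩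
  · exact Or.inr ⟨hv.1, hu.1, Or.inl h⟩

/-! ### The sides -/

lemma erase1 (a : ℕ) : (fs n fun i => I.S i ∧ i ≠ a ∧ i ≠ n) = (fs n I.S).erase a := by
  ext i
  rw [mem_erase, mem_fs, mem_fs]
  constructor
  · rintro ⟨h1, h2, h3, _⟩; exact ⟨h3, h1, h2⟩
  · rintro ⟨h3, h1, h2⟩; exact ⟨h1, h2, h3, by omega⟩

lemma erase2 (a b : ℕ) : (fs n fun i => I.S i ∧ i ≠ a ∧ i ≠ b) =
    ((fs n I.S).erase a).erase b := by
  ext i
  rw [mem_erase, mem_erase, mem_fs, mem_fs]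
  constructor
  · rintro ⟨h1, h2, h3, h4⟩; exact ⟨h4, h3, h1, h2⟩
  · rintro ⟨h4, h3, h1, h2⟩; exact ⟨h1, h2, h3, h4⟩

lemma erase0 : (fs n fun i => I.S i ∧ i ≠ n ∧ i ≠ n) = fs n I.S := by
  ext i
  rw [mem_fs, mem_fs]
  constructor
  · rintro ⟨h1, h2, _⟩; exact ⟨h1, h2⟩
  · rintro ⟨h1, h2⟩; exact ⟨h1, h2, by omega, by omega⟩

lemma noPath_iff {a b : ℕ} : noPath n I a b ↔
    ¬ Conn I.E (fs n fun i => I.S i ∧ i ≠ a ∧ i ≠ b) I.X I.Y := by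
  constructor
  · rintro h ⟨v, hv, hY⟩
    exact h v (mem_fs.1 hv.mem).1 ⟨hv, hY⟩
  · rintro h y _ ⟨h1, h2⟩
    exact h ⟨y, h1, h2⟩

lemma rc_mem {a b v : ℕ} (h : Rc n I a b v) : v < n ∧ I.S v ∧ v ≠ a ∧ v ≠ b := mem_fs.1 h.mem

lemma side_arc {a b x y : ℕ} (hx : sideA n I a b x) (hy : sideB n I a b y) (hyn : y < n) :
    ¬ I.E x y := fun h => hy.2.2.2 (Rch.step hx h (mem_fs.2 ⟨hyn, hy.1, hy.2.1, hy.2.2.1⟩))

lemma side_X {a b y : ℕ} (hy : sideB n I a b y) (hyn : y < n) : ¬ I.X y :=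
  fun h => hy.2.2.2 (Rch.base (mem_fs.2 ⟨hyn, hy.1, hy.2.1, hy.2.2.1⟩) h)

lemma side_Y {a b x : ℕ} (hp : noPath n I a b) (hx : sideA n I a b x) : ¬ I.Y x :=
  fun h => hp x (rc_mem hx).1 ⟨hx, h⟩

lemma M2_of (h : ∀ j < n, ¬ P1 n I j) : M2 I.E (fs n I.S) I.X I.Y := by
  intro w hw
  rw [mem_fs] at hw
  have := h w hw.1
  rw [P1, not_and, noPath_iff, erase1, not_not] at this
  exact this hw.2

lemma M2_rev (h : M2 I.E (fs n I.S) I.X I.Y) : M2 (rev I).E (fs n (rev I).S) (rev I).X (rev I).Y :=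
  fun w hw => (h w hw).rev

/-! ### Sizes -/

lemma FF_mono {a b : ℕ} (h : a ≤ b) : FF a ≤ FF b := by
  unfold FF
  gcongr

lemma FF_one {m : ℕ} (a b : ℕ) (h : a + b + 1 ≤ m) : FF a + FF b + 3 ≤ FF m := by
  refine le_trans ?_ (FF_mono h)
  unfold FF
  ring_nf
  omega

lemma FF_two {a b : ℕ} (ha : 1 ≤ a) (hab : a ≤ b) :
    6 * (FF (a + 1) + 1) + (FF (b + 2) + 1) + 1 ≤ FF (a + b + 2) := by
  obtain ⟨c, rfl⟩ := Nat.exists_eq_add_of_le ha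
  obtain ⟨t, rfl⟩ := Nat.exists_eq_add_of_le hab
  unfold FF
  ring_nf
  omega

lemma FF_three {m k : ℕ} (h2 : 2 ≤ m) (h6 : m ≤ 6) (hk : k + 1 ≤ m) :
    (FF k + 1) + (FF k + 1) + 1 ≤ FF m := by
  have hk' : k ≤ m - 1 := by omega
  have := FF_mono hk'
  have : (FF (m - 1) + 1) + (FF (m - 1) + 1) + 1 ≤ FF m := by
    interval_cases m <;> simp [FF]
  omega

lemma FF_four {m k : ℕ} (hk : k + 1 ≤ m) : (FF k + 1) + 1 ≤ FF m := by
  have := FF_one (m := m) k 0 (by omega)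
  omega

end Pool.Agent.Lib54.HP
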