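import Pool.Agent.Lib_helper54.HamPath.Proto

/-!
# The two-vertex split in the recursion
-/

namespace Pool.Agent.Lib54.HP

open Pool.Agent.Lib53.HamBase Finset

variable {n : ℕ} {I J : Ins}

/-- The assumptions on the sides of a two-vertex split. -/
structure Sides (n : ℕ) (J : Ins) (A B : ℕ → Prop) (u v : ℕ) : Prop where
  un : u < n
  vn : v < n
  huv : u ≠ v
  uA : ¬ A u
  uB : ¬ B u
  vA : ¬ A v
  vB : ¬ B v
  dis : ∀ i < n, A i → ¬ B i
  hS : ∀ i < n, (J.S i ↔ i = u ∨ i = v ∨ A i ∨ B i)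
  neA : (fs n A).Nonempty
  neB : (fs n B).Nonempty
  arc : ∀ a < n, ∀ b < n, A a → B b → ¬ J.E a b
  hX : ∀ b < n, B b → ¬ J.X b
  hY : ∀ a < n, A a → ¬ J.Y a
  hV : Valid n J
  h2 : M2 J.E (fs n J.S) J.X J.Y

lemma Sides.eq {A B : ℕ → Prop} {u v : ℕ} (h : Sides n J A B u v) :
    fs n J.S = insert u (insert v (fs n A ∪ fs n B)) := by
  ext i
  simp only [mem_insert, mem_union, mem_fs]
  constructor
  · rintro ⟨h1, h2⟩
    rcases (h.hS i h1).1 h2 with h | h | h | h
    · exact Or.inl h
    · exact Or.inr (Or.inl h)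
    · exact Or.inr (Or.inr (Or.inl ⟨h1, h⟩))
    · exact Or.inr (Or.inr (Or.inr ⟨h1, h⟩))
  · rintro (rfl | rfl | ⟨h1, h2⟩ | ⟨h1, h2⟩)
    · exact ⟨h.un, (h.hS _ h.un).2 (Or.inl rfl)⟩
    · exact ⟨h.vn, (h.hS _ h.vn).2 (Or.inr (Or.inl rfl))⟩
    · exact ⟨h1, (h.hS _ h1).2 (Or.inr (Or.inr (Or.inl h2)))⟩
    · exact ⟨h1, (h.hS _ h1).2 (Or.inr (Or.inr (Or.inr h2)))⟩

lemma Sides.card {A B : ℕ → Prop} {u v : ℕ} (h : Sides n J A B u v) :
    (fs n J.S).card = (fs n A).card + (fs n B).card + 2 := by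
  rw [h.eq, card_insert_of_notMem, card_insert_of_notMem, card_union_of_disjoint]
  · rw [Finset.disjoint_left]
    intro i h1 h2
    rw [mem_fs] at h1 h2
    exact h.dis i h1.1 h1.2 h2.2
  · rw [mem_union, mem_fs, mem_fs]
    rintro (h1 | h1)
    · exact h.vA h1.2
    · exact h.vB h1.2
  · rw [mem_insert, mem_union, mem_fs, mem_fs]
    rintro (h1 | h1 | h1)
    · exact h.huv h1
    · exact h.uA h1.2
    · exact h.uB h1.2

lemma fs_or {A : ℕ → Prop} {p : ℕ} (hp : p < n) :
    (fs n fun z => A z ∨ z = p) = insert p (fs n A) := by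
  ext i
  rw [mem_insert, mem_fs, mem_fs]
  constructor
  · rintro ⟨h1, h2 | h2⟩
    · exact Or.inr ⟨h1, h2⟩
    · exact Or.inl h2
  · rintro (rfl | h)
    · exact ⟨hp, Or.inr rfl⟩
    · exact ⟨h.1, Or.inl h.2⟩

/-- The first two calls. -/
lemma hamI_f {A : ℕ → Prop} {p q : ℕ} (hp : p < n) (hA : ¬ A p) (hq : ¬ A q) (hpq : p ≠ q) :
    HamI n (bas n J (fun z => A z ∨ z = p) p q True) ↔ Ff J.E (fs n A) J.X p q := by
  rw [hamI_bas, fs_or hp, Ff]
  · refine ham_congr ?_ ?_ ?_
    · intro a ha b hb hab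
      rw [mem_insert] at ha hb
      constructor
      · rintro (h | h)
        · exact Or.inl h
        · refine Or.inr ⟨h.2, hb.resolve_left ?_⟩
          rintro rfl
          exact hab h.2
      · rintro (h | h)
        · exact Or.inl h
        · exact Or.inr ⟨trivial, h.1⟩
    · intro a _; rfl
    · intro a ha
      rw [mem_insert] at ha
      constructor
      · rintro ⟨h1, h2⟩
        exact ⟨ha.resolve_left fun h => h2 ⟨trivial, h⟩, h1⟩
      · rintro ⟨h1, h2⟩
        refine ⟨h2, fun h => ?_⟩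
        rw [h.2] at h1
        exact hA (mem_fs.1 h1).2
  · rintro (h | h)
    · exact hq h
    · exact hpq h.symm
  · exact ⟨p, mem_fs.2 ⟨hp, Or.inr rfl⟩⟩

lemma hamI_r {A : ℕ → Prop} {p q : ℕ} (hA : ¬ A p) (hne : (fs n A).Nonempty) :
    HamI n (bas n J A q p False) ↔ Rr J.E (fs n A) J.X p := by
  rw [hamI_bas_false hA hne, Rr]

lemma hamI_d {A : ℕ → Prop} {p q : ℕ} (hp : p < n) (hq : ¬ A q) (hpq : p ≠ q) :
    HamI n (bas n J (fun z => A z ∨ z = p) p q False) ↔ Dd J.E (fs n A) J.X p q := by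
  rw [hamI_bas_false, fs_or hp, Dd]
  · rintro (h | h)
    · exact hq h
    · exact hpq h.symm
  · exact ⟨p, mem_fs.2 ⟨hp, Or.inr rfl⟩⟩

/-- The protocol of the two-vertex split. -/
theorem proto2 (hsp : Split2) {A B : ℕ → Prop} {u v : ℕ} (h : Sides n J A B u v)
    (hAB : (fs n A).card ≤ (fs n B).card) :
    ∃ ch : ℕ → Ins,
      (∀ t < 7, ∀ b : ℕ → Prop, (∀ i < t, (b i ↔ HamI n (ch i))) →
        next2 n J A u v t b = .inl (ch t)) ∧
      (∀ b : ℕ → Prop, (∀ i < 7, (b i ↔ HamI n (ch i))) →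
        ∃ r, next2 n J A u v 7 b = .inr r ∧ (r ↔ HamI n J)) ∧
      (∀ t < 7, Valid n (ch t) ∧ (fs n (ch t).S).card < (fs n J.S).card) ∧
      (∑ t ∈ range 7, (FF (fs n (ch t).S).card + 1)) + 1 ≤ FF (fs n J.S).card := by
  have hA1 : 1 ≤ (fs n A).card := card_pos.2 h.neA
  have hcard := h.card
  -- the first six
  have e0 : HamI n (ch2 n J A u v 0) ↔ Ff J.E (fs n A) J.X u v := hamI_f h.un h.uA h.vA h.huv
  have e1 : HamI n (ch2 n J A u v 1) ↔ Ff J.E (fs n A) J.X v u :=
    hamI_f h.vn h.vA h.uA h.huv.symm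
  have e2 : HamI n (ch2 n J A u v 2) ↔ Rr J.E (fs n A) J.X u := hamI_r h.uA h.neA
  have e3 : HamI n (ch2 n J A u v 3) ↔ Rr J.E (fs n A) J.X v := hamI_r h.vA h.neA
  have e4 : HamI n (ch2 n J A u v 4) ↔ Dd J.E (fs n A) J.X u v := hamI_d h.un h.vA h.huv
  have e5 : HamI n (ch2 n J A u v 5) ↔ Dd J.E (fs n A) J.X v u :=
    hamI_d h.vn h.uA h.huv.symm
  set bb : ℕ → Prop := fun i => HamI n (ch2 n J A u v i) with hbb
  -- the last one
  have hS1 : fs n (h1 n J A u v bb).S = insert u (insert v (fs n B)) := by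
    ext i
    simp only [mem_insert, mem_fs, h1]
    constructor
    · rintro ⟨h1, _, h2, h3⟩
      rcases (h.hS i h1).1 h2 with h | h | h | h
      · exact Or.inl h
      · exact Or.inr (Or.inl h)
      · exact absurd h h3
      · exact Or.inr (Or.inr ⟨h1, h⟩)
    · rintro (rfl | rfl | ⟨h1, h2⟩)
      · exact ⟨h.un, h.un, (h.hS _ h.un).2 (Or.inl rfl), h.uA⟩
      · exact ⟨h.vn, h.vn, (h.hS _ h.vn).2 (Or.inr (Or.inl rfl)), h.vA⟩
      · exact ⟨h1, h1, (h.hS _ h1).2 (Or.inr (Or.inr (Or.inr h2))), fun h3 => h.dis i h1 h3 h2⟩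
  have hcB : (insert u (insert v (fs n B))).card = (fs n B).card + 2 := by
    rw [card_insert_of_notMem, card_insert_of_notMem]
    · rw [mem_fs]; exact fun h1 => h.vB h1.2
    · rw [mem_insert, mem_fs]
      rintro (h1 | h1)
      · exact h.huv h1
      · exact h.uB h1.2
  have huA : u ∉ fs n A := fun h1 => h.uA (mem_fs.1 h1).2
  have huB : u ∉ fs n B := fun h1 => h.uB (mem_fs.1 h1).2
  have hvA : v ∉ fs n A := fun h1 => h.vA (mem_fs.1 h1).2
  have hvB : v ∉ fs n B := fun h1 => h.vB (mem_fs.1 h1).2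
  have hdis : Disjoint (fs n A) (fs n B) := by
    rw [Finset.disjoint_left]
    intro i h1 h2
    rw [mem_fs] at h1 h2
    exact h.dis i h1.1 h1.2 h2.2
  obtain ⟨hsemi, hham⟩ := hsp J.E (fs n A) (fs n B) u v J.X J.Y h.huv huA huB hvA hvB hdis
    h.neA h.neB (fun a ha b hb => by
      rw [mem_fs] at ha hb
      exact h.arc a ha.1 b hb.1 ha.2 hb.2)
    (fun b hb => by rw [mem_fs] at hb; exact h.hX b hb.1 hb.2)
    (fun a ha => by rw [mem_fs] at ha; exact h.hY a ha.1 ha.2)
    (by rw [← h.eq]; exact h.hV) (by rw [← h.eq]; exact h.h2)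
  have hE1 : ∀ a ∈ insert u (insert v (fs n B)), ∀ b ∈ insert u (insert v (fs n B)),
      ((h1 n J A u v bb).E a b ↔ E1 J.E (fs n A) J.X u v a b) := by
    intro a ha b hb
    have han : a < n := by
      rw [mem_insert, mem_insert, mem_fs] at ha
      rcases ha with rfl | rfl | ha
      · exact h.un
      · exact h.vn
      · exact ha.1
    have hbn : b < n := by
      rw [mem_insert, mem_insert, mem_fs] at hb
      rcases hb with rfl | rfl | hb
      · exact h.un
      · exact h.vn
      · exact hb.1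
    show (a < n ∧ b < n ∧ _) ↔ _
    simp only [hbb, e0, e1, e2, e3, e4, e5, E1, han, hbn, true_and]
    by_cases c1 : a = u ∧ b = v
    · rw [if_pos c1]
      have c2 : ¬ (a = v ∧ b = u) := fun hh => h.huv (c1.1.symm.trans hh.1)
      simp only [c1, c2]
      simp only [true_and, not_true_eq_false, false_and, or_false, and_self]
      constructor
      · rintro (hh | hh)
        · exact hh
        · exact absurd hh.1.1 h.huv
      · exact Or.inl
    · rw [if_neg c1]
      by_cases c2 : a = v ∧ b = u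
      · rw [if_pos c2]
        simp only [c2]
        simp only [true_and, not_true_eq_false, false_and, or_false, and_self, and_false]
        constructor
        · rintro (hh | hh)
          · exact absurd hh.1.1.symm h.huv
          · exact hh
        · exact Or.inr
      · rw [if_neg c2]
        simp only [c1, c2, false_and, false_or, not_false_eq_true, true_and]
  have h6 : HamI n (h1 n J A u v bb) ↔ HamI n J := by
    rw [hamI_ne (by rw [hS1]; exact insert_nonempty _ _), hS1,
      hamI_ne (by rw [h.eq]; exact insert_nonempty _ _), h.eq, hham]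
    refine ham_congr (fun a ha b hb _ => hE1 a ha b hb) ?_ ?_
    · intro a ha
      have han : a < n := by
        rw [mem_insert, mem_insert, mem_fs] at ha
        rcases ha with rfl | rfl | ha
        · exact h.un
        · exact h.vn
        · exact ha.1
      show (a < n ∧ ((a = u ∧ (bb 2 ∨ bb 0)) ∨ (a = v ∧ (bb 3 ∨ bb 1)))) ↔ _
      simp only [hbb, e0, e1, e2, e3, X1, han, true_and]
    · intro a ha
      have han : a < n := by
        rw [mem_insert, mem_insert, mem_fs] at ha
        rcases ha with rfl | rfl | ha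
        · exact h.un
        · exact h.vn
        · exact ha.1
      exact ⟨fun hh => hh.2, fun hh => ⟨han, hh⟩⟩
  have hA_S : ∀ i < n, A i → J.S i := fun i hi hh => (h.hS i hi).2 (Or.inr (Or.inr (Or.inl hh)))
  have hu_S : J.S u := (h.hS _ h.un).2 (Or.inl rfl)
  have hv_S : J.S v := (h.hS _ h.vn).2 (Or.inr (Or.inl rfl))
  have hch2 : ∀ t < 6, Valid n (ch2 n J A u v t) ∧
      (fs n (ch2 n J A u v t).S).card ≤ (fs n A).card + 1 := by
    intro t ht
    have key1 : ∀ (p q : ℕ) (ff : Prop), p = u ∨ p = v →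
        Valid n (bas n J (fun z => A z ∨ z = p) p q ff) ∧
        (fs n (bas n J (fun z => A z ∨ z = p) p q ff).S).card ≤ (fs n A).card + 1 := by
      intro p q ff hp
      have hpn : p < n := by
        rcases hp with rfl | rfl
        · exact h.un
        · exact h.vn
      refine ⟨valid_bas h.hV ?_, ?_⟩
      · rintro i hi (hh | rfl)
        · exact hA_S i hi hh
        · rcases hp with rfl | rfl
          · exact hu_S
          · exact hv_S
      · have : fs n (bas n J (fun z => A z ∨ z = p) p q ff).S = insert p (fs n A) :=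
          (fs_lt _).trans (fs_or hpn)
        rw [this]
        exact card_insert_le _ _
    have key2 : ∀ (p q : ℕ) (ff : Prop), Valid n (bas n J A p q ff) ∧
        (fs n (bas n J A p q ff).S).card ≤ (fs n A).card + 1 := by
      intro p q ff
      refine ⟨valid_bas h.hV hA_S, ?_⟩
      have : fs n (bas n J A p q ff).S = fs n A := fs_lt _
      rw [this]
      omega
    interval_cases t
    · exact key1 u v True (Or.inl rfl)
    · exact key1 v u True (Or.inr rfl)
    · exact key2 u u False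
    · exact key2 v v False
    · exact key1 u v False (Or.inl rfl)
    · exact key1 v u False (Or.inr rfl)
  have hv6 : Valid n (h1 n J A u v bb) := by
    unfold Valid
    rw [hS1]
    intro a ha b hb hab
    rw [hE1 a ha b hb, hE1 b hb a ha]
    exact hsemi a ha b hb hab
  set ch : ℕ → Ins := fun t => if t < 6 then ch2 n J A u v t else h1 n J A u v bb with hch
  have c6 : ch 6 = h1 n J A u v bb := by simp [hch]
  have cl : ∀ t < 6, ch t = ch2 n J A u v t := fun t ht => by simp [hch, ht]
  refine ⟨ch, ?_, ?_, ?_, ?_⟩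
  · intro t ht b hb
    by_cases ht6 : t < 6
    · rw [cl t ht6, next2, if_pos ht6]
    · obtain rfl : t = 6 := by omega
      rw [c6, next2, if_neg (by omega), if_pos rfl]
      have hb' : ∀ i < 6, b i = bb i := fun i hi => by
        have := hb i (by omega)
        rw [cl i hi] at this
        exact propext this
      simp only [h1, hb' 0 (by omega), hb' 1 (by omega), hb' 2 (by omega), hb' 3 (by omega),
        hb' 4 (by omega), hb' 5 (by omega)]
  · intro b hb
    refine ⟨b 6, ?_, ?_⟩
    · rw [next2, if_neg (by omega), if_neg (by omega)]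
    · rw [hb 6 (by omega), c6]
      exact h6
  · intro t ht
    by_cases ht6 : t < 6
    · rw [cl t ht6]
      obtain ⟨g1, g2⟩ := hch2 t ht6
      exact ⟨g1, by omega⟩
    · obtain rfl : t = 6 := by omega
      rw [c6, hS1, hcB]
      exact ⟨hv6, by omega⟩
  · rw [hcard]
    refine le_trans ?_ (FF_two hA1 hAB)
    have b6 : FF (fs n (ch 6).S).card = FF ((fs n B).card + 2) := by rw [c6, hS1, hcB]
    have bl : ∀ t < 6, FF (fs n (ch t).S).card ≤ FF ((fs n A).card + 1) := fun t ht => by
      rw [cl t ht]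
      exact FF_mono (hch2 t ht).2
    have := bl 0 (by omega)
    have := bl 1 (by omega)
    have := bl 2 (by omega)
    have := bl 3 (by omega)
    have := bl 4 (by omega)
    have := bl 5 (by omega)
    simp only [sum_range_succ, sum_range_zero]
    omega

end Pool.Agent.Lib54.HP
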