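import Pool.Agent.Lib_helper54.HamPath.Proto2

/-!
# The recursion is correct: all the cases
-/

namespace Pool.Agent.Lib54.HP

open Pool.Agent.Lib53.HamBase Finset

variable {n : ℕ} {I J : Ins}

/-- The sides are as required. -/
lemma sides_A (hV : Valid n I) (h2 : M2 I.E (fs n I.S) I.X I.Y) {u v : ℕ} (hu : u < n)
    (hv : v < n) (h : NT n I u v) : Sides n I (sideA n I u v) (sideB n I u v) u v where
  un := hu
  vn := hv
  huv := h.2.2.1
  uA := fun hh => (rc_mem hh).2.2.1 rfl
  uB := fun hh => hh.2.1 rfl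
  vA := fun hh => (rc_mem hh).2.2.2 rfl
  vB := fun hh => hh.2.2.1 rfl
  dis := fun i _ hA hB => hB.2.2.2 hA
  hS := by
    intro i _
    constructor
    · intro hi
      by_cases h1 : i = u
      · exact Or.inl h1
      by_cases h3 : i = v
      · exact Or.inr (Or.inl h3)
      by_cases h4 : Rc n I u v i
      · exact Or.inr (Or.inr (Or.inl h4))
      · exact Or.inr (Or.inr (Or.inr ⟨hi, h1, h3, h4⟩))
    · rintro (rfl | rfl | hh | hh)
      · exact h.1
      · exact h.2.1
      · exact (rc_mem hh).2.1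
      · exact hh.1
  neA := by
    obtain ⟨z, hz, hz'⟩ := h.2.2.2.2.1
    exact ⟨z, mem_fs.2 ⟨hz, hz'⟩⟩
  neB := by
    obtain ⟨z, hz, hz'⟩ := h.2.2.2.2.2
    exact ⟨z, mem_fs.2 ⟨hz, hz'⟩⟩
  arc := fun a _ b hb hA hB => side_arc hA hB hb
  hX := fun b hb hB => side_X hB hb
  hY := fun a _ hA => side_Y h.2.2.2.1 hA
  hV := hV
  h2 := h2

lemma sides_B (hV : Valid n I) (h2 : M2 I.E (fs n I.S) I.X I.Y) {u v : ℕ} (hu : u < n)
    (hv : v < n) (h : NT n I u v) :
    Sides n (rev I) (sideB n I u v) (sideA n I u v) u v := by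
  have hs := sides_A hV h2 hu hv h
  exact ⟨hu, hv, hs.huv, hs.uB, hs.uA, hs.vB, hs.vA, fun i hi hB hA => hs.dis i hi hA hB,
    fun i hi => (hs.hS i hi).trans (by tauto), hs.neB, hs.neA,
    fun a ha b hb hA hB => hs.arc b hb a ha hB hA, fun b hb hB => hs.hY b hb hB,
    fun a ha hA => hs.hX a ha hA, valid_rev hV, M2_rev h2⟩

/-- The two-element sets. -/
lemma pair_X (h : cX n I = 2) {x : ℕ} (hx : x < n) (hx' : I.S x ∧ I.X x) :
    oX n I x < n ∧ (I.S (oX n I x) ∧ I.X (oX n I x)) ∧ oX n I x ≠ x ∧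
      ∀ z < n, I.S z → I.X z → z = x ∨ z = oX n I x := by
  have hmem : x ∈ fs n fun i => I.S i ∧ I.X i := mem_fs.2 ⟨hx, hx'⟩
  have hc : ((fs n fun i => I.S i ∧ I.X i).erase x).card = 1 := by
    rw [card_erase_of_mem hmem]
    unfold cX at h
    omega
  obtain ⟨y, hy⟩ := card_eq_one.1 hc
  have hy' : y ∈ (fs n fun i => I.S i ∧ I.X i).erase x := by rw [hy]; exact mem_singleton_self _
  rw [mem_erase, mem_fs] at hy'
  have hlt : oX n I x < n := fst_of hy'.2.1 ⟨hy'.2.2, hy'.1⟩
  have hsp := fst_lt hlt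
  have heq : oX n I x = y := by
    have : oX n I x ∈ (fs n fun i => I.S i ∧ I.X i).erase x :=
      mem_erase.2 ⟨hsp.2, mem_fs.2 ⟨hlt, hsp.1⟩⟩
    rw [hy] at this
    exact mem_singleton.1 this
  refine ⟨hlt, hsp.1, hsp.2, fun z hz hS hX => ?_⟩
  by_cases hzx : z = x
  · exact Or.inl hzx
  · right
    have : z ∈ (fs n fun i => I.S i ∧ I.X i).erase x := mem_erase.2 ⟨hzx, mem_fs.2 ⟨hz, hS, hX⟩⟩
    rw [hy] at this
    rw [heq]
    exact mem_singleton.1 this

lemma fs_del (x : ℕ) : (fs n fun z => I.S z ∧ z ≠ x) = (fs n I.S).erase x := by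
  ext i
  rw [mem_erase, mem_fs, mem_fs]
  exact ⟨fun h => ⟨h.2.2, h.1, h.2.1⟩, fun h => ⟨h.2.1, h.2.2, h.1⟩⟩

/-- Deletion of a first vertex. -/
lemma hamI_del {x : ℕ} (hx : x < n) (hS : I.S x) (hne : ((fs n I.S).erase x).Nonempty) :
    HamI n (del n I x) ↔ Ham I.E (fs n I.S) (fun z => z = x) I.Y := by
  have hne' : (fs n fun z => I.S z ∧ z ≠ x).Nonempty := by rw [fs_del]; exact hne
  rw [del, hamI_bas_false (fun h => h.2 rfl) hne', fs_del,
    ham_del (mem_fs.2 ⟨hx, hS⟩) hne]
  exact ham_rev (E := I.E) (S := (fs n I.S).erase x) (X := fun z => I.E x z) (Y := I.Y)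

lemma card_del {x : ℕ} (hx : x < n) (hS : I.S x) :
    (fs n (del n I x).S).card + 1 = (fs n I.S).card := by
  have e : fs n (del n I x).S = (fs n I.S).erase x := (fs_lt _).trans (fs_del x)
  have hm : x ∈ fs n I.S := mem_fs.2 ⟨hx, hS⟩
  rw [e, card_erase_of_mem hm]
  have : 0 < (fs n I.S).card := card_pos.2 ⟨x, hm⟩
  omega

lemma valid_del {x : ℕ} (hV : Valid n I) : Valid n (del n I x) :=
  valid_bas (valid_rev hV) fun _ _ h => h.1

lemma ne_of_M2 (h2 : M2 I.E (fs n I.S) I.X I.Y) {x : ℕ} (hx : x < n) (hS : I.S x) :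
    ((fs n I.S).erase x).Nonempty := by
  obtain ⟨v, hv, _⟩ := h2 x (mem_fs.2 ⟨hx, hS⟩)
  exact ⟨v, hv.mem⟩

/-- If `x` can not be the first vertex, the other one is. -/
lemma ham_other (h2 : M2 I.E (fs n I.S) I.X I.Y) (hc : cX n I = 2) {x : ℕ} (hx : x < n)
    (hN : NR n I x) : HamI n (del n I (oX n I x)) ↔ HamI n I := by
  obtain ⟨g1, g2, g3, g4⟩ := pair_X hc hx ⟨hN.1, hN.2.1⟩
  have hne : (fs n I.S).Nonempty := ⟨x, mem_fs.2 ⟨hx, hN.1⟩⟩
  rw [hamI_del g1 g2.1 (ne_of_M2 h2 g1 g2.1), hamI_ne hne, ham_exists_start (X := I.X)]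
  constructor
  · intro h
    exact ⟨_, mem_fs.2 ⟨g1, g2.1⟩, g2.2, h⟩
  · rintro ⟨z, hz, hXz, h⟩
    rw [mem_fs] at hz
    rcases g4 z hz.1 hz.2 hXz with rfl | rfl
    · exfalso
      obtain ⟨y, hy, hyS, hyx, hr⟩ := hN.2.2
      apply hr
      rw [ham_del (mem_fs.2 ⟨hx, hN.1⟩) (ne_of_M2 h2 hx hN.1)] at h
      have := (ham_cov h).2 y (mem_erase.2 ⟨hyx, mem_fs.2 ⟨hy, hyS⟩⟩)
      unfold Rc
      rw [erase1]
      exact this
    · exact h

theorem protocol (hB : BaseLemma) (hs1 : Split1) (hs2 : Split2) (hV : Valid n I) :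
    Protocol n I := by
  by_cases hS0 : ∀ i < n, ¬ I.S i
  · -- no vertices
    have hemp : fs n I.S = ∅ := by
      rw [Finset.eq_empty_iff_forall_notMem]
      intro i hi
      rw [mem_fs] at hi
      exact hS0 i hi.1 hi.2
    refine ⟨0, fun _ => I, by omega, fun t ht => absurd ht (Nat.not_lt_zero _), ?_,
      fun t ht => absurd ht (Nat.not_lt_zero _), ?_⟩
    · intro b _
      refine ⟨_, by rw [next, if_pos hS0], ?_⟩
      rw [HamI, if_pos hemp]
    · simp [FF]
  have hne : (fs n I.S).Nonempty := by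
    push Not at hS0
    obtain ⟨i, hi, hi'⟩ := hS0
    exact ⟨i, mem_fs.2 ⟨hi, hi'⟩⟩
  by_cases hw : fst n (P1 n I) < n
  · -- a separating vertex
    have hP := fst_lt hw
    set w := fst n (P1 n I) with hwdef
    have hwA : ¬ sideA n I w n w := fun h => (rc_mem h).2.2.1 rfl
    have hwB : ¬ sideB n I w n w := fun h => h.2.1 rfl
    have hSeq : fs n I.S = insert w (fs n (sideA n I w n) ∪ fs n (sideB n I w n)) := by
      ext i
      simp only [mem_insert, mem_union, mem_fs]
      constructor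
      · rintro ⟨h1, h2⟩
        by_cases h3 : i = w
        · exact Or.inl h3
        by_cases h4 : Rc n I w n i
        · exact Or.inr (Or.inl ⟨h1, h4⟩)
        · exact Or.inr (Or.inr ⟨h1, h2, h3, by omega, h4⟩)
      · rintro (rfl | ⟨h1, h2⟩ | ⟨h1, h2⟩)
        · exact ⟨hw, hP.1⟩
        · exact ⟨h1, (rc_mem h2).2.1⟩
        · exact ⟨h1, h2.1⟩
    have hdis : Disjoint (fs n (sideA n I w n)) (fs n (sideB n I w n)) := by
      rw [Finset.disjoint_left]
      intro i h1 h2
      rw [mem_fs] at h1 h2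
      exact h2.2.2.2.2 h1.2
    have hcard : (fs n I.S).card =
        (fs n (sideA n I w n)).card + (fs n (sideB n I w n)).card + 1 := by
      rw [hSeq, card_insert_of_notMem, card_union_of_disjoint hdis]
      rw [mem_union, mem_fs, mem_fs]
      rintro (h1 | h1)
      · exact hwA h1.2
      · exact hwB h1.2
    have hsp := hs1 I.E (fs n (sideA n I w n)) (fs n (sideB n I w n)) w I.X I.Y
      (fun h => hwA (mem_fs.1 h).2) (fun h => hwB (mem_fs.1 h).2) hdis
      (fun a ha b hb => by
        rw [mem_fs] at ha hb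
        exact side_arc ha.2 hb.2 hb.1)
      (fun b hb => by
        rw [mem_fs] at hb
        exact side_X hb.2 hb.1)
      (fun a ha => by
        rw [mem_fs] at ha
        exact side_Y hP.2 ha.2)
    set c0 := bas n I (sideA n I w n) w w False with hc0
    set c1 := bas n (rev I) (sideB n I w n) w w False with hc1
    have a0 : HamI n c0 ↔ _ := hamI_bas1 hw hwA
    have a1 : HamI n c1 ↔ _ := hamI_bas1 hw hwB
    have hfin : HamI n I ↔ HamI n c0 ∧ HamI n c1 := by
      rw [hamI_ne hne, hSeq, hsp, a0, a1]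
      refine and_congr Iff.rfl (or_congr Iff.rfl ?_)
      exact (ham_rev (E := I.E) (S := fs n (sideB n I w n)) (X := fun z => I.E w z)
        (Y := I.Y)).symm
    have s0 : fs n c0.S = fs n (sideA n I w n) := fs_lt _
    have s1 : fs n c1.S = fs n (sideB n I w n) := fs_lt _
    refine ⟨2, fun t => if t = 0 then c0 else c1, by omega, ?_, ?_, ?_, ?_⟩
    · intro t ht b _
      have : t = 0 ∨ t = 1 := by omega
      rcases this with rfl | rfl
      · rw [next, if_neg hS0, if_pos hw, if_pos rfl]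
        rfl
      · rw [next, if_neg hS0, if_pos hw, if_neg (by omega), if_pos rfl]
        rfl
    · intro b hb
      refine ⟨b 0 ∧ b 1, ?_, ?_⟩
      · rw [next, if_neg hS0, if_pos hw, if_neg (by omega), if_neg (by omega)]
      · rw [hb 0 (by omega), hb 1 (by omega), hfin]
        simp
    · intro t ht
      have : t = 0 ∨ t = 1 := by omega
      rcases this with rfl | rfl
      · exact ⟨valid_bas hV fun i _ h => (rc_mem h).2.1, by simp only [if_pos, s0]; omega⟩
      · refine ⟨valid_bas (valid_rev hV) fun i _ h => h.1, ?_⟩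
        show (fs n c1.S).card < _
        rw [s1]
        omega
    · have := FF_one (m := (fs n I.S).card) (fs n (sideA n I w n)).card
        (fs n (sideB n I w n)).card (by omega)
      simp only [sum_range_succ, sum_range_zero]
      show 0 + (FF (fs n c0.S).card + 1) + (FF (fs n c1.S).card + 1) + 1 ≤ _
      rw [s0, s1]
      omega
  have h2 : M2 I.E (fs n I.S) I.X I.Y := M2_of (fst_ge hw)
  by_cases hu : spU n I < n
  · -- a separating pair
    have hv : spV n I < n := by
      obtain ⟨v, hv, hN⟩ := fst_lt hu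
      exact fst_of hv hN
    have hN : NT n I (spU n I) (spV n I) := fst_lt hv
    have hsA := sides_A hV h2 hu hv hN
    have hsB := sides_B hV h2 hu hv hN
    by_cases hAB : (fs n (sideA n I (spU n I) (spV n I))).card ≤
        (fs n (sideB n I (spU n I) (spV n I))).card
    · obtain ⟨ch, g1, g2, g3, g4⟩ := proto2 hs2 hsA hAB
      refine ⟨7, ch, le_rfl, ?_, ?_, g3, g4⟩
      · intro t ht b hb
        rw [next, if_neg hS0, if_neg hw, if_pos hu, if_pos hAB]
        exact g1 t ht b hb
      · intro b hb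
        rw [next, if_neg hS0, if_neg hw, if_pos hu, if_pos hAB]
        exact g2 b hb
    · obtain ⟨ch, g1, g2, g3, g4⟩ := proto2 hs2 hsB (by omega)
      refine ⟨7, ch, le_rfl, ?_, ?_, g3, g4⟩
      · intro t ht b hb
        rw [next, if_neg hS0, if_neg hw, if_pos hu, if_neg hAB]
        exact g1 t ht b hb
      · intro b hb
        rw [next, if_neg hS0, if_neg hw, if_pos hu, if_neg hAB]
        rw [hamI_rev] at g2
        exact g2 b hb
  have hNT : ∀ u < n, ∀ v < n, ¬ NT n I u v := fun u hu' v hv' hh =>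
    fst_ge hu u hu' ⟨v, hv', hh⟩
  by_cases hsm : cX n I = 2 ∧ (fs n I.S).card ≤ 6
  · -- small instances
    have hXne : ∃ x < n, I.S x ∧ I.X x := by
      have : 0 < (fs n fun i => I.S i ∧ I.X i).card := by
        have := hsm.1
        unfold cX at this
        omega
      obtain ⟨x, hx⟩ := card_pos.1 this
      rw [mem_fs] at hx
      exact ⟨x, hx⟩
    obtain ⟨x0, hx0, hx0'⟩ := hXne
    have f1 : fX n I < n := fst_of hx0 hx0'
    have f2 : I.S (fX n I) ∧ I.X (fX n I) := fst_lt f1
    obtain ⟨g1, g2, g3, g4⟩ := pair_X hsm.1 f1 f2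
    have a0 := hamI_del f1 f2.1 (ne_of_M2 h2 f1 f2.1)
    have a1 := hamI_del g1 g2.1 (ne_of_M2 h2 g1 g2.1)
    have k0 := card_del f1 f2.1
    have k1 := card_del g1 g2.1
    have hfin : HamI n I ↔ HamI n (del n I (fX n I)) ∨ HamI n (del n I (oX n I (fX n I))) := by
      rw [hamI_ne hne, ham_exists_start, a0, a1]
      constructor
      · rintro ⟨z, hz, hXz, h⟩
        rw [mem_fs] at hz
        rcases g4 z hz.1 hz.2 hXz with rfl | rfl
        · exact Or.inl h
        · exact Or.inr h
      · rintro (h | h)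
        · exact ⟨_, mem_fs.2 ⟨f1, f2.1⟩, f2.2, h⟩
        · exact ⟨_, mem_fs.2 ⟨g1, g2.1⟩, g2.2, h⟩
    have hm2 : 2 ≤ (fs n I.S).card := by
      have := hsm.1
      unfold cX at this
      rw [← this]
      refine card_le_card fun i hi => ?_
      rw [mem_fs] at hi ⊢
      exact ⟨hi.1, hi.2.1⟩
    refine ⟨2, fun t => if t = 0 then del n I (fX n I) else del n I (oX n I (fX n I)),
      by omega, ?_, ?_, ?_, ?_⟩
    · intro t ht b _
      have : t = 0 ∨ t = 1 := by omega
      rcases this with rfl | rfl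
      · rw [next, if_neg hS0, if_neg hw, if_neg hu, if_pos hsm, if_pos rfl]
        rfl
      · rw [next, if_neg hS0, if_neg hw, if_neg hu, if_pos hsm, if_neg (by omega), if_pos rfl]
        rfl
    · intro b hb
      refine ⟨b 0 ∨ b 1, ?_, ?_⟩
      · rw [next, if_neg hS0, if_neg hw, if_neg hu, if_pos hsm, if_neg (by omega),
          if_neg (by omega)]
      · rw [hb 0 (by omega), hb 1 (by omega), hfin]
        simp
    · intro t ht
      have : t = 0 ∨ t = 1 := by omega
      rcases this with rfl | rfl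
      · exact ⟨valid_del hV, by simp only [if_pos]; omega⟩
      · refine ⟨valid_del hV, ?_⟩
        show (fs n (del n I (oX n I (fX n I))).S).card < _
        omega
    · simp only [sum_range_succ, sum_range_zero]
      show 0 + (FF (fs n (del n I (fX n I)).S).card + 1) +
        (FF (fs n (del n I (oX n I (fX n I))).S).card + 1) + 1 ≤ _
      have e : (fs n (del n I (oX n I (fX n I))).S).card = (fs n (del n I (fX n I)).S).card := by
        omega
      rw [e]
      have := FF_three (m := (fs n I.S).card) (k := (fs n (del n I (fX n I)).S).card) hm2 hsm.2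
        (by omega)
      omega
  by_cases hr : cX n I = 2 ∧ fst n (NR n I) < n
  · have hN := fst_lt hr.2
    obtain ⟨g1, g2, g3, g4⟩ := pair_X hr.1 hr.2 ⟨hN.1, hN.2.1⟩
    have k := card_del g1 g2.1
    refine ⟨1, fun _ => del n I (oX n I (fst n (NR n I))), by omega, ?_, ?_, ?_, ?_⟩
    · intro t ht b _
      obtain rfl : t = 0 := by omega
      rw [next, if_neg hS0, if_neg hw, if_neg hu, if_neg hsm, if_pos hr, if_pos rfl]
    · intro b hb
      refine ⟨b 0, ?_, ?_⟩
      · rw [next, if_neg hS0, if_neg hw, if_neg hu, if_neg hsm, if_pos hr, if_neg (by omega)]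
      · rw [hb 0 (by omega)]
        exact ham_other h2 hr.1 hr.2 hN
    · intro t _
      refine ⟨valid_del hV, ?_⟩
      show (fs n (del n I (oX n I (fst n (NR n I)))).S).card < _
      omega
    · simp only [sum_range_succ, sum_range_zero]
      have := FF_four (m := (fs n I.S).card)
        (k := (fs n (del n I (oX n I (fst n (NR n I)))).S).card) (by omega)
      omega
  by_cases hr' : cX n (rev I) = 2 ∧ fst n (NR n (rev I)) < n
  · have hN := fst_lt hr'.2
    obtain ⟨g1, g2, g3, g4⟩ := pair_X hr'.1 hr'.2 ⟨hN.1, hN.2.1⟩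
    have k := card_del g1 g2.1
    have kS : (fs n (rev I).S).card = (fs n I.S).card := rfl
    refine ⟨1, fun _ => del n (rev I) (oX n (rev I) (fst n (NR n (rev I)))), by omega,
      ?_, ?_, ?_, ?_⟩
    · intro t ht b _
      obtain rfl : t = 0 := by omega
      rw [next, if_neg hS0, if_neg hw, if_neg hu, if_neg hsm, if_neg hr, if_pos hr', if_pos rfl]
    · intro b hb
      refine ⟨b 0, ?_, ?_⟩
      · rw [next, if_neg hS0, if_neg hw, if_neg hu, if_neg hsm, if_neg hr, if_pos hr',
          if_neg (by omega)]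
      · rw [hb 0 (by omega)]
        exact (ham_other (M2_rev h2) hr'.1 hr'.2 hN).trans hamI_rev
    · intro t _
      refine ⟨valid_del (valid_rev hV), ?_⟩
      show (fs n (del n (rev I) (oX n (rev I) (fst n (NR n (rev I))))).S).card < _
      omega
    · simp only [sum_range_succ, sum_range_zero]
      have := FF_four (m := (fs n I.S).card)
        (k := (fs n (del n (rev I) (oX n (rev I) (fst n (NR n (rev I))))).S).card) (by omega)
      omega
  -- the base case
  have hcov : covI n I ↔ HamI n I := by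
    rw [hamI_ne hne]
    set XF := fs n fun i => I.S i ∧ I.X i with hXF
    set YF := fs n fun i => I.S i ∧ I.Y i with hYF
    have hXiff : ∀ i ∈ fs n I.S, (i ∈ XF ↔ I.X i) := by
      intro i hi
      rw [mem_fs] at hi
      rw [hXF, mem_fs]
      exact ⟨fun h => h.2.2, fun h => ⟨hi.1, hi.2, h⟩⟩
    have hYiff : ∀ i ∈ fs n I.S, (i ∈ YF ↔ I.Y i) := by
      intro i hi
      rw [mem_fs] at hi
      rw [hYF, mem_fs]
      exact ⟨fun h => h.2.2, fun h => ⟨hi.1, hi.2, h⟩⟩
    have hconn : ∀ T ⊆ fs n I.S, (Conn I.E T (· ∈ XF) (· ∈ YF) ↔ Conn I.E T I.X I.Y) := by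
      intro T hT
      have hc : ∀ v, Rch I.E T (· ∈ XF) v ↔ Rch I.E T I.X v := fun v =>
        rch_congr fun u hu => hXiff u (hT hu)
      constructor
      · rintro ⟨v, h1, h3⟩
        exact ⟨v, (hc v).1 h1, (hYiff v (hT h1.mem)).1 h3⟩
      · rintro ⟨v, h1, h3⟩
        exact ⟨v, (hc v).2 h1, (hYiff v (hT h1.mem)).2 h3⟩
    constructor
    · intro hc
      have hm := hB I.E (fs n I.S) XF YF hne
        (fun i hi => by rw [hXF, mem_fs] at hi; exact mem_fs.2 ⟨hi.1, hi.2.1⟩)
        (fun i hi => by rw [hYF, mem_fs] at hi; exact mem_fs.2 ⟨hi.1, hi.2.1⟩) hV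
        ⟨fun v hv => ?_, fun v hv => ?_⟩ ?_ ?_ ?_ ?_ ?_
      · exact ham_mono hm (fun _ _ _ _ _ h => h) (fun u hu => (hXiff u hu).1)
          (fun u hu => (hYiff u hu).1)
      · have hv' := mem_fs.1 hv
        have := (hc v hv'.1 hv'.2).1
        unfold Rc at this
        rw [erase0] at this
        exact (rch_congr hXiff).2 this
      · have hv' := mem_fs.1 hv
        have := (hc v hv'.1 hv'.2).2
        unfold Rc at this
        rw [erase0] at this
        exact (rch_congr hYiff).2 this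
      · intro w hw'
        rw [hconn _ (erase_subset _ _)]
        exact h2 w hw'
      · intro u hu' v hv' huv hcon
        rw [hconn _ ((erase_subset _ _).trans (erase_subset _ _))] at hcon
        have hu2 := mem_fs.1 hu'
        have hv2 := mem_fs.1 hv'
        by_contra hh
        push Not at hh
        obtain ⟨⟨z, hz, hXz⟩, z', hz', hr2⟩ := hh
        have hzS : z ∈ fs n I.S := mem_of_mem_erase (mem_of_mem_erase hz)
        have hz'S : z' ∈ fs n I.S := mem_of_mem_erase (mem_of_mem_erase hz')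
        rw [rch_congr (X' := I.X) (fun u hu => hXiff u (mem_of_mem_erase (mem_of_mem_erase hu)))]
          at hr2
        refine hNT u hu2.1 v hv2.1 ⟨hu2.2, hv2.2, huv, ?_, ⟨z, (mem_fs.1 hzS).1, ?_⟩,
          ⟨z', (mem_fs.1 hz'S).1, (mem_fs.1 hz'S).2, ?_, ?_, ?_⟩⟩
        · rw [noPath_iff, erase2]
          exact hcon
        · unfold Rc
          rw [erase2]
          exact Rch.base hz ((hXiff z hzS).1 hXz)
        · exact (mem_erase.1 (mem_erase.1 hz').2).1
        · exact (mem_erase.1 hz').1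
        · unfold Rc
          rw [erase2]
          exact hr2
      · intro hX2 x hx hXx z hz
        by_contra hcon
        rw [rch_congr (X' := I.Y) (fun u hu => hYiff u (mem_of_mem_erase hu))] at hcon
        have hx2 := mem_fs.1 hx
        have hz2 := mem_erase.1 hz
        have hz3 := mem_fs.1 hz2.2
        refine hr ⟨hX2, fst_of hx2.1 ⟨hx2.2, (hXiff x hx).1 hXx, z, hz3.1, hz3.2, hz2.1, ?_⟩⟩
        unfold Rc
        rw [erase1]
        exact hcon
      · intro hY2 x hx hYx z hz
        by_contra hcon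
        rw [rch_congr (X' := I.X) (fun u hu => hXiff u (mem_of_mem_erase hu))] at hcon
        have hx2 := mem_fs.1 hx
        have hz2 := mem_erase.1 hz
        have hz3 := mem_fs.1 hz2.2
        refine hr' ⟨hY2, fst_of hx2.1 ⟨hx2.2, (hYiff x hx).1 hYx, z, hz3.1, hz3.2, hz2.1, ?_⟩⟩
        unfold Rc
        rw [erase1]
        exact hcon
      · rintro ⟨hX2, -, hc6⟩
        exact hsm ⟨hX2, hc6⟩
    · intro h z hz hzS
      have := ham_cov h
      have hz' : z ∈ fs n I.S := mem_fs.2 ⟨hz, hzS⟩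
      unfold Rc
      rw [erase0, erase0]
      exact ⟨this.1 z hz', this.2 z hz'⟩
  refine ⟨0, fun _ => I, by omega, fun t ht => absurd ht (Nat.not_lt_zero _), ?_,
    fun t ht => absurd ht (Nat.not_lt_zero _), ?_⟩
  · intro b _
    refine ⟨covI n I, ?_, hcov⟩
    rw [next, if_neg hS0, if_neg hw, if_neg hu, if_neg hsm, if_neg hr, if_neg hr']
  · simp [FF]

end Pool.Agent.Lib54.HP
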