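import Pool.Agent.Lib_helper54.HamPath.Alg

/-!
# A machine that runs the recursion with a stack
-/

namespace Pool.Agent.Lib54.HP

open Finset

/-- A machine with a stack of instances that performs the steps given by `next`. -/
structure Mach (n : ℕ) (σ : Type) where
  body : σ → σ
  ok : σ → Prop
  dn : σ → Prop
  rs : σ → Prop
  top : σ → ℕ
  ins : σ → ℕ → Ins
  cn : σ → ℕ → ℕ
  bt : σ → ℕ → ℕ → Prop
  push : ∀ s J, ok s → ¬ dn s → next n (ins s (top s)) (cn s (top s)) (bt s (top s)) = .inl J →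
    ok (body s) ∧ ¬ dn (body s) ∧ top (body s) = top s + 1 ∧ ins (body s) (top s + 1) = J ∧
    cn (body s) (top s + 1) = 0 ∧
    ∀ k ≤ top s, ins (body s) k = ins s k ∧ cn (body s) k = cn s k ∧ bt (body s) k = bt s k
  pop0 : ∀ s r, ok s → ¬ dn s → next n (ins s (top s)) (cn s (top s)) (bt s (top s)) = .inr r →
    top s = 0 → ok (body s) ∧ dn (body s) ∧ (rs (body s) ↔ r)
  pop : ∀ s r k, ok s → ¬ dn s → next n (ins s (top s)) (cn s (top s)) (bt s (top s)) = .inr r →
    top s = k + 1 → cn s k < 8 →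
    ok (body s) ∧ ¬ dn (body s) ∧ top (body s) = k ∧ ins (body s) k = ins s k ∧
    cn (body s) k = cn s k + 1 ∧ (bt (body s) k (cn s k) ↔ r) ∧
    (∀ t, t ≠ cn s k → (bt (body s) k t ↔ bt s k t)) ∧
    ∀ j < k, ins (body s) j = ins s j ∧ cn (body s) j = cn s j ∧ bt (body s) j = bt s j
  stay : ∀ s, ok s → dn s → ok (body s) ∧ dn (body s) ∧ (rs (body s) ↔ rs s)

variable {n : ℕ} {σ : Type} (M : Mach n σ)

/-- The frames before `k` are the same. -/
def Mach.Same (s s' : σ) (k : ℕ) : Prop :=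
  ∀ j < k, M.ins s' j = M.ins s j ∧ M.cn s' j = M.cn s j ∧ M.bt s' j = M.bt s j

/-- From `s` the machine comes to `s'` after returning `r` from the frame at the top. -/
def Mach.Ret (s s' : σ) (r : Prop) : Prop :=
  (M.top s = 0 → M.ok s' ∧ M.dn s' ∧ (M.rs s' ↔ r)) ∧
  ∀ k, M.top s = k + 1 → M.ok s' ∧ ¬ M.dn s' ∧ M.top s' = k ∧ M.ins s' k = M.ins s k ∧
    M.cn s' k = M.cn s k + 1 ∧ (M.bt s' k (M.cn s k) ↔ r) ∧
    (∀ t, t ≠ M.cn s k → (M.bt s' k t ↔ M.bt s k t)) ∧ M.Same s s' k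

/-- The frame at the top is evaluated in at most `N` steps. -/
def Mach.Evals (s : σ) (r : Prop) (N : ℕ) : Prop :=
  ∃ T ≤ N, M.Ret s (M.body^[T] s) r

/-- Going on after some steps. -/
lemma Mach.Ret.of_mid {s s' s'' : σ} {r : Prop} {k : ℕ} (htop : M.top s = k)
    (htop' : M.top s' = k) (hsame : M.Same s s' k) (h : M.Ret s' s'' r) : M.Ret s s'' r := by
  refine ⟨fun h0 => h.1 (by rw [htop', ← htop, h0]), fun j hj => ?_⟩
  obtain ⟨g1, g2, g3, g4, g5, g6, g7, g8⟩ := h.2 j (by rw [htop', ← htop, hj])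
  obtain ⟨e1, e2, e3⟩ := hsame j (by omega)
  rw [e2] at g5 g6 g7
  refine ⟨g1, g2, g3, g4.trans e1, g5, g6, fun t ht => ?_, fun i hi => ?_⟩
  · rw [g7 t ht, e3]
  · obtain ⟨f1, f2, f3⟩ := g8 i hi
    obtain ⟨e1, e2, e3⟩ := hsame i (by omega)
    exact ⟨f1.trans e1, f2.trans e2, f3.trans e3⟩

/-- All frames are evaluated. -/
theorem Mach.evals (hP : ∀ I, Valid n I → Protocol n I) : ∀ (m : ℕ) (s : σ),
    M.ok s → ¬ M.dn s → M.cn s (M.top s) = 0 → Valid n (M.ins s (M.top s)) →
    (fs n (M.ins s (M.top s)).S).card = m → (∀ k, M.top s = k + 1 → M.cn s k < 8) →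
    M.Evals s (HamI n (M.ins s (M.top s))) (FF m) := by
  intro m
  induction m using Nat.strong_induction_on with
  | _ m ih =>
    intro s hok hdn hcn hV hm hk
    set I := M.ins s (M.top s) with hI
    obtain ⟨c, ch, hc7, hcall, hans, hch, hsum⟩ := hP I hV
    rw [hm] at hsum
    -- after `t` calls
    have key : ∀ t ≤ c, ∃ T, T ≤ ∑ i ∈ range t, (FF (fs n (ch i).S).card + 1) ∧
        M.ok (M.body^[T] s) ∧ ¬ M.dn (M.body^[T] s) ∧ M.top (M.body^[T] s) = M.top s ∧
        M.ins (M.body^[T] s) (M.top s) = I ∧ M.cn (M.body^[T] s) (M.top s) = t ∧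
        (∀ i < t, (M.bt (M.body^[T] s) (M.top s) i ↔ HamI n (ch i))) ∧
        M.Same s (M.body^[T] s) (M.top s) := by
      intro t
      induction t with
      | zero =>
        intro _
        refine ⟨0, by simp, hok, hdn, rfl, rfl, hcn, fun i hi => absurd hi (Nat.not_lt_zero _),
          fun j _ => ⟨rfl, rfl, rfl⟩⟩
      | succ t iht =>
        intro ht
        obtain ⟨T, hT, h1, h2, h3, h4, h5, h6, h7⟩ := iht (by omega)
        set s1 := M.body^[T] s with hs1
        have hnext : next n (M.ins s1 (M.top s1)) (M.cn s1 (M.top s1)) (M.bt s1 (M.top s1)) =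
            .inl (ch t) := by
          rw [h3, h4, h5]
          exact hcall t (by omega) _ h6
        obtain ⟨p1, p2, p3, p4, p5, p6⟩ := M.push s1 (ch t) h1 h2 hnext
        rw [h3] at p3 p4 p5 p6
        set s2 := M.body s1 with hs2
        obtain ⟨q1, q2⟩ := hch t (by omega)
        obtain ⟨T', hT', hR⟩ := ih _ (by rw [← hm]; exact q2) s2 p1 p2
          (by rw [p3]; exact p5) (by rw [p3, p4]; exact q1) (by rw [p3, p4]) (by
            intro k hk'
            rw [p3] at hk'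
            obtain rfl : k = M.top s := by omega
            rw [(p6 _ le_rfl).2.1, h5]
            omega)
        rw [p3, p4] at hR
        obtain ⟨r1, r2, r3, r4, r5, r6, r7, r8⟩ := hR.2 (M.top s) p3
        have hfin : M.body^[T' + (1 + T)] s = M.body^[T'] s2 := by
          rw [Function.iterate_add_apply, Function.iterate_add_apply]
          rfl
        refine ⟨T' + (1 + T), ?_, ?_⟩
        · rw [sum_range_succ]
          omega
        rw [hfin]
        have e1 := p6 _ le_rfl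
        rw [e1.2.1, h5] at r5 r6 r7
        refine ⟨r1, r2, r3, by rw [r4, e1.1, h4], r5, ?_, ?_⟩
        · intro i hi
          by_cases hit : i = t
          · subst hit
            exact r6
          · rw [r7 i hit, e1.2.2]
            exact h6 i (by omega)
        · intro j hj
          obtain ⟨a1, a2, a3⟩ := r8 j hj
          obtain ⟨b1, b2, b3⟩ := p6 j (by omega)
          obtain ⟨c1, c2, c3⟩ := h7 j hj
          exact ⟨(a1.trans b1).trans c1, (a2.trans b2).trans c2, (a3.trans b3).trans c3⟩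
    obtain ⟨T, hT, h1, h2, h3, h4, h5, h6, h7⟩ := key c le_rfl
    set s1 := M.body^[T] s with hs1
    obtain ⟨r, hr, hr'⟩ := hans _ h6
    have hnext : next n (M.ins s1 (M.top s1)) (M.cn s1 (M.top s1)) (M.bt s1 (M.top s1)) =
        .inr r := by
      rw [h3, h4, h5]
      exact hr
    refine ⟨1 + T, by omega, ?_⟩
    have hfin : M.body^[1 + T] s = M.body s1 := by
      rw [Function.iterate_add_apply]
      rfl
    rw [hfin]
    refine Mach.Ret.of_mid M (k := M.top s) rfl h3 h7 ⟨fun h0 => ?_, fun k hk' => ?_⟩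
    · obtain ⟨g0, g1, g2⟩ := M.pop0 s1 r h1 h2 hnext h0
      exact ⟨g0, g1, g2.trans hr'⟩
    · have hk8 : M.cn s1 k < 8 := by
        rw [h3] at hk'
        rw [(h7 k (by omega)).2.1]
        exact hk k hk'
      obtain ⟨g1, g2, g3, g4, g5, g6, g7, g8⟩ := M.pop s1 r k h1 h2 hnext hk' hk8
      exact ⟨g1, g2, g3, g4, g5, g6.trans hr', g7, g8⟩

/-- The answer after sufficiently many steps. -/
theorem Mach.final (hP : ∀ I, Valid n I → Protocol n I) (s : σ) (hok : M.ok s) (hdn : ¬ M.dn s)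
    (htop : M.top s = 0) (hcn : M.cn s 0 = 0) (hV : Valid n (M.ins s 0)) {N : ℕ}
    (hN : FF (fs n (M.ins s 0).S).card ≤ N) :
    M.ok (M.body^[N] s) ∧ M.dn (M.body^[N] s) ∧ (M.rs (M.body^[N] s) ↔ HamI n (M.ins s 0)) := by
  obtain ⟨T, hT, hR⟩ := M.evals hP _ s hok hdn (by rw [htop]; exact hcn)
    (by rw [htop]; exact hV) rfl (fun k hk => by omega)
  rw [htop] at hR hT
  obtain ⟨h0, h1, h2⟩ := hR.1 htop
  obtain ⟨d, hd⟩ := Nat.exists_eq_add_of_le (hT.trans hN)
  subst hd
  clear hN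
  induction d with
  | zero => exact ⟨h0, h1, h2⟩
  | succ d ih =>
    rw [show T + (d + 1) = 1 + (T + d) by ring, Function.iterate_add_apply]
    obtain ⟨g1, g2, g3⟩ := M.stay _ ih.1 ih.2.1
    exact ⟨g1, g2, g3.trans ih.2.2⟩

end Pool.Agent.Lib54.HP
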