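import Pool.Agent.Lib_helper54.HamPath.Rec

/-!
# Simple properties of hamiltonian paths and of reachability
-/

namespace Pool.Agent.Lib54.HP

open Pool.Agent.Lib53.HamBase Finset

section General
variable {V : Type*} {E E' : V → V → Prop} {S S' : Finset V} {X Y X' Y' : V → Prop}

lemma chain_mono : ∀ l : List V, (∀ u ∈ l, ∀ v ∈ l, u ≠ v → E u v → E' u v) → l.Nodup →
    l.IsChain E → l.IsChain E' := by
  intro l
  induction l with
  | nil => intro _ _ _; simp
  | cons a l ih =>
    intro h hn hc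
    rcases l with _ | ⟨b, l⟩
    · simp
    · rw [List.isChain_cons_cons] at hc ⊢
      have hab : a ≠ b := by
        rintro rfl
        simp at hn
      exact ⟨h a (by simp) b (by simp) hab hc.1,
        ih (fun u hu v hv => h u (List.mem_cons_of_mem _ hu) v (List.mem_cons_of_mem _ hv))
          (List.nodup_cons.1 hn).2 hc.2⟩

lemma ham_mono (h : Ham E S X Y) (hE : ∀ u ∈ S, ∀ v ∈ S, u ≠ v → E u v → E' u v)
    (hX : ∀ u ∈ S, X u → X' u) (hY : ∀ u ∈ S, Y u → Y' u) : Ham E' S X' Y' := by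
  obtain ⟨a, b, l, hp, ha, hb, hl⟩ := h
  refine ⟨a, b, l, ⟨chain_mono l (fun u hu v hv => hE u ((hl u).1 hu) v ((hl v).1 hv))
    hp.nodup hp.chain, hp.nodup, hp.head, hp.last⟩, hX a ((hl a).1 hp.mem_head) ha,
    hY b ((hl b).1 hp.mem_last) hb, hl⟩

lemma ham_congr (hE : ∀ u ∈ S, ∀ v ∈ S, u ≠ v → (E u v ↔ E' u v))
    (hX : ∀ u ∈ S, (X u ↔ X' u)) (hY : ∀ u ∈ S, (Y u ↔ Y' u)) :
    Ham E S X Y ↔ Ham E' S X' Y' :=
  ⟨fun h => ham_mono h (fun u hu v hv huv => (hE u hu v hv huv).1) (fun u hu => (hX u hu).1)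
    fun u hu => (hY u hu).1,
  fun h => ham_mono h (fun u hu v hv huv => (hE u hu v hv huv).2) (fun u hu => (hX u hu).2)
    fun u hu => (hY u hu).2⟩

lemma ham_reverse (h : Ham E S X Y) : Ham (Rev E) S Y X := by
  obtain ⟨a, b, l, hp, ha, hb, hl⟩ := h
  refine ⟨b, a, l.reverse, ⟨?_, List.nodup_reverse.2 hp.nodup, ?_, ?_⟩, hb, ha, fun v => ?_⟩
  · rw [List.isChain_reverse]
    exact hp.chain
  · rw [List.head?_reverse]
    exact hp.last
  · rw [List.getLast?_reverse]
    exact hp.head
  · rw [List.mem_reverse]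
    exact hl v

lemma ham_rev : Ham (Rev E) S Y X ↔ Ham E S X Y := ⟨fun h => ham_reverse h, fun h => ham_reverse h⟩

lemma Rch.mem {v : V} (h : Rch E S X v) : v ∈ S := by
  cases h with
  | base h _ => exact h
  | step _ _ h => exact h

lemma Rch.mono {v : V} (h : Rch E S X v) (hS : S ⊆ S')
    (hE : ∀ u ∈ S, ∀ v ∈ S, E u v → E' u v) (hX : ∀ u ∈ S, X u → X' u) : Rch E' S' X' v := by
  induction h with
  | base h h' => exact Rch.base (hS h) (hX _ h h')
  | step h1 h2 h3 ih => exact Rch.step ih (hE _ h1.mem _ h3 h2) (hS h3)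

lemma rch_congr {v : V} (hX : ∀ u ∈ S, (X u ↔ X' u)) : Rch E S X v ↔ Rch E S X' v :=
  ⟨fun h => h.mono subset_rfl (fun _ _ _ _ h => h) fun u hu => (hX u hu).1,
    fun h => h.mono subset_rfl (fun _ _ _ _ h => h) fun u hu => (hX u hu).2⟩

lemma Conn.rev (h : Conn E S X Y) : Conn (Rev E) S Y X := by
  obtain ⟨v, hv, hY⟩ := h
  have key : ∀ v, Rch E S X v → Rch (Rev E) S Y v → ∃ x, Rch (Rev E) S Y x ∧ X x := by
    intro v hv
    induction hv with
    | base h h' => exact fun hr => ⟨_, hr, h'⟩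
    | step h1 h2 h3 ih => exact fun hr => ih (Rch.step hr h2 h1.mem)
  exact key v hv (Rch.base hv.mem hY)

/-- All the vertices of a path from `X` are reached. -/
lemma rch_of_chain : ∀ (l : List V) (a : V), l.head? = some a → (∀ v ∈ l, v ∈ S) →
    Rch E S X a → l.IsChain E → ∀ v ∈ l, Rch E S X v := by
  intro l
  induction l with
  | nil => intro a h; simp at h
  | cons b l ih =>
    intro a ha hS hr hc v hv
    obtain rfl : b = a := by simpa using ha
    rcases List.mem_cons.1 hv with rfl | hv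
    · exact hr
    · rcases l with _ | ⟨c, l⟩
      · simp at hv
      · rw [List.isChain_cons_cons] at hc
        exact ih c rfl (fun v hv => hS v (List.mem_cons_of_mem _ hv))
          (Rch.step hr hc.1 (hS c (by simp))) hc.2 v hv

lemma ham_reach (h : Ham E S X Y) : ∀ v ∈ S, Rch E S X v := by
  obtain ⟨a, b, l, hp, ha, hb, hl⟩ := h
  intro v hv
  exact rch_of_chain l a hp.head (fun v hv => (hl v).1 hv)
    (Rch.base ((hl a).1 hp.mem_head) ha) hp.chain v ((hl v).2 hv)

lemma ham_cov (h : Ham E S X Y) : Cov E S X Y := ⟨ham_reach h, ham_reach (ham_reverse h)⟩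

lemma ham_start (h : Ham E S X Y) : ∃ x ∈ S, X x := by
  obtain ⟨a, b, l, hp, ha, hb, hl⟩ := h
  exact ⟨a, (hl a).1 hp.mem_head, ha⟩

end General

/-! ### Deleting the first vertex -/

section Del
variable {V : Type*} [DecidableEq V] {E : V → V → Prop} {S : Finset V} {X Y : V → Prop}

/-- A hamiltonian path from `x` is a hamiltonian path of the rest from an outneighbour. -/
lemma ham_del {x : V} (hx : x ∈ S) (hne : (S.erase x).Nonempty) :
    Ham E S (fun z => z = x) Y ↔ Ham E (S.erase x) (fun z => E x z) Y := by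
  constructor
  · rintro ⟨a, b, l, hp, ha, hb, hl⟩
    subst ha
    rcases l with _ | ⟨c, l⟩
    · exact absurd rfl hp.ne_nil
    obtain rfl : c = a := by simpa using hp.head
    have hn := List.nodup_cons.1 hp.nodup
    rcases l with _ | ⟨d, l⟩
    · exfalso
      obtain ⟨z, hz⟩ := hne
      rw [mem_erase] at hz
      have := (hl z).2 hz.2
      exact hz.1 (by simpa using this)
    · have hc := hp.chain
      rw [List.isChain_cons_cons] at hc
      refine ⟨d, b, d :: l, ⟨hc.2, hn.2, rfl, ?_⟩, hc.1, hb, fun v => ?_⟩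
      · have := hp.last
        rwa [List.getLast?_cons_cons] at this
      · rw [mem_erase]
        constructor
        · intro hv
          refine ⟨fun h => hn.1 (h ▸ hv), (hl v).1 (List.mem_cons_of_mem _ hv)⟩
        · rintro ⟨h1, h2⟩
          exact (List.mem_cons.1 ((hl v).2 h2)).resolve_left h1
  · rintro ⟨a, b, l, hp, ha, hb, hl⟩
    refine ⟨x, b, x :: l, hp.cons ha (fun h => ?_), rfl, hb, fun v => ?_⟩
    · exact (mem_erase.1 ((hl x).1 h)).1 rfl
    · rw [List.mem_cons, hl v, mem_erase]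
      constructor
      · rintro (rfl | h)
        · exact hx
        · exact h.2
      · intro h
        by_cases hvx : v = x
        · exact Or.inl hvx
        · exact Or.inr ⟨hvx, h⟩

omit [DecidableEq V] in
lemma ham_exists_start : Ham E S X Y ↔ ∃ x ∈ S, X x ∧ Ham E S (fun z => z = x) Y := by
  constructor
  · rintro ⟨a, b, l, hp, ha, hb, hl⟩
    exact ⟨a, (hl a).1 hp.mem_head, ha, a, b, l, hp, rfl, hb, hl⟩
  · rintro ⟨x, hx, hX, a, b, l, hp, ha, hb, hl⟩
    subst ha
    exact ⟨_, b, l, hp, hX, hb, hl⟩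

end Del

end Pool.Agent.Lib54.HP
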